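import Mathlib

namespace Pool.Agent.P.MP_f0827e_co

/-- The point `u` of a cycle of length `N` lies on the arc with last point `T` and length `l`. -/
def mem (N u T l : ℕ) : Prop := (u ≤ T ∧ T ≤ u + l) ∨ (T < u ∧ T + N ≤ u + l)

/-- Strict cyclic order. -/
def sb (a b c : ℕ) : Prop := (a < b ∧ b < c) ∨ (b < c ∧ c < a) ∨ (c < a ∧ a < b)

/-- `b` lies on the half open arc from `a` (included) to `c` (excluded). -/
def wb (a b c : ℕ) : Prop := (a ≤ b ∧ b < c) ∨ (b < c ∧ c < a) ∨ (c < a ∧ a ≤ b)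

/-- First point of an arc. -/
def st (N T l : ℕ) : ℕ := if l ≤ T then T - l else T + N - l

theorem sb_rot {a b c : ℕ} (h : sb a b c) : sb b c a := by unfold sb at *; omega

theorem sb_asymm {a b c : ℕ} (h : sb a b c) : ¬ sb a c b := by unfold sb at *; omega

theorem sb_total {a b c : ℕ} (h1 : a ≠ b) (h2 : b ≠ c) (h3 : a ≠ c) : sb a b c ∨ sb a c b := by
  unfold sb; omega

theorem sb_ne {a b c : ℕ} (h : sb a b c) : a ≠ b ∧ b ≠ c ∧ a ≠ c := by unfold sb at *; omega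

theorem st_spec {N T l : ℕ} (hT : T < N) (hl : l < N) :
    st N T l < N ∧ (st N T l + l = T ∨ (st N T l + l = T + N ∧ T < l)) := by
  unfold st; split_ifs <;> omega

/-- equal last points force nested arcs -/
theorem top_ne {N T l T' l' u u' : ℕ} (h1 : mem N u T l) (h2 : ¬ mem N u T' l')
    (h3 : mem N u' T' l') (h4 : ¬ mem N u' T l) : T ≠ T' := by
  unfold mem at *; omega

/-- L2 -/
theorem l2 {N Tx lx T l T' l' u : ℕ} (hTx : Tx < N) (hT : T < N) (hT' : T' < N) (hl : l < N)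
    (hl' : l' < N) (hu : u < N)
    (hm : mem N Tx T l ∨ mem N T Tx lx) (hn1 : ¬ mem N Tx T' l') (hn2 : ¬ mem N T' Tx lx)
    (w1 : mem N u T' l') (w2 : ¬ mem N u T l) : wb (st N T l) Tx (st N T' l') := by
  obtain ⟨a1, a2⟩ := st_spec hT hl
  obtain ⟨b1, b2⟩ := st_spec hT' hl'
  generalize st N T l = s at *
  generalize st N T' l' = s' at *
  unfold mem wb at *
  omega

/-- L3 -/
theorem l3 {s1 s2 s3 t1 t2 t3 : ℕ} (h : sb s1 s2 s3) (h1 : wb s1 t1 s2) (h2 : wb s2 t2 s3)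
    (h3 : wb s3 t3 s1) : sb t1 t2 t3 := by
  unfold sb wb at *; omega

theorem wb_mono {a b c d : ℕ} (h : wb a b c) (h' : sb a c d) : wb a b d := by
  unfold sb wb at *; omega

/-- comparison of first and last points for two arcs that are not nested -/
theorem l1aux {N T l T' l' u : ℕ} (hT : T < N) (hT' : T' < N) (hl : l < N)
    (hl' : l' < N) (hu : u < N) (w1 : mem N u T' l') (w2 : ¬ mem N u T l) :
    l + 1 < N ∧ ((T' ≤ T ∧ l + T' < T + l') ∨ (T < T' ∧ l + T' < T + N + l')) := by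
  unfold mem at *; omega

/-- L1 -/
theorem l1 {N T1 l1 T2 l2 T3 l3 : ℕ} (hT1 : T1 < N) (hT2 : T2 < N) (hT3 : T3 < N)
    (hl1 : l1 < N) (hl2 : l2 < N) (hl3 : l3 < N)
    (h12 : (T2 ≤ T1 ∧ l1 + T2 < T1 + l2) ∨ (T1 < T2 ∧ l1 + T2 < T1 + N + l2))
    (h21 : (T1 ≤ T2 ∧ l2 + T1 < T2 + l1) ∨ (T2 < T1 ∧ l2 + T1 < T2 + N + l1))
    (h13 : (T3 ≤ T1 ∧ l1 + T3 < T1 + l3) ∨ (T1 < T3 ∧ l1 + T3 < T1 + N + l3))
    (h31 : (T1 ≤ T3 ∧ l3 + T1 < T3 + l1) ∨ (T3 < T1 ∧ l3 + T1 < T3 + N + l1))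
    (h23 : (T3 ≤ T2 ∧ l2 + T3 < T2 + l3) ∨ (T2 < T3 ∧ l2 + T3 < T2 + N + l3))
    (h32 : (T2 ≤ T3 ∧ l3 + T2 < T3 + l2) ∨ (T3 < T2 ∧ l3 + T2 < T3 + N + l2))
    (h : sb T1 T2 T3) : sb (st N T1 l1) (st N T2 l2) (st N T3 l3) := by
  obtain ⟨a1, a2⟩ := st_spec hT1 hl1
  obtain ⟨b1, b2⟩ := st_spec hT2 hl2
  obtain ⟨c1, c2⟩ := st_spec hT3 hl3
  generalize st N T1 l1 = s1 at *
  generalize st N T2 l2 = s2 at *
  generalize st N T3 l3 = s3 at *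
  unfold sb at *
  omega

/-- no alternation -/
theorem alt {N Tx lx T1 l1 T2 l2 T3 l3 T4 l4 : ℕ} (hTx : Tx < N) (hT1 : T1 < N) (hT2 : T2 < N)
    (hT3 : T3 < N) (hT4 : T4 < N)
    (h123 : sb T1 T2 T3) (h341 : sb T3 T4 T1)
    (m1 : mem N Tx T1 l1 ∨ mem N T1 Tx lx) (m3 : mem N Tx T3 l3 ∨ mem N T3 Tx lx)
    (n2 : ¬ mem N Tx T2 l2) (n2' : ¬ mem N T2 Tx lx)
    (n4 : ¬ mem N Tx T4 l4) (n4' : ¬ mem N T4 Tx lx)
    (h32 : (T2 ≤ T3 ∧ l3 + T2 < T3 + l2) ∨ (T3 < T2 ∧ l3 + T2 < T3 + N + l2))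
    (h14 : (T4 ≤ T1 ∧ l1 + T4 < T1 + l4) ∨ (T1 < T4 ∧ l1 + T4 < T1 + N + l4)) : False := by
  unfold mem sb at *
  omega

/-- two meeting arcs avoiding two points are on the same side -/
theorem side_II {N T l T' z1 z2 : ℕ} (hT : T < N) (hT' : T' < N) (h1 : z1 < N) (h2 : z2 < N)
    (hm : mem N T' T l) (n1 : ¬ mem N z1 T l) (n2 : ¬ mem N z2 T l) :
    sb z1 T z2 ↔ sb z1 T' z2 := by
  unfold mem sb at *
  omega

theorem side_IKI {N Tx lx T l T' l' z1 m1 z2 m2 : ℕ} (hTx : Tx < N) (hT : T < N) (hT' : T' < N)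
    (h1 : z1 < N) (h2 : z2 < N)
    (a1 : ¬ mem N T Tx lx) (a2 : ¬ mem N T' Tx lx)
    (b1 : mem N Tx z1 m1 ∨ mem N z1 Tx lx) (b2 : mem N Tx z2 m2 ∨ mem N z2 Tx lx)
    (c1 : ¬ mem N T z1 m1) (c2 : ¬ mem N T' z1 m1) (c3 : ¬ mem N T z2 m2) (c4 : ¬ mem N T' z2 m2)
    (c5 : ¬ mem N z1 T l) (c6 : ¬ mem N z1 T' l') (c7 : ¬ mem N z2 T l) (c8 : ¬ mem N z2 T' l') :
    sb z1 T z2 ↔ sb z1 T' z2 := by
  unfold mem sb at *
  omega

theorem side_sep {a a' z1 z2 : ℕ} (h : sb z1 a z2 ↔ sb z1 a' z2) (h1 : sb a z1 a')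
    (h2 : sb a' z2 a) : False := by
  unfold sb at *
  omega

/-- an arc `z` with a disjoint mate `z'`, one of which contains both `a` and `b`:
one of the two lies strictly inside the arc from `a` to `b` that contains the last point of `z`. -/
theorem allK_half {N a b z m z' m' : ℕ} (ha : a < N) (hb : b < N) (hz : z < N) (hz' : z' < N)
    (hs : sb a z b) (n1 : ¬ mem N z z' m') (n2 : ¬ mem N z' z m)
    (h : (mem N a z' m' ∧ mem N b z' m') ∨ (mem N a z m ∧ mem N b z m)) :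
    (sb a z b ∧ ¬ mem N a z m) ∨ (sb a z' b ∧ ¬ mem N a z' m') := by
  unfold mem sb at *
  omega

theorem allK_disj {N a b y m y' m' : ℕ} (ha : a < N) (hb : b < N) (hy : y < N) (hy' : y' < N)
    (h1 : sb a y b) (h2 : ¬ mem N a y m) (h3 : sb b y' a) (h4 : ¬ mem N b y' m')
    (h : mem N y y' m' ∨ mem N y' y m) : False := by
  unfold mem sb at *
  omega

end Pool.Agent.P.MP_f0827e_co
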