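import Mathlib
import Pool.Agent.P.MP_f0827e_co.Arith

namespace Pool.Agent.P.MP_f0827e_co

theorem acyc_arith {N a la b lb c lc z : ℕ} (ha : a < N) (hb : b < N) (hc : c < N) (hz : z < N)
    (h1 : mem N a b lb) (h2 : mem N b c lc) (h3 : mem N c a la)
    (n1 : ¬ mem N z a la) (n2 : ¬ mem N z b lb) (n3 : ¬ mem N z c lc) : mem N a c lc := by
  unfold mem at *
  omega

/-- three arcs missing `z`, the partner of the middle one swallows `z` -/
theorem swallow {N a la b lb c lc y ly z lz w lw : ℕ} (ha : a < N) (hb : b < N) (hc : c < N)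
    (hy : y < N) (hz : z < N) (hw : w < N)
    (h1 : sb a b c) (h2 : sb c z a)
    (za : ¬ mem N z a la) (za' : ¬ mem N a z lz) (zc : ¬ mem N z c lc) (zc' : ¬ mem N c z lz)
    (ya : mem N y a la ∨ mem N a y ly) (yc : mem N y c lc ∨ mem N c y ly)
    (yb : ¬ mem N y b lb) (yb' : ¬ mem N b y ly)
    (hcb : (b ≤ c ∧ lc + b < c + lb) ∨ (c < b ∧ lc + b < c + N + lb)) :
    mem N z y ly ∧ ((¬ mem N w y ly ∧ ¬ mem N y w lw) → ¬ mem N w z lz ∧ ¬ mem N z w lw) := by
  have h : mem N c y ly ∧ mem N z y ly ∧ wb z y b := by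
    unfold mem sb wb at *
    omega
  refine ⟨h.2.1, ?_⟩
  obtain ⟨e1, e2, e3⟩ := h
  clear ya yc hcb za zc yb
  unfold mem sb wb at *
  omega

theorem single_barrier {N a la b z lz y ly y' ly' : ℕ} (ha : a < N) (hb : b < N) (hz : z < N)
    (hy : y < N) (hy' : y' < N) (h1 : sb a y b) (h2 : sb b z a)
    (h : (sb a y b ∧ ¬ mem N a y ly) ∨ (sb a y' b ∧ ¬ mem N a y' ly'))
    (za : ¬ mem N z a la) (zb : ¬ mem N b z lz)
    (ya : mem N y a la ∨ mem N a y ly) (yz : mem N y' z lz ∨ mem N z y' ly') : False := by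
  unfold mem sb at *
  omega

theorem same_top {N a la lz p lp z' lz' : ℕ}
    (h1 : mem N p a lz ∨ mem N a p lp) (h2 : ¬ mem N p a la) (h3 : ¬ mem N a p lp)
    (h4 : mem N z' a la ∨ mem N a z' lz') (h5 : ¬ mem N z' a lz) (h6 : ¬ mem N a z' lz') :
    False := by
  unfold mem at *
  omega

/-- distance from `a` to `b` along the cycle -/
def dl (N a b : ℕ) : ℕ := if a ≤ b then b - a else b + N - a

theorem dl_lt_of_mem {N a la b z : ℕ} (ha : a < N) (hb : b < N) (hz : z < N)
    (h : mem N b a la) (n : ¬ mem N z a la) (hle : dl N z a ≤ dl N z b) : b = a := by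
  unfold mem dl at *
  split_ifs at hle <;> omega

theorem sb_of_dl {N z a b : ℕ} (ha : a < N) (hb : b < N) (hz : z < N) (h0 : a ≠ z)
    (h : dl N z a < dl N z b) : sb z a b := by
  unfold sb dl at *
  split_ifs at h <;> omega

theorem dl_lt_of_sb {N z a b : ℕ} (ha : a < N) (hb : b < N) (hz : z < N)
    (h : sb z a b) : dl N z a < dl N z b := by
  unfold sb dl at *
  split_ifs <;> omega

theorem dl_inj {N z a b : ℕ} (ha : a < N) (hb : b < N) (hz : z < N)
    (h : dl N z a = dl N z b) : a = b := by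
  unfold dl at *
  split_ifs at h <;> omega

theorem sb_trans {z a b c : ℕ} (h1 : sb z a b) (h2 : sb z b c) : sb a b c ∧ sb c z a := by
  unfold sb at *
  omega

/-- the step used for the linear counting lemma -/
theorem lin_arith {N z lz x lx m lm y ly y' ly' : ℕ} (hz : z < N) (hx : x < N)
    (hm : m < N) (hy : y < N) (hy' : y' < N) (hlm : lm < N) (hly' : ly' < N)
    (xz : mem N x z lz ∨ mem N z x lx)
    (zm : ¬ mem N z m lm) (zm' : ¬ mem N m z lz) (zy : ¬ mem N z y ly) (zy' : ¬ mem N y z lz)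
    (zy2 : ¬ mem N z y' ly') (zy2' : ¬ mem N y' z lz)
    (o2 : dl N z (st N m lm) ≤ dl N z (st N y' ly'))
    (xm : ¬ mem N x m lm) (xm2 : ¬ mem N m x lx)
    (xy : ¬ mem N x y ly) (xy2 : ¬ mem N y x lx)
    (hle : dl N z y' ≤ dl N z y) : ¬ mem N x y' ly' ∧ ¬ mem N y' x lx := by
  obtain ⟨a1, a2⟩ := st_spec hm hlm
  obtain ⟨b1, b2⟩ := st_spec hy' hly'
  generalize st N m lm = s at *
  generalize st N y' ly' = s' at *
  have e1 : dl N z m = dl N z s + lm := by
    unfold dl mem at *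
    split_ifs <;> omega
  have e2 : dl N z y' = dl N z s' + ly' := by
    unfold dl mem at *
    split_ifs <;> omega
  have f : ∀ a b l, a < N → b < N → (mem N a b l ↔
      (dl N z a ≤ dl N z b ∧ dl N z b ≤ dl N z a + l) ∨
        (dl N z b < dl N z a ∧ dl N z b + N ≤ dl N z a + l)) := by
    intro a b l ha hb
    unfold dl mem
    split_ifs <;> omega
  have g : ∀ a, a < N → dl N z a < N := by
    intro a ha
    unfold dl
    split_ifs <;> omega
  have g0 : dl N z z = 0 := by simp [dl]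
  rw [f _ _ _ hx hz, f _ _ _ hz hx] at xz
  rw [f _ _ _ hz hm] at zm
  rw [f _ _ _ hm hz] at zm'
  rw [f _ _ _ hz hy] at zy
  rw [f _ _ _ hy hz] at zy'
  rw [f _ _ _ hz hy'] at zy2
  rw [f _ _ _ hy' hz] at zy2'
  rw [f _ _ _ hx hm] at xm
  rw [f _ _ _ hm hx] at xm2
  rw [f _ _ _ hx hy] at xy
  rw [f _ _ _ hy hx] at xy2
  rw [f _ _ _ hx hy', f _ _ _ hy' hx]
  have := g x hx
  have := g m hm
  have := g y hy
  have := g y' hy'
  clear f g a1 a2 b1 b2
  generalize dl N z z = Z at *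
  subst g0
  generalize dl N z x = X at *
  generalize dl N z m = Mm at *
  generalize dl N z y = Y at *
  generalize dl N z y' = Y' at *
  generalize dl N z s = S at *
  generalize dl N z s' = S' at *
  omega

end Pool.Agent.P.MP_f0827e_co
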