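import Mathlib
import Pool.Agent.P.MP_f0827e_co.Arith2

namespace Pool.Agent.P.MP_f0827e_co

variable {q : ℕ} [Fact q.Prime]

theorem aper (D : ZMod q → Prop) (i : ZMod q) (hi : i ≠ 0) (h : ∀ u, D u → D (u + i))
    (u : ZMod q) (hu : D u) (v : ZMod q) : D v := by
  have key : ∀ n : ℕ, D (u + n * i) := by
    intro n
    induction n with
    | zero => simpa using hu
    | succ n ih =>
      have := h _ ih
      rw [show u + ((n + 1 : ℕ) : ZMod q) * i = u + n * i + i by push_cast; ring]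
      exact this
  have := key ((v - u) * i⁻¹).val
  rw [ZMod.natCast_zmod_val, mul_assoc, inv_mul_cancel₀ hi] at this
  simpa using this

theorem natCast_ne_zero' {k : ℕ} (h0 : 0 < k) (hk : k < q) : (k : ZMod q) ≠ 0 := by
  intro h
  rw [ZMod.natCast_eq_zero_iff] at h
  exact absurd (Nat.le_of_dvd h0 h) (by omega)

/-- a set with exactly one element without predecessor is an interval -/
theorem interval_of_one (D : ZMod q → Prop) (a : ZMod q) (ha : D a)
    (h : ∀ u, D u → u ≠ a → D (u - 1)) (hn : ∃ v, ¬ D v) :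
    ∃ d : ℕ, ∀ u, D u ↔ (u - a).val < d := by
  classical
  have hq : NeZero q := ⟨(Fact.out : q.Prime).ne_zero⟩
  obtain ⟨v, hv⟩ := hn
  have hex : ∃ k : ℕ, ¬ D (a + k) := ⟨(v - a).val, by simpa using hv⟩
  refine ⟨Nat.find hex, fun u => ?_⟩
  have h1 : ∀ k : ℕ, k < q → Nat.find hex ≤ k → ¬ D (a + k) := by
    intro k hk hle
    induction k, hle using Nat.le_induction with
    | base => exact Nat.find_spec hex
    | succ k hle ih =>
      intro hD
      apply ih (by omega)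
      have := h _ hD (by
        intro he
        exact natCast_ne_zero' (k := k + 1) (by omega) hk (by simpa using he))
      rwa [show a + ((k + 1 : ℕ) : ZMod q) - 1 = a + k by push_cast; ring] at this
  have h2 : u = a + ((u - a).val : ℕ) := by simp
  constructor
  · intro hu
    by_contra hc
    exact h1 _ (ZMod.val_lt _) (by omega) (h2 ▸ hu)
  · intro hu
    have := Nat.find_min hex hu
    rw [← h2] at this
    exact not_not.mp this

/-- exactly one element of `D` leaves under the shift `b` -/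
def OneOut (D : ZMod q → Prop) (b : ZMod q) : Prop :=
  ∃ a, (D a ∧ ¬ D (a - b)) ∧ ∀ u, D u → ¬ D (u - b) → u = a

theorem OneOut.ne_zero {D : ZMod q → Prop} {b : ZMod q} (h : OneOut D b) : b ≠ 0 := by
  rintro rfl
  obtain ⟨a, ⟨h1, h2⟩, -⟩ := h
  exact h2 (by simpa using h1)

theorem apu_one (D : ZMod q → Prop) (c : ZMod q) (h1 : OneOut D 1) (hc : OneOut D c)
    (hin : ∃ i j, i ≠ j ∧ D i ∧ D j) (hout : ∃ i j, i ≠ j ∧ ¬ D i ∧ ¬ D j) :
    c = 1 ∨ c = -1 := by
  have hq : NeZero q := ⟨(Fact.out : q.Prime).ne_zero⟩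
  obtain ⟨a, ⟨ha, -⟩, ha'⟩ := h1
  obtain ⟨i, j, hij, hi, hj⟩ := hin
  obtain ⟨i', j', hij', hi', hj'⟩ := hout
  obtain ⟨d, hd⟩ := interval_of_one D a ha
    (fun u hu hne => by by_contra hc; exact hne (ha' u hu hc)) ⟨i', hi'⟩
  have hv : ∀ u v : ZMod q, (u - a).val = (v - a).val → u = v := fun u v h => by
    have := ZMod.val_injective q h
    simpa using this
  have hd2 : 2 ≤ d := by
    have e1 := (hd i).mp hi
    have e2 := (hd j).mp hj
    have e3 : (i - a).val ≠ (j - a).val := fun h => hij (hv _ _ h)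
    omega
  have hd3 : d + 2 ≤ q := by
    have e1 : ¬ (i' - a).val < d := fun h => hi' ((hd i').mpr h)
    have e2 : ¬ (j' - a).val < d := fun h => hj' ((hd j').mpr h)
    have e3 : (i' - a).val ≠ (j' - a).val := fun h => hij' (hv _ _ h)
    have := ZMod.val_lt (i' - a)
    have := ZMod.val_lt (j' - a)
    omega
  by_contra hcc
  push Not at hcc
  have hc0 := hc.ne_zero
  have hcv : c = (c.val : ZMod q) := by simp
  have hlt := ZMod.val_lt c
  have c0 : c.val ≠ 0 := fun h => hc0 (by rw [hcv, h]; simp)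
  have c1 : c.val ≠ 1 := fun h => hcc.1 (by rw [hcv, h]; simp)
  have c2 : c.val + 1 ≠ q := fun h => hcc.2 (by
    have : ((c.val + 1 : ℕ) : ZMod q) = 0 := by rw [h]; simp
    push_cast at this
    rw [← hcv] at this
    exact eq_neg_of_add_eq_zero_left this)
  obtain ⟨b, -, hb⟩ := hc
  have key : ∀ k : ℕ, k < d → k < c.val → d + c.val ≤ q + k → a + (k : ZMod q) = b := by
    intro k hk1 hk2 hk3
    apply hb
    · rw [hd, add_sub_cancel_left, ZMod.val_natCast_of_lt (by omega)]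
      exact hk1
    · rw [hd]
      have : a + (k : ZMod q) - c - a = ((q + k - c.val : ℕ) : ZMod q) := by
        rw [Nat.cast_sub (by omega)]
        push_cast
        rw [← hcv, ZMod.natCast_self]
        ring
      rw [this, ZMod.val_natCast_of_lt (by omega)]
      omega
  have e1 := key (min c.val d - 1) (by omega) (by omega) (by omega)
  have e2 := key (min c.val d - 2) (by omega) (by omega) (by omega)
  have e3 : ((min c.val d - 1 : ℕ) : ZMod q) = ((min c.val d - 2 : ℕ) : ZMod q) :=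
    add_left_cancel (e1.trans e2.symm)
  have e4 := congrArg ZMod.val e3
  rw [ZMod.val_natCast_of_lt (by omega), ZMod.val_natCast_of_lt (by omega)] at e4
  omega

theorem OneOut.scale {D : ZMod q → Prop} {b : ZMod q} (h : OneOut D b) (s : ZMod q)
    (hs : s ≠ 0) : OneOut (fun u => D (s⁻¹ * u)) (s * b) := by
  obtain ⟨a, ⟨h1, h2⟩, h3⟩ := h
  refine ⟨s * a, ⟨?_, ?_⟩, fun u hu hu' => ?_⟩
  · simpa [← mul_assoc, inv_mul_cancel₀ hs] using h1
  · simpa [← mul_sub, ← mul_assoc, inv_mul_cancel₀ hs] using h2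
  · have := h3 (s⁻¹ * u) hu (by
      simpa [mul_sub, ← mul_assoc, inv_mul_cancel₀ hs] using hu')
    rw [← this, ← mul_assoc, mul_inv_cancel₀ hs, one_mul]

theorem apu (D : ZMod q → Prop) (b c : ZMod q) (hb : OneOut D b) (hc : OneOut D c)
    (hin : ∃ i j, i ≠ j ∧ D i ∧ D j) (hout : ∃ i j, i ≠ j ∧ ¬ D i ∧ ¬ D j) :
    c = b ∨ c = -b := by
  have hb0 := hb.ne_zero
  have hs : b⁻¹ ≠ 0 := inv_ne_zero hb0
  have h1 := hb.scale b⁻¹ hs
  have h2 := hc.scale b⁻¹ hs
  rw [inv_mul_cancel₀ hb0] at h1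
  obtain ⟨i, j, hij, hi, hj⟩ := hin
  obtain ⟨i', j', hij', hi', hj'⟩ := hout
  have e : ∀ u : ZMod q, b⁻¹⁻¹ * (b⁻¹ * u) = u := fun u => by
    rw [← mul_assoc, inv_mul_cancel₀ hs, one_mul]
  rcases apu_one _ _ h1 h2
    ⟨b⁻¹ * i, b⁻¹ * j, fun h => hij (mul_left_cancel₀ hs h), by simpa only [e] using hi,
      by simpa only [e] using hj⟩
    ⟨b⁻¹ * i', b⁻¹ * j', fun h => hij' (mul_left_cancel₀ hs h), by simpa only [e] using hi',
      by simpa only [e] using hj'⟩ with h | h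
  · left
    rw [← one_mul c, ← mul_inv_cancel₀ hb0, mul_assoc, h, mul_one]
  · right
    rw [← one_mul c, ← mul_inv_cancel₀ hb0, mul_assoc, h, mul_neg_one]

/-- many translates of a small set that are pairwise disjoint -/
theorem packing (D : Finset (ZMod q)) (hD : D.Nonempty) :
    ∃ A : Finset (ZMod q), q ≤ A.card * (D.card * D.card) ∧
      ∀ c ∈ A, ∀ c' ∈ A, ∀ u ∈ D, ∀ u' ∈ D, u + c = u' + c' → c = c' := by
  classical
  have hq : NeZero q := ⟨(Fact.out : q.Prime).ne_zero⟩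
  let P : Finset (ZMod q) → Prop := fun A =>
    ∀ c ∈ A, ∀ c' ∈ A, ∀ u ∈ D, ∀ u' ∈ D, u + c = u' + c' → c = c'
  obtain ⟨A, hA, hmax⟩ := Finset.exists_max_image (Finset.univ.filter P) Finset.card
    ⟨∅, by simp [P]⟩
  have hPA : P A := (Finset.mem_filter.mp hA).2
  refine ⟨A, ?_, hPA⟩
  have hcov : (Finset.univ : Finset (ZMod q)) ⊆
      (A ×ˢ (D ×ˢ D)).image (fun w => w.1 + w.2.1 - w.2.2) := by
    intro v _
    by_contra hv
    have hvA : v ∉ A := by
      intro h
      obtain ⟨u, hu⟩ := hD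
      exact hv (Finset.mem_image.mpr ⟨(v, u, u), by simp [h, hu], by simp⟩)
    have hP : P (insert v A) := by
      intro c hc c' hc' u hu u' hu' he
      rcases Finset.mem_insert.mp hc with h1 | h1 <;> rcases Finset.mem_insert.mp hc' with h2 | h2
      · rw [h1, h2]
      · exfalso
        apply hv
        refine Finset.mem_image.mpr ⟨(c', u', u), by simp [h2, hu, hu'], ?_⟩
        rw [← h1]; dsimp only; linear_combination -he
      · exfalso
        apply hv
        refine Finset.mem_image.mpr ⟨(c, u, u'), by simp [h1, hu, hu'], ?_⟩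
        rw [← h2]; dsimp only; linear_combination he
      · exact hPA c h1 c' h2 u hu u' hu' he
    have := hmax _ (Finset.mem_filter.mpr ⟨Finset.mem_univ _, hP⟩)
    rw [Finset.card_insert_of_notMem hvA] at this
    omega
  have h1 := Finset.card_le_card hcov
  have h2 := Finset.card_image_le (s := A ×ˢ (D ×ˢ D)) (f := fun w => w.1 + w.2.1 - w.2.2)
  rw [Finset.card_univ, ZMod.card] at h1
  rw [Finset.card_product, Finset.card_product] at h2
  omega

/-- Outside `E`, the points `i` and `i + b` are cyclic neighbours (up to their midpoint). -/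
def Good (τ : ZMod q → ℕ) (b : ZMod q) (E : Finset (ZMod q)) : Prop :=
  (∀ i j, i ∉ E → j ∉ E → τ i = τ j → i = j) ∧
    ∀ i z1 z2, i ∉ E → i + b ∉ E → z1 ∉ E → z2 ∉ E → 2 * (z1 - i) ≠ b → 2 * (z2 - i) ≠ b →
      sb (τ i) (τ z1) (τ (i + b)) → sb (τ (i + b)) (τ z2) (τ i) → False

theorem Good.mono {τ : ZMod q → ℕ} {b : ZMod q} {E E' : Finset (ZMod q)} (h : Good τ b E)
    (hE : E ⊆ E') : Good τ b E' :=
  ⟨fun i j hi hj => h.1 i j (fun x => hi (hE x)) (fun x => hj (hE x)),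
    fun i z1 z2 h1 h2 h3 h4 => h.2 i z1 z2 (fun x => h1 (hE x)) (fun x => h2 (hE x))
      (fun x => h3 (hE x)) (fun x => h4 (hE x))⟩

theorem Good.neg {τ : ZMod q → ℕ} {b : ZMod q} {E : Finset (ZMod q)} (h : Good τ b E) :
    Good τ (-b) E := by
  refine ⟨h.1, fun i z1 z2 h1 h2 h3 h4 h5 h6 h7 h8 => ?_⟩
  have e : i + -b + b = i := by ring
  refine h.2 (i + -b) z2 z1 h2 (by rwa [e]) h4 h3 (fun he => h6 ?_) (fun he => h5 ?_)
    (by rwa [e]) (by rwa [e])
  · linear_combination he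
  · linear_combination he

theorem mid_cases {a y1 y2 y3 : ℕ} (h1 : a ≠ y1) (h2 : a ≠ y2) (h3 : a ≠ y3) (h4 : y1 ≠ y2)
    (h5 : y1 ≠ y3) (h6 : y2 ≠ y3) :
    (sb a y2 y1 ∧ sb y1 y3 a) ∨ (sb a y3 y1 ∧ sb y1 y2 a) ∨ (sb a y1 y2 ∧ sb y2 y3 a) ∨
      (sb a y3 y2 ∧ sb y2 y1 a) ∨ (sb a y1 y3 ∧ sb y3 y2 a) ∨ (sb a y2 y3 ∧ sb y3 y1 a) := by
  have cyc : ∀ u v w, sb a u v → sb a v w → sb a w u → False := by
    intro u v w e1 e2 e3
    unfold sb at *
    omega
  rcases sb_total h1 h4 h2 with p | p <;> rcases sb_total h1 h5 h3 with p' | p' <;>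
    rcases sb_total h2 h6 h3 with p'' | p''
  · exact Or.inr (Or.inr (Or.inl ⟨p, sb_rot p''⟩))
  · exact Or.inr (Or.inr (Or.inr (Or.inr (Or.inl ⟨p', sb_rot p''⟩))))
  · exact (cyc _ _ _ p p'' p').elim
  · exact Or.inr (Or.inl ⟨p', sb_rot p⟩)
  · exact Or.inl ⟨p, sb_rot p'⟩
  · exact (cyc _ _ _ p p' p'').elim
  · exact Or.inr (Or.inr (Or.inr (Or.inr (Or.inr ⟨p'', sb_rot p'⟩))))
  · exact Or.inr (Or.inr (Or.inr (Or.inl ⟨p'', sb_rot p⟩)))

theorem exists_avoid (E : Finset (ZMod q)) (s : Finset (ZMod q)) (h : s.card * E.card < q) :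
    ∃ i, ∀ c ∈ s, i + c ∉ E := by
  classical
  have hq : NeZero q := ⟨(Fact.out : q.Prime).ne_zero⟩
  have h1 : ((s ×ˢ E).image (fun w => w.2 - w.1)).card < (Finset.univ : Finset (ZMod q)).card := by
    rw [Finset.card_univ, ZMod.card]
    exact lt_of_le_of_lt (Finset.card_image_le.trans (by rw [Finset.card_product])) h
  obtain ⟨i, -, hi⟩ := Finset.exists_mem_notMem_of_card_lt_card h1
  exact ⟨i, fun c hc hE => hi (Finset.mem_image.mpr ⟨(c, i + c), by simp [hc, hE], by simp⟩)⟩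

/-- `b` and `c` agree up to sign and a factor two -/
def Near (b c : ZMod q) : Prop :=
  c = b ∨ c = -b ∨ 2 * c = b ∨ 2 * c = -b ∨ c = 2 * b ∨ c = -(2 * b)

theorem Good.cmp {τ : ZMod q → ℕ} {b c : ZMod q} {E : Finset (ZMod q)} (hb : Good τ b E)
    (hc : Good τ c E) (hE : 4 * E.card < q) (hq : 3 < q) (b0 : b ≠ 0) (c0 : c ≠ 0) :
    Near b c := by
  classical
  by_contra hn
  unfold Near at hn
  push Not at hn
  obtain ⟨n1, n2, n3, n4, n5, n6⟩ := hn
  obtain ⟨i, hi⟩ := exists_avoid E {0, b, -b, c}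
    (lt_of_le_of_lt (Nat.mul_le_mul_right _ Finset.card_le_four) hE)
  have i0 : i ∉ E := by simpa using hi 0 (by simp)
  have i1 : i + b ∉ E := hi b (by simp)
  have i2 : i + -b ∉ E := hi (-b) (by simp)
  have i3 : i + c ∉ E := hi c (by simp)
  have h2 : (2 : ZMod q) ≠ 0 := by exact_mod_cast natCast_ne_zero' (q := q) (k := 2) (by omega) (by omega)
  have h3 : (3 : ZMod q) ≠ 0 := by exact_mod_cast natCast_ne_zero' (q := q) (k := 3) (by omega) hq
  have b2 : 2 * b ≠ 0 := mul_ne_zero h2 b0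
  have b3 : 3 * b ≠ 0 := mul_ne_zero h3 b0
  have hinj := hb.1
  have hb' := hb.neg
  rcases mid_cases (a := τ i) (y1 := τ (i + b)) (y2 := τ (i + -b)) (y3 := τ (i + c))
    (fun h => b0 (by linear_combination -(hinj _ _ i0 i1 h)))
    (fun h => b0 (by linear_combination (hinj _ _ i0 i2 h)))
    (fun h => c0 (by linear_combination -(hinj _ _ i0 i3 h)))
    (fun h => b2 (by linear_combination (hinj _ _ i1 i2 h)))
    (fun h => n1 (by linear_combination -(hinj _ _ i1 i3 h)))
    (fun h => n2 (by linear_combination -(hinj _ _ i2 i3 h))) with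
    h | h | h | h | h | h
  · exact hb.2 i _ _ i0 i1 i2 i3 (fun e => b3 (by linear_combination -e))
      (fun e => n3 (by linear_combination e)) h.1 h.2
  · exact hb.2 i _ _ i0 i1 i3 i2 (fun e => n3 (by linear_combination e))
      (fun e => b3 (by linear_combination -e)) h.1 h.2
  · exact hb'.2 i _ _ i0 i2 i1 i3 (fun e => b3 (by linear_combination e))
      (fun e => n4 (by linear_combination e)) h.1 h.2
  · exact hb'.2 i _ _ i0 i2 i3 i1 (fun e => n4 (by linear_combination e))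
      (fun e => b3 (by linear_combination e)) h.1 h.2
  · exact hc.2 i _ _ i0 i3 i1 i2 (fun e => n5 (by linear_combination -e))
      (fun e => n6 (by linear_combination -e)) h.1 h.2
  · exact hc.2 i _ _ i0 i3 i2 i1 (fun e => n6 (by linear_combination -e))
      (fun e => n5 (by linear_combination -e)) h.1 h.2

theorem lin_contra (N : ℕ) (τ : ZMod q → ℕ) (hτ : ∀ i, τ i < N) (hinj : Function.Injective τ)
    (u : ℕ) (hu : u < N) (hne : ∀ i, τ i ≠ u) (b : ZMod q) (b0 : b ≠ 0) (hq : 3 < q)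
    (h1 : ∀ i z, 2 * (z - i) ≠ b → sb (τ i) (τ z) (τ (i + b)) → sb (τ (i + b)) u (τ i) → False)
    (h2 : ∀ i z, 2 * (z - i) ≠ b → sb (τ i) u (τ (i + b)) → sb (τ (i + b)) (τ z) (τ i) → False) :
    False := by
  have hq' : NeZero q := ⟨(Fact.out : q.Prime).ne_zero⟩
  obtain ⟨i, -, hi⟩ := Finset.exists_min_image Finset.univ (fun i => dl N u (τ i))
    Finset.univ_nonempty
  have e2 : (2 : ZMod q) ≠ 0 := by exact_mod_cast natCast_ne_zero' (q := q) (k := 2) (by omega) (by omega)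
  have e3 : (3 : ZMod q) ≠ 0 := by exact_mod_cast natCast_ne_zero' (q := q) (k := 3) (by omega) hq
  have b2 : 2 * b ≠ 0 := mul_ne_zero e2 b0
  have b3 : 3 * b ≠ 0 := mul_ne_zero e3 b0
  have hs : ∀ j, j ≠ i → sb u (τ i) (τ j) := fun j hj =>
    sb_of_dl (hτ i) (hτ j) hu (hne i) (lt_of_le_of_ne (hi j (Finset.mem_univ _))
      (fun h => hj (hinj (dl_inj (hτ i) (hτ j) hu h)).symm))
  have p1 := hs (i + b) (fun h => b0 (by linear_combination h))
  have p2 := hs (i - b) (fun h => b0 (by linear_combination -h))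
  have p3 : τ (i + b) ≠ τ (i - b) := fun h => b2 (by linear_combination hinj h)
  rcases sb_total (a := u) (b := τ (i + b)) (c := τ (i - b)) (hne _).symm p3 (hne _).symm with
    h | h
  · have e : i - b + b = i := by ring
    have := sb_trans p1 h
    exact h2 (i - b) (i + b) (fun e => b3 (by linear_combination e)) (by rw [e]; exact this.2)
      (by rw [e]; exact this.1)
  · have := sb_trans p2 h
    exact h1 i (i - b) (fun e => b3 (by linear_combination -e)) this.1 this.2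

theorem exists_nxt {ι : Type} (N : ℕ) (τ : ι → ℕ) (hτ : ∀ i, τ i < N) (Y : Finset ι)
    (hY : 2 ≤ Y.card) :
    ∃ nxt : ι → ι, ∀ j ∈ Y, nxt j ∈ Y ∧ nxt j ≠ j ∧
      ∀ j' ∈ Y, ¬ sb (τ j) (τ j') (τ (nxt j)) := by
  classical
  have : ∀ j, ∃ k, j ∈ Y → k ∈ Y ∧ k ≠ j ∧ ∀ j' ∈ Y, ¬ sb (τ j) (τ j') (τ k) := by
    intro j
    by_cases hj : j ∈ Y
    · obtain ⟨k, hk, hmin⟩ := Finset.exists_min_image (Y.erase j) (fun i => dl N (τ j) (τ i))
        (Finset.card_pos.mp (by rw [Finset.card_erase_of_mem hj]; omega))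
      refine ⟨k, fun _ => ⟨(Finset.mem_erase.mp hk).2, (Finset.mem_erase.mp hk).1,
        fun j' hj' hs => ?_⟩⟩
      have h1 : j' ≠ j := fun h => (sb_ne hs).1 (by rw [h])
      have h2 := hmin j' (Finset.mem_erase.mpr ⟨h1, hj'⟩)
      have h3 := dl_lt_of_sb (hτ j') (hτ k) (hτ j) hs
      omega
    · exact ⟨j, fun h => absurd h hj⟩
  choose nxt h using this
  exact ⟨nxt, h⟩

end Pool.Agent.P.MP_f0827e_co
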