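import Mathlib

namespace Pool.Agent.P.MP_f0827e_co

/-- Replace the edge `uv` of `H` by a path of length two through the new vertex `none`. -/
def subdivide {V : Type} (H : SimpleGraph V) (u v : V) : SimpleGraph (Option V) where
  Adj
    | some x, some y => H.Adj x y ∧ s(x, y) ≠ s(u, v)
    | none, some y => y = u ∨ y = v
    | some x, none => x = u ∨ x = v
    | none, none => False
  symm := ⟨by
    rintro (_ | x) (_ | y) h
    · exact h
    · exact h
    · exact h
    · exact ⟨h.1.symm, by rw [Sym2.eq_swap]; exact h.2⟩⟩
  loopless := ⟨by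
    rintro (_ | x) h
    · exact h
    · exact H.irrefl h.1⟩

/-- The graphs obtained from `Y` by subdividing edges one after the other. -/
inductive IsSubdivision {W : Type} (Y : SimpleGraph W) : (V : Type) → SimpleGraph V → Prop
  | refl : IsSubdivision Y W Y
  | step {V : Type} {H : SimpleGraph V} {u v : V} :
      IsSubdivision Y V H → H.Adj u v → IsSubdivision Y (Option V) (subdivide H u v)

/-- `X` is the intersection graph of a family of connected subgraphs of a subdivision of `Y`. -/
def InClass {W α : Type} (Y : SimpleGraph W) (X : SimpleGraph α) : Prop :=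
  ∃ (V : Type) (H : SimpleGraph V), IsSubdivision Y V H ∧
    ∃ S : α → H.Subgraph, (∀ i, (S i).Connected) ∧
      ∀ i j, i ≠ j → (X.Adj i j ↔ ∃ v, v ∈ (S i).verts ∧ v ∈ (S j).verts)

/-- Every finite group is the automorphism group of a finite graph of the class of `Y`. -/
def Universal {W : Type} (Y : SimpleGraph W) : Prop :=
  ∀ (G : Type) [Group G] [Finite G],
    ∃ (α : Type) (_ : Finite α) (X : SimpleGraph α), InClass Y X ∧ Nonempty (G ≃* (X ≃g X))

end Pool.Agent.P.MP_f0827e_co
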