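import Mathlib
import Pool.Agent.P.MP_f0827e_co.Arith2

namespace Pool.Agent.P.MP_f0827e_co

open Function

/-- The geometric facts used by the counting argument. -/
structure Geo (V W : Type) (M : V → V → Prop) (Om : Set V) where
  has : V → V → Prop
  pend : V → Prop
  N : ℕ
  T : V → ℕ
  l : V → ℕ
  sg : V → W
  att : V → W → Prop
  IsMin : Set V → V → Prop
  M_iff : ∀ x y, M x y ↔ has x y ∨ has y x
  has_self : ∀ x, has x x
  has_M : ∀ x y y', has x y → has x y' → M y y'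
  T_lt : ∀ x, T x < N
  l_lt : ∀ x, l x < N
  has_iff : ∀ x ∈ Om, ∀ y ∈ Om, ¬ pend x → ¬ pend y → (has x y ↔ mem N (T x) (T y) (l y))
  has_np : ∀ x y, has x y → ¬ pend x → ¬ pend y
  kp : ∀ (ι : Type) (A : Finset ι) (x y : ι → V), (∀ c ∈ A, ∀ c' ∈ A, M (x c) (x c')) →
    (∀ c ∈ A, M (x c) (y c)) → (∀ c ∈ A, ∀ c' ∈ A, c ≠ c' → ¬ M (x c) (y c')) →
    A.card ≤ 4 * Nat.card W
  min_mem : ∀ Z x0, IsMin Z x0 → x0 ∈ Z
  min_has : ∀ Z x0, IsMin Z x0 → ∀ y ∈ Z, M y x0 → has x0 y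
  min_cls : ∀ Z x0, IsMin Z x0 → ∃ c : V → W × Bool, ∀ y y', has y x0 → has y' x0 → c y = c y' →
    (∀ x ∈ Z, has y x → has y' x) ∨ (∀ x ∈ Z, has y' x → has y x)
  min_pend : ∀ Z : Set V, Z.Finite → (∃ x ∈ Z, pend x) → ∃ x0, IsMin Z x0 ∧ pend x0
  min_miss : ∀ Z : Set V, Z.Finite → Z.Nonempty → Z ⊆ Om → (∀ x ∈ Z, ¬ pend x) →
    ∀ z ∈ Om, ¬ pend z → (∀ x ∈ Z, ¬ has z x) → ∃ x0, IsMin Z x0
  acyc_pend : ∀ x0 x y, pend x0 → has x0 x → has x y → has y x0 → has x0 y
  nest : ∀ y y', pend y → pend y' → sg y = sg y' →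
    (∀ x, ¬ pend x → M x y → M x y') ∨ (∀ x, ¬ pend x → M x y' → M x y)
  att_ex : ∀ x y, ¬ pend x → pend y → M x y → ∃ w, att x w
  att_M : ∀ x x' w, att x w → att x' w → M x x'

/-- A family of connected sets in a functional graph cut into segments. -/
structure Model (V P W : Type) where
  par : P → P
  seg : P → W
  pos : P → ℕ
  S : V → Set P
  t : V → P
  inj : ∀ u v, seg u = seg v → pos u = pos v → u = v
  fwd : ∀ u v, seg u = seg v → pos u < pos v → seg (par u) = seg u ∧ pos (par u) = pos u + 1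
  bwd : ∀ u, 0 < pos (par u) → seg u = seg (par u) ∧ pos u + 1 = pos (par u)
  tmem : ∀ x, t x ∈ S x
  flow : ∀ x u, u ∈ S x → ∃ k, par^[k] u = t x ∧ ∀ j ≤ k, par^[j] u ∈ S x

namespace Model

variable {V P W : Type} (m : Model V P W)

def Meet (x y : V) : Prop := ∃ u, u ∈ m.S x ∧ u ∈ m.S y

theorem meet_iff (x y : V) : m.Meet x y ↔ m.t x ∈ m.S y ∨ m.t y ∈ m.S x := by
  constructor
  · rintro ⟨u, hx, hy⟩
    obtain ⟨k, hk, hk'⟩ := m.flow x u hx
    obtain ⟨j, hj, hj'⟩ := m.flow y u hy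
    rcases le_total k j with h | h
    · left; rw [← hk]; exact hj' k h
    · right; rw [← hj]; exact hk' j h
  · rintro (h | h)
    · exact ⟨_, m.tmem x, h⟩
    · exact ⟨_, h, m.tmem y⟩

theorem seg_iter (a b : P) (h : m.seg a = m.seg b) (j : ℕ) (hj : m.pos a + j ≤ m.pos b) :
    m.seg (m.par^[j] a) = m.seg a ∧ m.pos (m.par^[j] a) = m.pos a + j := by
  induction j with
  | zero => simp
  | succ j ih =>
    obtain ⟨h1, h2⟩ := ih (by omega)
    rw [iterate_succ_apply']
    obtain ⟨h3, h4⟩ := m.fwd (m.par^[j] a) b (h1.trans h) (by omega)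
    exact ⟨h3.trans h1, by omega⟩

theorem seg_reach (a b : P) (h : m.seg a = m.seg b) (hj : m.pos a ≤ m.pos b) :
    m.par^[m.pos b - m.pos a] a = b := by
  obtain ⟨h1, h2⟩ := m.seg_iter a b h (m.pos b - m.pos a) (by omega)
  exact m.inj _ _ (h1.trans h) (by omega)

theorem confine (x : V) (p1 p2 p3 : P) (h12 : m.seg p1 = m.seg p2) (h23 : m.seg p2 = m.seg p3)
    (l12 : m.pos p1 < m.pos p2) (l23 : m.pos p2 < m.pos p3) (n1 : p1 ∉ m.S x) (i2 : p2 ∈ m.S x)
    (n3 : p3 ∉ m.S x) (u : P) (hu : u ∈ m.S x) :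
    m.pos p1 < m.pos u ∧ m.pos u < m.pos p3 := by
  obtain ⟨k, hk, hk'⟩ := m.flow x p2 i2
  have hkr : k < m.pos p3 - m.pos p2 := by
    by_contra hc
    apply n3
    rw [← m.seg_reach p2 p3 h23 l23.le]
    exact hk' _ (by omega)
  obtain ⟨h1, h2⟩ := m.seg_iter p2 p3 h23 k (by omega)
  rw [hk] at h1 h2
  have key : ∀ j (u : P), m.par^[j] u = m.t x → (∀ i ≤ j, m.par^[i] u ∈ m.S x) →
      m.seg u = m.seg p2 ∧ m.pos p1 < m.pos u ∧ m.pos u ≤ m.pos (m.t x) := by
    intro j
    induction j with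
    | zero =>
      intro u hu _
      simp only [iterate_zero, id_eq] at hu
      rw [hu]
      exact ⟨h1, by omega, le_rfl⟩
    | succ j ih =>
      intro u hu hu'
      rw [iterate_succ_apply] at hu
      obtain ⟨e1, e2, e3⟩ := ih (m.par u) hu (fun i hi => by
        have := hu' (i + 1) (by omega)
        rwa [iterate_succ_apply] at this)
      obtain ⟨e4, e5⟩ := m.bwd u (by omega)
      refine ⟨e4.trans e1, ?_, by omega⟩
      have hne : m.pos p1 ≠ m.pos u := by
        intro he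
        apply n1
        rw [m.inj p1 u (h12.trans (e4.trans e1).symm) he]
        simpa using hu' 0 (by omega)
      omega
  obtain ⟨j, hj, hj'⟩ := m.flow x u hu
  obtain ⟨_, e2, e3⟩ := key j u hj hj'
  exact ⟨e2, by omega⟩

theorem kp [Finite W] (ι : Type) (A : Finset ι) (x y : ι → V)
    (h1 : ∀ c ∈ A, ∀ c' ∈ A, m.Meet (x c) (x c'))
    (h2 : ∀ c ∈ A, m.Meet (x c) (y c))
    (h3 : ∀ c ∈ A, ∀ c' ∈ A, c ≠ c' → ¬ m.Meet (x c) (y c')) : A.card ≤ 4 * Nat.card W := by
  classical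
  by_contra hc
  push Not at hc
  have := Fintype.ofFinite W
  have hA : A.Nonempty := Finset.card_pos.mp (by omega)
  obtain ⟨c0, hc0⟩ := hA
  have hp : ∀ c, ∃ u : P, c ∈ A → u ∈ m.S (x c) ∧ u ∈ m.S (y c) := by
    intro c
    by_cases h : c ∈ A
    · obtain ⟨u, hu⟩ := h2 c h
      exact ⟨u, fun _ => hu⟩
    · exact ⟨m.t (x c0), fun h' => absurd h' h⟩
  choose p hp using hp
  have hpn : ∀ c ∈ A, ∀ c' ∈ A, c ≠ c' → p c' ∉ m.S (x c) := fun c hc c' hc' hne h =>
    h3 c hc c' hc' hne ⟨_, h, (hp c' hc').2⟩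
  obtain ⟨w, -, hw⟩ := Finset.exists_lt_card_fiber_of_mul_lt_card_of_maps_to
    (s := A) (t := (Finset.univ : Finset W)) (f := fun c => m.seg (p c)) (n := 4)
    (fun _ _ => Finset.mem_univ _) (by
      rw [Finset.card_univ, ← Nat.card_eq_fintype_card]; omega)
  set B := A.filter (fun c => m.seg (p c) = w) with hB
  have hBA : ∀ c ∈ B, c ∈ A ∧ m.seg (p c) = w := fun c hc => Finset.mem_filter.mp hc
  have hinj : Set.InjOn (fun c => m.pos (p c)) B := by
    intro c hc c' hc' he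
    by_contra hne
    have := m.inj (p c) (p c') ((hBA c hc).2.trans (hBA c' hc').2.symm) he
    apply hpn c (hBA c hc).1 c' (hBA c' hc').1 hne
    rw [← this]
    exact (hp c (hBA c hc).1).1
  have hcard : 5 ≤ (B.image (fun c => m.pos (p c))).card := by
    rw [Finset.card_image_of_injOn hinj]; omega
  let e := Finset.orderEmbOfCardLe _ hcard
  have he : ∀ i, ∃ c ∈ B, m.pos (p c) = e i := fun i => by
    have := Finset.orderEmbOfCardLe_mem _ hcard i
    simpa using this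
  choose c hcB hce using he
  have hlt : ∀ i j : Fin 5, i < j → m.pos (p (c i)) < m.pos (p (c j)) := fun i j hij => by
    rw [hce, hce]; exact e.strictMono hij
  have hne : ∀ i j : Fin 5, i < j → c i ≠ c j := fun i j hij h => by
    have := hlt i j hij
    rw [h] at this
    omega
  have hs : ∀ i j : Fin 5, m.seg (p (c i)) = m.seg (p (c j)) := fun i j =>
    (hBA _ (hcB i)).2.trans (hBA _ (hcB j)).2.symm
  have hA' : ∀ i, c i ∈ A := fun i => (hBA _ (hcB i)).1
  obtain ⟨u, hu1, hu3⟩ := h1 (c 1) (hA' 1) (c 3) (hA' 3)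
  have a1 := m.confine (x (c 1)) (p (c 0)) (p (c 1)) (p (c 2)) (hs _ _) (hs _ _)
    (hlt _ _ (by decide)) (hlt _ _ (by decide))
    (hpn _ (hA' 1) _ (hA' 0) (hne 0 1 (by decide)).symm) (hp _ (hA' 1)).1
    (hpn _ (hA' 1) _ (hA' 2) (hne 1 2 (by decide))) u hu1
  have a2 := m.confine (x (c 3)) (p (c 2)) (p (c 3)) (p (c 4)) (hs _ _) (hs _ _)
    (hlt _ _ (by decide)) (hlt _ _ (by decide))
    (hpn _ (hA' 3) _ (hA' 2) (hne 2 3 (by decide)).symm) (hp _ (hA' 3)).1
    (hpn _ (hA' 3) _ (hA' 4) (hne 3 4 (by decide))) u hu3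
  omega

def IsMin (Z : Set V) (x0 : V) : Prop :=
  x0 ∈ Z ∧ ∀ y ∈ Z, m.t y ∈ m.S x0 → m.t y = m.t x0

theorem cls_aux (Z : Set V) (x0 : V) (h : m.IsMin Z x0) (a b : P) (ha : a ∈ m.S x0)
    (hs : m.seg a = m.seg b) (hp : m.pos a ≤ m.pos b)
    (hc : (m.seg a = m.seg (m.t x0) ∧ m.pos (m.t x0) < m.pos a) ↔
      (m.seg b = m.seg (m.t x0) ∧ m.pos (m.t x0) < m.pos b))
    (x : V) (hx : x ∈ Z) (hax : a ∈ m.S x) : b ∈ m.S x := by
  obtain ⟨k, hk, hk'⟩ := m.flow x a hax
  obtain ⟨k0, hk0, hk0'⟩ := m.flow x0 a ha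
  by_cases hr : m.pos b - m.pos a ≤ k
  · rw [← m.seg_reach a b hs hp]; exact hk' _ hr
  · exfalso
    have key : ∀ j, j < m.pos b - m.pos a → m.par^[j] a ≠ m.t x0 := by
      intro j hj he
      obtain ⟨e1, e2⟩ := m.seg_iter a b hs j (by omega)
      rw [he] at e1 e2
      have := hc.mpr ⟨hs.symm.trans e1.symm, by omega⟩
      omega
    rcases le_total k k0 with hle | hle
    · have := h.2 x hx (by rw [← hk]; exact hk0' k hle)
      exact key k (by omega) (hk.trans this)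
    · exact key k0 (by omega) hk0

theorem per_iter {u : P} (h : u ∈ periodicPts m.par) (k : ℕ) :
    m.par^[k] u ∈ periodicPts m.par := by
  obtain ⟨n, hn, h⟩ := h
  exact ⟨n, hn, h.apply_iterate k⟩

theorem exists_per [Finite P] (u : P) : ∃ k, m.par^[k] u ∈ periodicPts m.par := by
  obtain ⟨i, j, hij, h⟩ := Finite.exists_ne_map_eq_of_infinite (fun n : ℕ => m.par^[n] u)
  wlog hlt : i < j generalizing i j
  · exact this j i hij.symm h.symm (by omega)
  refine ⟨i, j - i, by omega, ?_⟩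
  show m.par^[j - i] (m.par^[i] u) = m.par^[i] u
  rw [← iterate_add_apply, show j - i + i = j by omega]
  exact h.symm

theorem has_np (x y : V) (h : m.t x ∈ m.S y) (hx : m.t x ∈ periodicPts m.par) :
    m.t y ∈ periodicPts m.par := by
  obtain ⟨k, hk, -⟩ := m.flow y _ h
  rw [← hk]
  exact m.per_iter hx k

theorem min_pend [Finite P] (Z : Set V) (hZ : Z.Finite)
    (h : ∃ x ∈ Z, m.t x ∉ periodicPts m.par) :
    ∃ x0, m.IsMin Z x0 ∧ m.t x0 ∉ periodicPts m.par := by
  classical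
  let ht : P → ℕ := fun u => Nat.find (m.exists_per u)
  obtain ⟨x0, hx0, hmax⟩ := Set.exists_max_image {x | x ∈ Z ∧ m.t x ∉ periodicPts m.par}
    (fun x => ht (m.t x)) (hZ.subset fun x hx => hx.1) h
  refine ⟨x0, ⟨hx0.1, fun y hy hyx => ?_⟩, hx0.2⟩
  obtain ⟨k, hk, -⟩ := m.flow x0 _ hyx
  have hyp : m.t y ∉ periodicPts m.par := fun hp => hx0.2 (m.has_np y x0 hyx hp)
  have h1 := hmax y ⟨hy, hyp⟩
  have h2 : m.par^[ht (m.t y)] (m.t y) ∈ periodicPts m.par := Nat.find_spec (m.exists_per _)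
  have h3 : k ≤ ht (m.t y) := by
    by_contra hc
    apply hx0.2
    rw [← hk, show k = (k - ht (m.t y)) + ht (m.t y) by omega, iterate_add_apply]
    exact m.per_iter h2 _
  have h4 : ht (m.t x0) ≤ ht (m.t y) - k := by
    apply Nat.find_min'
    rw [← hk, ← iterate_add_apply, show ht (m.t y) - k + k = ht (m.t y) by omega]
    exact h2
  have : k = 0 := by omega
  subst this
  simpa using hk

theorem acyc_pend (x0 x y : V) (h0 : m.t x0 ∉ periodicPts m.par) (h1 : m.t x0 ∈ m.S x)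
    (h2 : m.t x ∈ m.S y) (h3 : m.t y ∈ m.S x0) : m.t x0 ∈ m.S y := by
  obtain ⟨k1, hk1, -⟩ := m.flow x _ h1
  obtain ⟨k2, hk2, -⟩ := m.flow y _ h2
  obtain ⟨k3, hk3, -⟩ := m.flow x0 _ h3
  have : k3 + (k2 + k1) = 0 := by
    by_contra hc
    apply h0
    refine ⟨k3 + (k2 + k1), by omega, ?_⟩
    show m.par^[k3 + (k2 + k1)] (m.t x0) = m.t x0
    rw [iterate_add_apply, iterate_add_apply, hk1, hk2, hk3]
  have h : k1 = 0 := by omega
  subst h
  simp only [iterate_zero, id_eq] at hk1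
  rw [hk1]; exact h2

theorem nest_aux (y y' : V) (hy : m.t y ∉ periodicPts m.par) (hy' : m.t y' ∉ periodicPts m.par)
    (hs : m.seg (m.t y) = m.seg (m.t y')) (hp : m.pos (m.t y) ≤ m.pos (m.t y'))
    (x : V) (hx : m.t x ∈ periodicPts m.par) (h : m.Meet x y) : m.Meet x y' := by
  rcases (m.meet_iff x y).mp h with h | h
  · exact absurd (m.has_np x y h hx) hy
  obtain ⟨k, hk, hk'⟩ := m.flow x _ h
  have hr := m.seg_reach _ _ hs hp
  by_cases hle : m.pos (m.t y') - m.pos (m.t y) ≤ k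
  · refine (m.meet_iff x y').mpr (Or.inr ?_)
    rw [← hr]; exact hk' _ hle
  · exfalso
    apply hy'
    rw [← hr, show m.pos (m.t y') - m.pos (m.t y) = (m.pos (m.t y') - m.pos (m.t y) - k) + k by
      omega, iterate_add_apply, hk]
    exact m.per_iter hx _

theorem att_ex (x y : V) (hx : m.t x ∈ periodicPts m.par) (hy : m.t y ∉ periodicPts m.par)
    (h : m.Meet x y) : ∃ b ∈ m.S x, m.pos b = 0 := by
  classical
  rcases (m.meet_iff x y).mp h with h | h
  · exact absurd (m.has_np x y h hx) hy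
  obtain ⟨k, hk, hk'⟩ := m.flow x _ h
  have hex : ∃ j, m.par^[j] (m.t y) ∈ periodicPts m.par := ⟨k, hk ▸ hx⟩
  have h1 := Nat.find_spec hex
  have h2 : Nat.find hex ≤ k := Nat.find_min' hex (hk ▸ hx)
  have h3 : Nat.find hex ≠ 0 := fun h0 => hy (by simpa [h0] using h1)
  obtain ⟨j, hj⟩ := Nat.exists_eq_succ_of_ne_zero h3
  have h4 : m.par^[j] (m.t y) ∉ periodicPts m.par := Nat.find_min hex (by omega)
  rw [hj] at h1 h2
  refine ⟨_, hk' _ h2, ?_⟩
  by_contra hpos
  obtain ⟨n, hn, hper⟩ := h1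
  set b := m.par^[j.succ] (m.t y) with hb
  have e1 : m.par (m.par^[j] (m.t y)) = b := by rw [hb, iterate_succ_apply']
  have e2 : m.par (m.par^[n - 1] b) = b := by
    rw [← iterate_succ_apply' m.par, show (n - 1).succ = n by omega]
    exact hper
  obtain ⟨a1, a2⟩ := m.bwd (m.par^[j] (m.t y)) (by rw [e1]; omega)
  obtain ⟨a3, a4⟩ := m.bwd (m.par^[n - 1] b) (by rw [e2]; omega)
  rw [e1] at a1 a2
  rw [e2] at a3 a4
  apply h4
  rw [m.inj _ _ (a1.trans a3.symm) (by omega)]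
  exact m.per_iter ⟨n, hn, hper⟩ _

theorem exists_coord (o : P) (ho : o ∈ periodicPts m.par) (u : P) (hu : u ∈ periodicPts m.par)
    (i j : ℕ) (h : m.par^[i] u = m.par^[j] o) :
    ∃ k, k < minimalPeriod m.par o ∧ m.par^[k] o = u := by
  obtain ⟨n, hn, hper⟩ := hu
  have h1 : m.par^[n * i] u = u := (hper.mul_const i)
  have h2 : m.par^[(n * i - i) + j] o = u := by
    rw [iterate_add_apply, ← h, ← iterate_add_apply]
    have : i ≤ n * i := Nat.le_mul_of_pos_left i hn
    rw [show n * i - i + i = n * i by omega]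
    exact h1
  refine ⟨((n * i - i) + j) % minimalPeriod m.par o,
    Nat.mod_lt _ (minimalPeriod_pos_of_mem_periodicPts ho), ?_⟩
  rw [iterate_mod_minimalPeriod_eq]
  exact h2

theorem iter_eq_iff (o : P) (ho : o ∈ periodicPts m.par) (i j : ℕ) :
    m.par^[i] o = m.par^[j] o ↔ i ≡ j [MOD minimalPeriod m.par o] := by
  have hN := minimalPeriod_pos_of_mem_periodicPts ho
  rw [← iterate_mod_minimalPeriod_eq (n := i), ← iterate_mod_minimalPeriod_eq (n := j)]
  exact iterate_eq_iterate_iff_of_lt_minimalPeriod (Nat.mod_lt _ hN) (Nat.mod_lt _ hN)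

open Classical in
/-- length of the arc -/
noncomputable def len (o : P) (T : ℕ) (y : V) : ℕ :=
  Nat.findGreatest (fun k => m.par^[T + minimalPeriod m.par o - k] o ∈ m.S y)
    (minimalPeriod m.par o - 1)

theorem mem_iff_len (o : P) (ho : o ∈ periodicPts m.par) (y : V) (T : ℕ)
    (hT : T < minimalPeriod m.par o) (hy : m.par^[T] o = m.t y) (k : ℕ)
    (hk : k < minimalPeriod m.par o) :
    m.par^[k] o ∈ m.S y ↔ mem (minimalPeriod m.par o) k T (m.len o T y) := by
  classical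
  set N := minimalPeriod m.par o with hN
  have hd : ∃ d, d < N ∧ m.par^[T + N - d] o = m.par^[k] o ∧
      ∀ l, (mem N k T l ↔ d ≤ l) := by
    by_cases h : k ≤ T
    · refine ⟨T - k, by omega, ?_, fun l => by unfold mem; omega⟩
      rw [m.iter_eq_iff o ho, show T + N - (T - k) = k + N by omega]
      exact Nat.add_modEq_right
    · refine ⟨T + N - k, by omega, ?_, fun l => by unfold mem; omega⟩
      rw [show T + N - (T + N - k) = k by omega]
  obtain ⟨d, hd1, hd2, hd3⟩ := hd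
  rw [hd3, ← hd2]
  constructor
  · intro h
    exact Nat.le_findGreatest (P := fun k => m.par^[T + N - k] o ∈ m.S y) (by omega) h
  · intro h
    have h0 : m.par^[T + N - 0] o ∈ m.S y := by
      have : m.par^[T + N - 0] o = m.par^[T] o := by
        rw [m.iter_eq_iff o ho, Nat.sub_zero]
        exact Nat.add_modEq_right
      rw [this, hy]; exact m.tmem y
    have h1 : m.par^[T + N - m.len o T y] o ∈ m.S y :=
      Nat.findGreatest_spec (P := fun k => m.par^[T + N - k] o ∈ m.S y) (Nat.zero_le _) h0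
    have hl : m.len o T y ≤ N - 1 := Nat.findGreatest_le _
    set l := m.len o T y
    obtain ⟨r, hr, hr'⟩ := m.flow y _ h1
    rw [← iterate_add_apply, ← hy, m.iter_eq_iff o ho] at hr
    have hrl : l ≤ r := by
      by_contra hc
      have h2 : r + (T + N - l) + (l - r) = T + N := by omega
      have h3 : (T + (l - r)) ≡ T + 0 [MOD N] := by
        have := hr.symm.add_right (l - r)
        rw [h2] at this
        exact this.trans Nat.add_modEq_right
      have h4 := (Nat.ModEq.add_left_cancel' T h3)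
      have := Nat.ModEq.eq_of_lt_of_lt h4 (by omega) (by omega)
      omega
    have := hr' (l - d) (by omega)
    rwa [← iterate_add_apply, show l - d + (T + N - l) = T + N - d by omega] at this

theorem exists_geo [Finite P] [Finite W] (Om : Set V) (a : P)
    (hOm : ∀ x ∈ Om, ∃ i j, m.par^[i] (m.t x) = m.par^[j] a) :
    Nonempty (Geo V W m.Meet Om) := by
  classical
  obtain ⟨k0, ho⟩ := m.exists_per a
  set o := m.par^[k0] a with hodef
  have hN := minimalPeriod_pos_of_mem_periodicPts ho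
  have hco : ∀ x, ∃ k, k < minimalPeriod m.par o ∧
      (x ∈ Om → m.t x ∈ periodicPts m.par → m.par^[k] o = m.t x) := by
    intro x
    by_cases h : x ∈ Om ∧ m.t x ∈ periodicPts m.par
    · obtain ⟨i, j, hij⟩ := hOm x h.1
      obtain ⟨k, hk, hk'⟩ := m.exists_coord o ho _ h.2 (k0 + i) j (by
        rw [hodef, iterate_add_apply, hij, ← iterate_add_apply, ← iterate_add_apply, add_comm])
      exact ⟨k, hk, fun _ _ => hk'⟩
    · exact ⟨0, hN, fun h1 h2 => absurd ⟨h1, h2⟩ h⟩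
  choose T hT hT' using hco
  have hiff : ∀ x ∈ Om, ∀ y ∈ Om, ¬ m.t x ∉ periodicPts m.par → ¬ m.t y ∉ periodicPts m.par →
      (m.t x ∈ m.S y ↔ mem (minimalPeriod m.par o) (T x) (T y) (m.len o (T y) y)) := by
    intro x hx y hy h1 h2
    rw [← hT' x hx (not_not.mp h1)]
    exact m.mem_iff_len o ho y (T y) (hT y) (hT' y hy (not_not.mp h2)) _ (hT x)
  refine ⟨{
    has := fun x y => m.t x ∈ m.S y
    pend := fun x => m.t x ∉ periodicPts m.par
    N := minimalPeriod m.par o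
    T := T
    l := fun y => m.len o (T y) y
    sg := fun y => m.seg (m.t y)
    att := fun x w => ∃ b ∈ m.S x, m.seg b = w ∧ m.pos b = 0
    IsMin := m.IsMin
    M_iff := m.meet_iff
    has_self := m.tmem
    has_M := fun x y y' h h' => ⟨_, h, h'⟩
    T_lt := hT
    l_lt := fun x => lt_of_le_of_lt (Nat.findGreatest_le _) (by omega)
    has_iff := hiff
    has_np := fun x y h hx hy => hy (m.has_np x y h (not_not.mp hx))
    kp := m.kp
    min_mem := fun Z x0 h => h.1
    min_has := ?_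
    min_cls := ?_
    min_pend := m.min_pend
    min_miss := ?_
    acyc_pend := m.acyc_pend
    nest := ?_
    att_ex := ?_
    att_M := ?_ }⟩
  · intro Z x0 h y hy hm
    rcases (m.meet_iff y x0).mp hm with h' | h'
    · rw [← h.2 y hy h']; exact m.tmem y
    · exact h'
  · intro Z x0 h
    refine ⟨fun y => (m.seg (m.t y),
      decide (m.seg (m.t y) = m.seg (m.t x0) ∧ m.pos (m.t x0) < m.pos (m.t y))), ?_⟩
    intro y y' hy hy' hc
    simp only [Prod.mk.injEq, decide_eq_decide] at hc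
    rcases le_total (m.pos (m.t y)) (m.pos (m.t y')) with hle | hle
    · left
      exact fun x hx => m.cls_aux Z x0 h _ _ hy hc.1 hle hc.2 x hx
    · right
      exact fun x hx => m.cls_aux Z x0 h _ _ hy' hc.1.symm hle hc.2.symm x hx
  · intro Z hZ hne hsub hnp z hz hzp hmiss
    obtain ⟨x0, hx0, hmin⟩ := Set.exists_min_image Z
      (fun x => dl (minimalPeriod m.par o) (T z) (T x)) hZ hne
    refine ⟨x0, hx0, fun y hy hyx => ?_⟩
    have h1 := (hiff y (hsub hy) x0 (hsub hx0) (hnp y hy) (hnp x0 hx0)).mp hyx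
    have h2 := fun h => hmiss x0 hx0 ((hiff z hz x0 (hsub hx0) hzp (hnp x0 hx0)).mpr h)
    have h3 := dl_lt_of_mem (hT x0) (hT y) (hT z) h1 h2 (hmin y hy)
    rw [← hT' y (hsub hy) (not_not.mp (hnp y hy)), ← hT' x0 (hsub hx0) (not_not.mp (hnp x0 hx0)),
      h3]
  · intro y y' hy hy' hs
    rcases le_total (m.pos (m.t y)) (m.pos (m.t y')) with hle | hle
    · left
      exact fun x hx => m.nest_aux y y' hy hy' hs hle x (not_not.mp hx)
    · right
      exact fun x hx => m.nest_aux y' y hy' hy hs.symm hle x (not_not.mp hx)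
  · intro x y hx hy h
    obtain ⟨b, hb, hb'⟩ := m.att_ex x y (not_not.mp hx) hy h
    exact ⟨_, b, hb, rfl, hb'⟩
  · rintro x x' w ⟨b, hb, h1, h2⟩ ⟨b', hb', h3, h4⟩
    have := m.inj b b' (h1.trans h3.symm) (h2.trans h4.symm)
    exact ⟨b, hb, this ▸ hb'⟩

end Model

end Pool.Agent.P.MP_f0827e_co
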