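import Mathlib
import Pool.Agent.P.MP_f0827e_co.Model
import Pool.Agent.P.MP_f0827e_co.Cyc

set_option linter.unusedSectionVars false

namespace Pool.Agent.P.MP_f0827e_co

/-- A free action of `ZMod q` on a family of connected sets. -/
structure Setup (V W : Type) (q : ℕ) where
  M : V → V → Prop
  Om : Set V
  T : ZMod q → V → V
  G : Geo V W M Om
  T_add : ∀ i j x, T (i + j) x = T i (T j x)
  T_zero : ∀ x, T 0 x = x
  T_M : ∀ i x y, M (T i x) (T i y) ↔ M x y
  T_Om : ∀ i, ∀ x ∈ Om, T i x ∈ Om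
  free : ∀ i, ∀ x ∈ Om, T i x = x → i = 0
  big : 200 * (Nat.card W + 1) ^ 3 < q

namespace Setup

variable {V W : Type} {q : ℕ} [Fact q.Prime] (s : Setup V W q)

include s in
theorem big1 : 200 * (Nat.card W + 1) < q := by
  have h := s.big
  have : Nat.card W + 1 ≤ (Nat.card W + 1) ^ 3 := Nat.le_self_pow (by norm_num) _
  omega

theorem M_symm {x y : V} (h : s.M x y) : s.M y x := by
  rw [s.G.M_iff] at *; exact h.symm

theorem M_comm {x y : V} : s.M x y ↔ s.M y x := ⟨s.M_symm, s.M_symm⟩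

theorem M_refl (x : V) : s.M x x := by
  rw [s.G.M_iff]; exact Or.inl (s.G.has_self x)

theorem M_of_has {x y : V} (h : s.G.has x y) : s.M x y := (s.G.M_iff x y).mpr (Or.inl h)

theorem TT (i j : ZMod q) (x : V) : s.T i (s.T j x) = s.T (i + j) x := (s.T_add i j x).symm

theorem M_TT (i j : ZMod q) (x y : V) : s.M (s.T i x) (s.T j y) ↔ s.M (s.T (i - j) x) y := by
  rw [← s.T_M (-j), s.TT, s.TT, neg_add_cancel, s.T_zero, show -j + i = i - j by ring]

theorem M_T (j : ZMod q) (x y : V) : s.M x (s.T j y) ↔ s.M (s.T (-j) x) y := by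
  have := s.M_TT 0 j x y
  rwa [s.T_zero, zero_sub] at this

theorem T_inj {x : V} (hx : x ∈ s.Om) {i j : ZMod q} (h : s.T i x = s.T j x) : i = j := by
  have : s.T (-j + i) x = x := by rw [← s.TT, h, s.TT, neg_add_cancel, s.T_zero]
  have := s.free _ x hx this
  linear_combination this

def IsI (x : V) : Prop := ∀ i, s.M (s.T i x) x → i = 0
def Emp (x y : V) : Prop := ∀ i, ¬ s.M (s.T i x) y
def Ful (x y : V) : Prop := ∀ i, s.M (s.T i x) y
def IsK (x : V) : Prop := s.Ful x x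
def Non (x y : V) : Prop := ¬ s.Emp x y ∧ ¬ s.Ful x y
def Mat (x y : V) : Prop := ∀ i, s.M (s.T i x) y ↔ i = 0
def CoM (x y : V) : Prop := ∀ i, s.M (s.T i x) y ↔ i ≠ 0
def Thick (x y : V) : Prop :=
  (∃ i j, i ≠ j ∧ s.M (s.T i x) y ∧ s.M (s.T j x) y) ∧
    (∃ i j, i ≠ j ∧ ¬ s.M (s.T i x) y ∧ ¬ s.M (s.T j x) y)
def orb (x : V) : Set V := Set.range fun i => s.T i x
def NP (x : V) : Prop := ∀ i, ¬ s.G.pend (s.T i x)

variable {s}

theorem M_swap (i : ZMod q) (x y : V) : s.M (s.T i x) y ↔ s.M (s.T (-i) y) x := by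
  rw [s.M_comm, s.M_T]

theorem Emp.all {x y : V} (h : s.Emp x y) (i j : ZMod q) : ¬ s.M (s.T i x) (s.T j y) := by
  rw [s.M_TT]; exact h _

theorem Ful.all {x y : V} (h : s.Ful x y) (i j : ZMod q) : s.M (s.T i x) (s.T j y) := by
  rw [s.M_TT]; exact h _

theorem IsI.all {x : V} (h : s.IsI x) {i j : ZMod q} (hm : s.M (s.T i x) (s.T j x)) : i = j := by
  rw [s.M_TT] at hm
  exact sub_eq_zero.mp (h _ hm)

theorem Mat.all {x y : V} (h : s.Mat x y) (i j : ZMod q) : s.M (s.T i x) (s.T j y) ↔ i = j := by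
  rw [s.M_TT, h, sub_eq_zero]

theorem CoM.all {x y : V} (h : s.CoM x y) (i j : ZMod q) : s.M (s.T i x) (s.T j y) ↔ i ≠ j := by
  rw [s.M_TT, h, sub_ne_zero]

theorem Emp.symm {x y : V} (h : s.Emp x y) : s.Emp y x := fun i hm => h _ ((M_swap _ _ _).mp hm)
theorem Ful.symm {x y : V} (h : s.Ful x y) : s.Ful y x := fun i => (M_swap _ _ _).mpr (h _)
theorem Non.symm {x y : V} (h : s.Non x y) : s.Non y x :=
  ⟨fun e => h.1 e.symm, fun e => h.2 e.symm⟩
theorem Mat.symm {x y : V} (h : s.Mat x y) : s.Mat y x := fun i => by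
  rw [M_swap, h, neg_eq_zero]
theorem CoM.symm {x y : V} (h : s.CoM x y) : s.CoM y x := fun i => by
  rw [M_swap, h, neg_ne_zero]
theorem Thick.symm {x y : V} (h : s.Thick x y) : s.Thick y x := by
  obtain ⟨⟨i, j, hij, hi, hj⟩, ⟨i', j', hij', hi', hj'⟩⟩ := h
  refine ⟨⟨-i, -j, by simpa using hij, (M_swap _ _ _).mp hi, (M_swap _ _ _).mp hj⟩,
    ⟨-i', -j', by simpa using hij', fun h => hi' ((M_swap _ _ _).mpr h),
      fun h => hj' ((M_swap _ _ _).mpr h)⟩⟩

theorem Thick.non {x y : V} (h : s.Thick x y) : s.Non x y := by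
  obtain ⟨⟨i, j, hij, hi, hj⟩, ⟨i', j', hij', hi', hj'⟩⟩ := h
  exact ⟨fun e => e _ hi, fun e => hi' (e _)⟩

theorem Mat.non {x y : V} (h : s.Mat x y) : s.Non x y :=
  ⟨fun e => e 0 ((h 0).mpr rfl), fun e => one_ne_zero ((h 1).mp (e 1))⟩

theorem CoM.non {x y : V} (h : s.CoM x y) : s.Non x y :=
  ⟨fun e => e 1 ((h 1).mpr one_ne_zero), fun e => (h 0).mp (e 0) rfl⟩

theorem emp_shift {x y : V} {a b : ZMod q} : s.Emp (s.T a x) (s.T b y) ↔ s.Emp x y := by
  constructor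
  · intro h i
    have := h (i + b - a)
    rwa [s.TT, s.M_TT, show i + b - a + a - b = i by ring] at this
  · intro h i
    rw [s.TT]; exact h.all _ _

theorem ful_shift {x y : V} {a b : ZMod q} : s.Ful (s.T a x) (s.T b y) ↔ s.Ful x y := by
  constructor
  · intro h i
    have := h (i + b - a)
    rwa [s.TT, s.M_TT, show i + b - a + a - b = i by ring] at this
  · intro h i
    rw [s.TT]; exact h.all _ _

theorem isK_shift {x : V} {a : ZMod q} : s.IsK (s.T a x) ↔ s.IsK x := ful_shift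

theorem isI_shift {x : V} {a : ZMod q} : s.IsI (s.T a x) ↔ s.IsI x := by
  unfold IsI
  refine forall_congr' fun i => ?_
  rw [s.TT, s.M_TT, add_sub_cancel_right]

theorem np_shift {x : V} (h : s.NP x) (a : ZMod q) : s.NP (s.T a x) := fun i => by
  rw [s.TT]; exact h _

theorem mat_shift {x y : V} (h : s.Mat x y) (a : ZMod q) : s.Mat (s.T a x) (s.T a y) := fun i => by
  rw [s.TT, h.all]; simp

theorem com_shift {x y : V} (h : s.CoM x y) (a : ZMod q) : s.CoM (s.T a x) (s.T a y) := fun i => by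
  rw [s.TT, h.all]; simp

theorem IsK.not_isI {x : V} (h : s.IsK x) : ¬ s.IsI x := fun e => one_ne_zero (e 1 (h 1))

theorem Non.wit {x y : V} (h : s.Non x y) {i j : ZMod q} (hij : i ≠ j) :
    ∃ k, s.M (s.T k x) (s.T i y) ∧ ¬ s.M (s.T k x) (s.T j y) := by
  by_contra hc
  push Not at hc
  obtain ⟨h1, h2⟩ := h
  unfold Emp at h1
  push Not at h1
  obtain ⟨u, hu⟩ := h1
  apply h2
  refine aper (fun u => s.M (s.T u x) y) (i - j) (sub_ne_zero.mpr hij) (fun v hv => ?_) u hu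
  have := hc (v + i) (by rwa [s.M_TT, add_sub_cancel_right])
  rwa [s.M_TT, add_sub_assoc] at this

theorem two_col {z z' y : V} (h : ¬ s.M z z') (h1 : s.M y z) (h2 : s.M y z') :
    s.G.has z y ∨ s.G.has z' y := by
  rcases (s.G.M_iff _ _).mp h1 with a | a
  · rcases (s.G.M_iff _ _).mp h2 with b | b
    · exact absurd (s.G.has_M _ _ _ a b) h
    · exact Or.inr b
  · exact Or.inl a

theorem k23 {z z' y1 y2 y3 : V} (h : ¬ s.M z z') (a1 : s.M y1 z) (a2 : s.M y1 z')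
    (b1 : s.M y2 z) (b2 : s.M y2 z') (c1 : s.M y3 z) (c2 : s.M y3 z')
    (n12 : ¬ s.M y1 y2) (n13 : ¬ s.M y1 y3) (n23 : ¬ s.M y2 y3) : False := by
  rcases two_col h a1 a2 with a | a <;> rcases two_col h b1 b2 with b | b <;>
    rcases two_col h c1 c2 with c | c <;>
    first
      | exact n12 (s.G.has_M _ _ _ a b)
      | exact n13 (s.G.has_M _ _ _ a c)
      | exact n23 (s.G.has_M _ _ _ b c)

theorem cast_ne (s : Setup V W q) {a b : ℕ} (ha : a < 200) (hb : b < 200) (hab : a ≠ b) :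
    (a : ZMod q) ≠ (b : ZMod q) := by
  have := s.big1
  intro h
  have h2 := congrArg ZMod.val h
  rw [ZMod.val_natCast_of_lt (by omega), ZMod.val_natCast_of_lt (by omega)] at h2
  exact hab h2

/-- two independent orbits are not almost completely joined -/
theorem II_aux {x y : V} (hx : s.IsI x) (hy : s.IsI y)
    (h : ∀ i j, i ≠ j → s.M (s.T i x) (s.T j y)) : False := by
  have e := fun a b ha hb hab => s.cast_ne (a := a) (b := b) ha hb hab
  refine k23 (s := s) (z := s.T (1 : ℕ) y) (z' := s.T (2 : ℕ) y) (y1 := s.T (3 : ℕ) x)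
    (y2 := s.T (4 : ℕ) x) (y3 := s.T (5 : ℕ) x) (fun m => ?_) (h _ _ ?_) (h _ _ ?_) (h _ _ ?_)
    (h _ _ ?_) (h _ _ ?_) (h _ _ ?_) (fun m => ?_) (fun m => ?_) (fun m => ?_)
  · exact e _ _ (by norm_num) (by norm_num) (by norm_num) (hy.all m)
  all_goals first
    | exact e _ _ (by norm_num) (by norm_num) (by norm_num)
    | exact e _ _ (by norm_num) (by norm_num) (by norm_num) (hx.all m)

theorem II_not_ful {x y : V} (hx : s.IsI x) (hy : s.IsI y) : ¬ s.Ful x y :=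
  fun h => II_aux hx hy fun i j _ => h.all i j

theorem II_not_com {x y : V} (hx : s.IsI x) (hy : s.IsI y) : ¬ s.CoM x y :=
  fun h => II_aux hx hy fun i j hij => (h.all i j).mpr hij

/-- a clique orbit has no small non-empty neighbourhood -/
theorem kp' {x y : V} (hx : s.IsK x) (D : Finset (ZMod q)) (hD : ∀ i, i ∈ D ↔ s.M (s.T i x) y)
    (hne : D.Nonempty) (hc : D.card ≤ 2 * Nat.card W + 3) : False := by
  obtain ⟨A, hA, hA'⟩ := packing D hne
  obtain ⟨u, hu⟩ := hne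
  have := s.G.kp _ A (fun c => s.T (u + c) x) (fun c => s.T c y)
    (fun c _ c' _ => Ful.all hx _ _)
    (fun c _ => by rw [s.M_TT, add_sub_cancel_right]; exact (hD u).mp hu)
    (fun c hc c' hc' hne hm => by
      rw [s.M_TT, ← hD] at hm
      exact hne (hA' c hc c' hc' u hu _ hm (by ring)))
  have h1 := s.big
  have h2 : A.card * (D.card * D.card) ≤
      (4 * Nat.card W) * ((2 * Nat.card W + 3) * (2 * Nat.card W + 3)) :=
    Nat.mul_le_mul this (Nat.mul_le_mul hc hc)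
  have h3 : (4 * Nat.card W) * ((2 * Nat.card W + 3) * (2 * Nat.card W + 3)) ≤
      200 * (Nat.card W + 1) ^ 3 := by
    generalize Nat.card W = n
    nlinarith [Nat.zero_le n, Nat.zero_le (n * n), Nat.zero_le (n * n * n)]
  omega

theorem K_not_mat {x y : V} (hx : s.IsK x) : ¬ s.Mat x y := fun h =>
  kp' hx {0} (fun i => by rw [h]; simp) (by simp) (by simp)

theorem orb_fin (x : V) : (s.orb x).Finite := by
  have : NeZero q := ⟨(Fact.out : q.Prime).ne_zero⟩
  exact Set.finite_range _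

theorem min_N {x x0 : V} (h : s.G.IsMin (s.orb x) x0) : s.IsI x ∨ s.IsK x := by
  obtain ⟨c, rfl⟩ := s.G.min_mem _ _ h
  by_cases hI : s.IsI x
  · exact Or.inl hI
  right
  unfold IsI at hI
  push Not at hI
  obtain ⟨i, hi, hi0⟩ := hI
  have key : ∀ u, s.M (s.T u x) x → s.G.has (s.T c x) (s.T (u + c) x) := fun u hu =>
    s.G.min_has _ _ h _ ⟨_, rfl⟩ (by rwa [s.M_TT, add_sub_cancel_right])
  refine aper (fun u => s.M (s.T u x) x) (-i) (neg_ne_zero.mpr hi0) (fun v hv => ?_) i hi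
  have := s.G.has_M _ _ _ (key v hv) (key i hi)
  rwa [s.M_TT, show v + c - (i + c) = v + -i by ring] at this

variable [Finite W]

theorem min_K {x y x0 : V} (h : s.G.IsMin (s.orb x) x0) (hx : s.IsK x) (hn : s.Non x y)
    (H : ∀ i j, s.G.has (s.T i x) (s.T j y) → s.G.has (s.T j y) x0 → s.G.has x0 (s.T j y)) :
    False := by
  classical
  have : NeZero q := ⟨(Fact.out : q.Prime).ne_zero⟩
  have := Fintype.ofFinite W
  obtain ⟨c, hc⟩ := s.G.min_mem _ _ h
  dsimp only at hc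
  obtain ⟨cl, hcl⟩ := s.G.min_cls _ _ h
  have h0 : ∀ i, s.G.has x0 (s.T i x) := fun i =>
    s.G.min_has _ _ h _ ⟨_, rfl⟩ (by rw [← hc]; exact Ful.all hx _ _)
  have h1 : ∀ j, ¬ s.G.has x0 (s.T j y) := fun j hj => hn.2 fun i => by
    have := s.G.has_M _ _ _ (h0 (i + j)) hj
    rwa [s.M_TT, add_sub_cancel_right] at this
  let D : Finset (ZMod q) := Finset.univ.filter fun i => s.M (s.T i x) y
  have h2 : ∀ i ∈ D, s.G.has (s.T (c - i) y) x0 := fun i hi => by
    have e : s.M x0 (s.T (c - i) y) := by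
      rw [← hc, s.M_TT, sub_sub_cancel]; exact (Finset.mem_filter.mp hi).2
    exact ((s.G.M_iff _ _).mp e).resolve_left (h1 _)
  have h3 : ∀ j j', s.G.has (s.T j y) x0 →
      (∀ a ∈ s.orb x, s.G.has (s.T j y) a → s.G.has (s.T j' y) a) → j = j' := by
    intro j j' hj hh
    by_contra hne
    obtain ⟨k, hk1, hk2⟩ := hn.wit hne
    rcases (s.G.M_iff _ _).mp hk1 with e | e
    · exact h1 _ (H _ _ e hj)
    · exact hk2 (s.M_symm (s.M_of_has (hh _ ⟨_, rfl⟩ e)))
  have h4 : D.card ≤ (Finset.univ : Finset (W × Bool)).card := by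
    refine Finset.card_le_card_of_injOn (fun i => cl (s.T (c - i) y)) (fun _ _ => by simp) ?_
    intro i hi i' hi' he
    rcases hcl _ _ (h2 i hi) (h2 i' hi') he with e | e
    · have := h3 _ _ (h2 i hi) e
      linear_combination -this
    · have := h3 _ _ (h2 i' hi') e
      linear_combination this
  rw [Finset.card_univ, Fintype.card_prod, Fintype.card_bool, ← Nat.card_eq_fintype_card] at h4
  refine kp' (y := y) hx D (fun i => by simp [D]) ?_ (by omega)
  have := hn.1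
  unfold Emp at this
  push Not at this
  obtain ⟨i, hi⟩ := this
  exact ⟨i, by simpa [D] using hi⟩

theorem nonI_np {x y : V} (hI : ¬ s.IsI x) (hn : s.Non x y) : s.NP x := by
  intro i hi
  obtain ⟨x0, h0, hp⟩ := s.G.min_pend _ (orb_fin x) ⟨_, ⟨i, rfl⟩, hi⟩
  have hK := (min_N h0).resolve_left hI
  obtain ⟨c, hc⟩ := s.G.min_mem _ _ h0
  dsimp only at hc
  refine min_K h0 hK hn fun i j e1 e2 => s.G.acyc_pend _ _ _ hp ?_ e1 e2
  exact s.G.min_has _ _ h0 _ ⟨_, rfl⟩ (by rw [← hc]; exact Ful.all hK _ _)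

/-- a non independent orbit and its partner cannot both miss a point of the cycle -/
theorem nonI_miss {x y z : V} (hx : x ∈ s.Om) (hy : y ∈ s.Om) (hz : z ∈ s.Om) (hI : ¬ s.IsI x)
    (hn : s.Non x y) (hzp : ¬ s.G.pend z) (h1 : ∀ i, ¬ s.G.has z (s.T i x))
    (h2 : ∀ i, ¬ s.G.has z (s.T i y)) : False := by
  have hnp := nonI_np hI hn
  obtain ⟨x0, h0⟩ := s.G.min_miss _ (orb_fin x) ⟨_, ⟨0, rfl⟩⟩
    (by rintro _ ⟨i, rfl⟩; exact s.T_Om _ _ hx) (by rintro _ ⟨i, rfl⟩; exact hnp i) z hz hzp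
    (by rintro _ ⟨i, rfl⟩; exact h1 i)
  have hK := (min_N h0).resolve_left hI
  obtain ⟨c, hc⟩ := s.G.min_mem _ _ h0
  dsimp only at hc
  refine min_K h0 hK hn fun i j e1 e2 => ?_
  have e0 : s.G.has x0 (s.T i x) :=
    s.G.min_has _ _ h0 _ ⟨_, rfl⟩ (by rw [← hc]; exact Ful.all hK _ _)
  subst hc
  have p1 := hnp c
  have p2 := hnp i
  have p3 := s.G.has_np _ _ e1 p2
  have o1 := s.T_Om c _ hx
  have o2 := s.T_Om i _ hx
  have o3 := s.T_Om j _ hy
  rw [s.G.has_iff _ o1 _ o3 p1 p3]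
  exact acyc_arith (s.G.T_lt _) (s.G.T_lt _) (s.G.T_lt _) (s.G.T_lt z)
    ((s.G.has_iff _ o1 _ o2 p1 p2).mp e0) ((s.G.has_iff _ o2 _ o3 p2 p3).mp e1)
    ((s.G.has_iff _ o3 _ o1 p3 p1).mp e2)
    (fun h => h1 c ((s.G.has_iff _ hz _ o1 hzp p1).mpr h))
    (fun h => h1 i ((s.G.has_iff _ hz _ o2 hzp p2).mpr h))
    (fun h => h2 j ((s.G.has_iff _ hz _ o3 hzp p3).mpr h))

/-- few pendant members -/
def Few (s : Setup V W q) (C : ℕ) (y : V) : Prop :=
  ∃ E : Finset (ZMod q), E.card ≤ C ∧ ∀ j, s.G.pend (s.T j y) → j ∈ E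

theorem few_of_np {x y : V} (hx : s.NP x) (hn : s.Non x y) : s.Few (Nat.card W) y := by
  classical
  have : NeZero q := ⟨(Fact.out : q.Prime).ne_zero⟩
  have := Fintype.ofFinite W
  refine ⟨Finset.univ.filter fun j => s.G.pend (s.T j y), ?_, fun j hj => by simpa using hj⟩
  rw [Nat.card_eq_fintype_card, ← Finset.card_univ]
  refine Finset.card_le_card_of_injOn (fun j => s.G.sg (s.T j y)) (fun _ _ => by simp) ?_
  intro j hj j' hj' he
  by_contra hne
  rcases s.G.nest _ _ (Finset.mem_filter.mp hj).2 (Finset.mem_filter.mp hj').2 he with e | e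
  · obtain ⟨k, h1, h2⟩ := hn.wit hne
    exact h2 (e _ (hx k) h1)
  · obtain ⟨k, h1, h2⟩ := hn.wit (Ne.symm hne)
    exact h2 (e _ (hx k) h1)

omit [Finite W] in
theorem NP.few {x : V} (hx : s.NP x) (C : ℕ) : s.Few C x :=
  ⟨∅, by simp, fun j hj => absurd hj (hx j)⟩

omit [Finite W] in
theorem Few.exists_np {C : ℕ} {x : V} (hx : s.Few C x) (hC : C < q) :
    ∃ i, ¬ s.G.pend (s.T i x) := by
  obtain ⟨E, hE, hE'⟩ := hx
  obtain ⟨i, hi⟩ := exists_avoid E {0} (by simp; omega)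
  exact ⟨i, fun h => hi 0 (by simp) (by simpa using hE' i h)⟩

omit [Finite W] in
theorem II_min {x y x0 : V} (hx : s.IsI x) (hy : s.IsI y) (ht : s.Thick x y)
    (h : s.G.IsMin (s.orb x ∪ s.orb y) x0) : False := by
  have aux : ∀ x y, s.IsI x → s.Thick x y → ∀ Z, s.orb x ⊆ Z → ∀ c, s.G.IsMin Z (s.T c y) →
      False := by
    intro x y hx ht Z hZ c h
    obtain ⟨⟨i, j, hij, hi, hj⟩, -⟩ := ht
    have e1 := s.G.min_has _ _ h (s.T (i + c) x) (hZ ⟨_, rfl⟩)
      (by rwa [s.M_TT, add_sub_cancel_right])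
    have e2 := s.G.min_has _ _ h (s.T (j + c) x) (hZ ⟨_, rfl⟩)
      (by rwa [s.M_TT, add_sub_cancel_right])
    exact hij (add_right_cancel (hx.all (s.G.has_M _ _ _ e1 e2)))
  rcases s.G.min_mem _ _ h with ⟨c, rfl⟩ | ⟨c, rfl⟩
  · exact aux y x hy ht.symm _ Set.subset_union_right c h
  · exact aux x y hx ht _ Set.subset_union_left c h

omit [Finite W] in
theorem II_np {x y : V} (hx : s.IsI x) (hy : s.IsI y) (ht : s.Thick x y) : s.NP x := by
  intro i hi
  obtain ⟨x0, h0, -⟩ := s.G.min_pend _ ((orb_fin (s := s) x).union (orb_fin (s := s) y))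
    ⟨_, Or.inl ⟨i, rfl⟩, hi⟩
  exact II_min hx hy ht h0

end Setup

end Pool.Agent.P.MP_f0827e_co
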