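import Mathlib
import Pool.Agent.P.MP_f0827e_co.Main1

set_option linter.unusedSectionVars false

namespace Pool.Agent.P.MP_f0827e_co

theorem Good.transfer {q : ℕ} [Fact q.Prime] {f g : ZMod q → ℕ} {b : ZMod q}
    {E : Finset (ZMod q)} (hg : Good g b E) (hE : E.card + 2 < q)
    (h : ∀ i j k, i ∉ E → j ∉ E → k ∉ E → i ≠ j → j ≠ k → i ≠ k →
      sb (g i) (g j) (g k) → sb (f i) (f j) (f k)) : Good f b E := by
  classical
  have tot : ∀ i j k, i ∉ E → j ∉ E → k ∉ E → i ≠ j → j ≠ k → i ≠ k →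
      sb (g i) (g j) (g k) ∨ sb (g i) (g k) (g j) := fun i j k hi hj hk a b c =>
    sb_total (fun e => a (hg.1 _ _ hi hj e)) (fun e => b (hg.1 _ _ hj hk e))
      (fun e => c (hg.1 _ _ hi hk e))
  have conv : ∀ i j k, i ∉ E → j ∉ E → k ∉ E → sb (f i) (f j) (f k) → sb (g i) (g j) (g k) := by
    intro i j k hi hj hk hs
    obtain ⟨a, b, c⟩ := sb_ne hs
    have a' : i ≠ j := fun e => a (by rw [e])
    have b' : j ≠ k := fun e => b (by rw [e])
    have c' : i ≠ k := fun e => c (by rw [e])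
    rcases tot i j k hi hj hk a' b' c' with e | e
    · exact e
    · exact absurd (h _ _ _ hi hk hj c' b'.symm a' e) (sb_asymm hs)
  refine ⟨fun i j hi hj he => ?_, fun i z1 z2 h1 h2 h3 h4 h5 h6 h7 h8 =>
    hg.2 i z1 z2 h1 h2 h3 h4 h5 h6 (conv _ _ _ h1 h3 h2 h7) (conv _ _ _ h2 h4 h1 h8)⟩
  by_contra hne
  obtain ⟨k, hk⟩ := exists_avoid (insert i (insert j E)) {0} (by
    have := Finset.card_insert_le i (insert j E)
    have := Finset.card_insert_le j E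
    simp only [Finset.card_singleton]
    omega)
  have hk' := hk 0 (by simp)
  simp only [add_zero, Finset.mem_insert, not_or] at hk'
  rcases tot i j k hi hj hk'.2.2 hne (Ne.symm hk'.2.1) (Ne.symm hk'.1) with e | e
  · exact (sb_ne (h _ _ _ hi hj hk'.2.2 hne (Ne.symm hk'.2.1) (Ne.symm hk'.1) e)).1 he
  · exact (sb_ne (h _ _ _ hi hk'.2.2 hj (Ne.symm hk'.1) hk'.2.1 hne e)).2.2 he

namespace Setup

variable {V W : Type} {q : ℕ} [Fact q.Prime] {s : Setup V W q}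

def OK (s : Setup V W q) (a : V) : Prop := a ∈ s.Om ∧ ¬ s.G.pend a

/-- the last point of `a` is on the arc of `b` -/
def mm (s : Setup V W q) (a b : V) : Prop := mem s.G.N (s.G.T a) (s.G.T b) (s.G.l b)

def SS (s : Setup V W q) (a : V) : ℕ := st s.G.N (s.G.T a) (s.G.l a)

theorem has_mm {a b : V} (ha : s.OK a) (hb : s.OK b) : s.G.has a b ↔ s.mm a b :=
  s.G.has_iff _ ha.1 _ hb.1 ha.2 hb.2

theorem mM {a b : V} (ha : s.OK a) (hb : s.OK b) (h : s.M a b) : s.mm a b ∨ s.mm b a := by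
  rwa [s.G.M_iff, has_mm ha hb, has_mm hb ha] at h

theorem nM {a b : V} (ha : s.OK a) (hb : s.OK b) (h : ¬ s.M a b) : ¬ s.mm a b ∧ ¬ s.mm b a := by
  rwa [s.G.M_iff, has_mm ha hb, has_mm hb ha, not_or] at h

theorem Mm {a b : V} (ha : s.OK a) (hb : s.OK b) (h : s.mm a b ∨ s.mm b a) : s.M a b := by
  rwa [s.G.M_iff, has_mm ha hb, has_mm hb ha]

/-- the arc of `y'` is not inside the arc of `y` -/
def NN (s : Setup V W q) (y y' : V) : Prop :=
  ∃ u, u < s.G.N ∧ mem s.G.N u (s.G.T y') (s.G.l y') ∧ ¬ mem s.G.N u (s.G.T y) (s.G.l y)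

theorem nn_of_wit {x y y' : V} (hx : s.OK x) (hy : s.OK y) (hy' : s.OK y') (h1 : s.M x y')
    (h2 : ¬ s.M x y) : s.NN y y' := by
  rcases (s.G.M_iff _ _).mp h1 with h | h
  · exact ⟨_, s.G.T_lt x, (has_mm hx hy').mp h, (nM hx hy h2).1⟩
  · refine ⟨_, s.G.T_lt y', (has_mm hy' hy').mp (s.G.has_self _), fun e => h2 ?_⟩
    exact s.G.has_M _ _ _ h ((has_mm hy' hy).mpr e)

theorem NN.ineq {y y' : V} (h : s.NN y y') :
    (s.G.T y' ≤ s.G.T y ∧ s.G.l y + s.G.T y' < s.G.T y + s.G.l y') ∨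
      (s.G.T y < s.G.T y' ∧ s.G.l y + s.G.T y' < s.G.T y + s.G.N + s.G.l y') := by
  obtain ⟨u, hu, h1, h2⟩ := h
  exact (l1aux (s.G.T_lt _) (s.G.T_lt _) (s.G.l_lt _) (s.G.l_lt _) hu h1 h2).2

theorem NN.top_ne {y y' : V} (h : s.NN y y') (h' : s.NN y' y) : s.G.T y ≠ s.G.T y' := by
  obtain ⟨u, -, h1, h2⟩ := h
  obtain ⟨u', -, h3, h4⟩ := h'
  exact MP_f0827e_co.top_ne h3 h4 h1 h2

theorem o_l1 {a b c : V} (h12 : s.NN a b) (h21 : s.NN b a) (h13 : s.NN a c) (h31 : s.NN c a)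
    (h23 : s.NN b c) (h32 : s.NN c b) (h : sb (s.G.T a) (s.G.T b) (s.G.T c)) :
    sb (s.SS a) (s.SS b) (s.SS c) :=
  l1 (s.G.T_lt _) (s.G.T_lt _) (s.G.T_lt _) (s.G.l_lt _) (s.G.l_lt _) (s.G.l_lt _)
    h12.ineq h21.ineq h13.ineq h31.ineq h23.ineq h32.ineq h

theorem o_l2 {x y y' : V} (hx : s.OK x) (hy : s.OK y) (hy' : s.OK y') (h1 : s.M x y)
    (h2 : ¬ s.M x y') (h : s.NN y y') : wb (s.SS y) (s.G.T x) (s.SS y') := by
  obtain ⟨u, hu, w1, w2⟩ := h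
  exact l2 (s.G.T_lt _) (s.G.T_lt _) (s.G.T_lt _) (s.G.l_lt _) (s.G.l_lt _) hu (mM hx hy h1)
    (nM hx hy' h2).1 (nM hx hy' h2).2 w1 w2

/-- goodness of an orbit -/
def GoodV (s : Setup V W q) (C : ℕ) (x : V) (b : ZMod q) : Prop :=
  ∃ E : Finset (ZMod q), E.card ≤ C ∧ (∀ i, s.G.pend (s.T i x) → i ∈ E) ∧
    Good (fun i => s.G.T (s.T i x)) b E

theorem GoodV.few {C : ℕ} {x : V} {b : ZMod q} (h : s.GoodV C x b) : s.Few C x := by
  obtain ⟨E, h1, h2, -⟩ := h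
  exact ⟨E, h1, h2⟩

theorem GoodV.mono {C C' : ℕ} {x : V} {b : ZMod q} (h : s.GoodV C x b) (hC : C ≤ C') :
    s.GoodV C' x b := by
  obtain ⟨E, h1, h2⟩ := h
  exact ⟨E, h1.trans hC, h2⟩

theorem GoodV.shift {C : ℕ} {x : V} {b : ZMod q} (h : s.GoodV C x b) (c : ZMod q) :
    s.GoodV C (s.T c x) b := by
  classical
  obtain ⟨E, h1, h2, h3, h4⟩ := h
  have hm : ∀ i, i ∈ E.image (fun j => j - c) ↔ i + c ∈ E := fun i => by
    simp only [Finset.mem_image]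
    constructor
    · rintro ⟨j, hj, rfl⟩; simpa using hj
    · intro h; exact ⟨_, h, by simp⟩
  refine ⟨E.image fun j => j - c, Finset.card_image_le.trans h1, fun i hi => ?_, ?_, ?_⟩
  · rw [hm]; rw [s.TT] at hi; exact h2 _ hi
  · intro i j hi hj he
    rw [hm] at hi hj
    simp only [s.TT] at he
    exact add_right_cancel (h3 _ _ hi hj he)
  · intro i z1 z2 a1 a2 a3 a4 a5 a6 a7 a8
    rw [hm] at a1 a2 a3 a4
    simp only [s.TT] at a7 a8
    have e : i + b + c = i + c + b := by ring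
    rw [e] at a2 a7 a8
    exact h4 (i + c) (z1 + c) (z2 + c) a1 a2 a3 a4 (fun h => a5 (by linear_combination h))
      (fun h => a6 (by linear_combination h)) a7 a8

theorem GoodV.cmp {C C' : ℕ} {x : V} {b c : ZMod q} (hb : s.GoodV C x b) (hc : s.GoodV C' x c)
    (hC : C + C' ≤ 50 * (Nat.card W + 1)) (b0 : b ≠ 0) (c0 : c ≠ 0) : Near b c := by
  classical
  obtain ⟨E, h1, -, h3⟩ := hb
  obtain ⟨E', h1', -, h3'⟩ := hc
  have := s.big1
  have := Finset.card_union_le E E'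
  exact Good.cmp (h3.mono Finset.subset_union_left) (h3'.mono Finset.subset_union_right)
    (by omega) (by omega) b0 c0

theorem GoodV.tr {C C' : ℕ} {x y : V} {b : ZMod q} (hx : x ∈ s.Om) (hy : y ∈ s.Om)
    (h : s.Mat x y ∨ s.CoM x y) (hg : s.GoodV C y b) (hf : s.Few C' x)
    (hC : C + C' ≤ 50 * (Nat.card W + 1)) : s.GoodV (C + C') x b := by
  classical
  obtain ⟨E, h1, h2, h3⟩ := hg
  obtain ⟨E', h1', h2'⟩ := hf
  have := s.big1
  have := Finset.card_union_le E E'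
  refine ⟨E ∪ E', by omega, fun i hi => Finset.mem_union_right _ (h2' i hi), ?_⟩
  refine (h3.mono Finset.subset_union_left).transfer (by omega) ?_
  have ox : ∀ i, i ∉ E ∪ E' → s.OK (s.T i x) := fun i hi =>
    ⟨s.T_Om _ _ hx, fun e => hi (Finset.mem_union_right _ (h2' i e))⟩
  have oy : ∀ i, i ∉ E ∪ E' → s.OK (s.T i y) := fun i hi =>
    ⟨s.T_Om _ _ hy, fun e => hi (Finset.mem_union_left _ (h2 i e))⟩
  intro i j k hi hj hk ij jk ik hs
  rcases h with h | h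
  · have nn : ∀ a b, a ∉ E ∪ E' → b ∉ E ∪ E' → a ≠ b → s.NN (s.T a y) (s.T b y) :=
      fun a b ha hb hab => nn_of_wit (ox b hb) (oy a ha) (oy b hb) ((h.all _ _).mpr rfl)
        (fun e => hab ((h.all _ _).mp e).symm)
    have w : ∀ a b, a ∉ E ∪ E' → b ∉ E ∪ E' → a ≠ b →
        wb (s.SS (s.T a y)) (s.G.T (s.T a x)) (s.SS (s.T b y)) := fun a b ha hb hab =>
      o_l2 (ox a ha) (oy a ha) (oy b hb) ((h.all _ _).mpr rfl)
        (fun e => hab ((h.all _ _).mp e)) (nn a b ha hb hab)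
    exact l3 (o_l1 (nn _ _ hi hj ij) (nn _ _ hj hi ij.symm) (nn _ _ hi hk ik)
      (nn _ _ hk hi ik.symm) (nn _ _ hj hk jk) (nn _ _ hk hj jk.symm) hs)
      (w _ _ hi hj ij) (w _ _ hj hk jk) (w _ _ hk hi ik.symm)
  · have nn : ∀ a b, a ∉ E ∪ E' → b ∉ E ∪ E' → a ≠ b → s.NN (s.T a y) (s.T b y) :=
      fun a b ha hb hab => nn_of_wit (ox a ha) (oy a ha) (oy b hb) ((h.all _ _).mpr hab)
        (fun e => (h.all _ _).mp e rfl)
    have w : ∀ a b, a ∉ E ∪ E' → b ∉ E ∪ E' → a ≠ b →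
        wb (s.SS (s.T a y)) (s.G.T (s.T b x)) (s.SS (s.T b y)) := fun a b ha hb hab =>
      o_l2 (ox b hb) (oy a ha) (oy b hb) ((h.all _ _).mpr hab.symm)
        (fun e => (h.all _ _).mp e rfl) (nn a b ha hb hab)
    exact sb_rot (sb_rot (l3 (o_l1 (nn _ _ hi hj ij) (nn _ _ hj hi ij.symm) (nn _ _ hi hk ik)
      (nn _ _ hk hi ik.symm) (nn _ _ hj hk jk) (nn _ _ hk hj jk.symm) hs)
      (w _ _ hi hj ij) (w _ _ hj hk jk) (w _ _ hk hi ik.symm)))

theorem la {x y : V} (hx : x ∈ s.Om) (hy : y ∈ s.Om) (hnp : s.NP x)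
    (hf : s.Few (Nat.card W) y) (ht : s.Thick x y) :
    (∃ b, OneOut (fun i => s.M (s.T i x) y) b) ∧
      ∀ b, OneOut (fun i => s.M (s.T i x) y) b →
        s.GoodV (4 * Nat.card W) x b ∧ s.GoodV (4 * Nat.card W) y b := by
  classical
  have : NeZero q := ⟨(Fact.out : q.Prime).ne_zero⟩
  have hbig := s.big1
  obtain ⟨P, hP, hP'⟩ := hf
  set n := Nat.card W
  have hn := ht.non
  let Y : Finset (ZMod q) := Finset.univ \ P
  have hYc : q ≤ Y.card + n := by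
    have := Finset.card_sdiff_add_card_eq_card (Finset.subset_univ P)
    rw [Finset.card_univ, ZMod.card] at this
    simp only [Y]; omega
  have hYm : ∀ j, j ∈ Y ↔ j ∉ P := fun j => by simp [Y]
  let g : ZMod q → ℕ := fun j => s.G.T (s.T j y)
  let f : ZMod q → ℕ := fun i => s.G.T (s.T i x)
  have ox : ∀ i, s.OK (s.T i x) := fun i => ⟨s.T_Om _ _ hx, hnp i⟩
  have oy : ∀ j ∈ Y, s.OK (s.T j y) := fun j hj =>
    ⟨s.T_Om _ _ hy, fun e => (hYm j).mp hj (hP' j e)⟩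
  have nn : ∀ a ∈ Y, ∀ b ∈ Y, a ≠ b → s.NN (s.T a y) (s.T b y) := fun a ha b hb hab => by
    obtain ⟨k, h1, h2⟩ := hn.wit hab.symm
    exact nn_of_wit (ox k) (oy a ha) (oy b hb) h1 h2
  have ginj : ∀ a ∈ Y, ∀ b ∈ Y, a ≠ b → g a ≠ g b := fun a ha b hb hab =>
    (nn a ha b hb hab).top_ne (nn b hb a ha hab.symm)
  have gtot : ∀ a ∈ Y, ∀ b ∈ Y, ∀ c ∈ Y, a ≠ b → b ≠ c → a ≠ c →
      sb (g a) (g b) (g c) ∨ sb (g a) (g c) (g b) := fun a ha b hb c hc h1 h2 h3 =>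
    sb_total (ginj a ha b hb h1) (ginj b hb c hc h2) (ginj a ha c hc h3)
  obtain ⟨nxt, hnxt⟩ := exists_nxt s.G.N g (fun j => s.G.T_lt _) Y (by omega)
  have hsb : ∀ j ∈ Y, ∀ j' ∈ Y, j' ≠ j → j' ≠ nxt j → sb (g j) (g (nxt j)) (g j') := by
    intro j hj j' hj' h1 h2
    obtain ⟨a1, a2, a3⟩ := hnxt j hj
    exact (gtot j hj _ a1 j' hj' a2.symm h2.symm h1.symm).resolve_right (a3 j' hj')
  have ninj : ∀ j ∈ Y, ∀ j' ∈ Y, nxt j = nxt j' → j = j' := by
    intro j hj j' hj' he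
    by_contra hne
    have h1 := hsb j hj j' hj' (Ne.symm hne) (by rw [he]; exact (hnxt j' hj').2.1.symm)
    have h2 := hsb j' hj' j hj hne (by rw [← he]; exact (hnxt j hj).2.1.symm)
    rw [← he] at h2
    exact sb_asymm h1 (sb_rot (sb_rot h2))
  have nsurj : ∀ j ∈ Y, ∃ p ∈ Y, nxt p = j := by
    intro j hj
    obtain ⟨p, hp, he⟩ := Finset.surj_on_of_inj_on_of_card_le (s := Y) (t := Y)
      (fun a _ => nxt a) (fun a ha => (hnxt a ha).1) (fun a b ha hb => ninj a ha b hb) le_rfl j hj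
    exact ⟨p, hp, he.symm⟩
  have nn2 : ∀ j ∈ Y, nxt (nxt j) ≠ j := by
    intro j hj he
    obtain ⟨k, hk, hk'⟩ := Finset.exists_mem_notMem_of_card_lt_card
      (s := ({j, nxt j} : Finset (ZMod q))) (t := Y)
      (lt_of_le_of_lt Finset.card_le_two (by omega))
    simp only [Finset.mem_insert, Finset.mem_singleton, not_or] at hk'
    have h1 := hsb j hj k hk hk'.1 hk'.2
    have h2 := hsb (nxt j) (hnxt j hj).1 k hk hk'.2 (by rw [he]; exact hk'.1)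
    rw [he] at h2
    exact sb_asymm (sb_rot h1) h2
  let lv : ZMod q → Finset (ZMod q) := fun j => Finset.univ.filter fun i =>
    s.M (s.T i x) (s.T j y) ∧ ¬ s.M (s.T i x) (s.T (nxt j) y)
  have hlv : ∀ j i, i ∈ lv j ↔ s.M (s.T i x) (s.T j y) ∧ ¬ s.M (s.T i x) (s.T (nxt j) y) :=
    fun j i => by simp [lv]
  have lv1 : ∀ j ∈ Y, 1 ≤ (lv j).card := fun j hj => by
    obtain ⟨k, h1, h2⟩ := hn.wit (hnxt j hj).2.1.symm
    exact Finset.card_pos.mpr ⟨k, (hlv j k).mpr ⟨h1, h2⟩⟩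
  have lvd : ∀ j ∈ Y, ∀ j' ∈ Y, ∀ i, i ∈ lv j → i ∈ lv j' → j = j' := by
    intro j hj j' hj' i h1 h2
    by_contra hne
    rw [hlv] at h1 h2
    have e1 : j' ≠ nxt j := fun e => h1.2 (e ▸ h2.1)
    have e2 : j ≠ nxt j' := fun e => h2.2 (e ▸ h1.1)
    have o2 := oy _ (hnxt j hj).1
    have o4 := oy _ (hnxt j' hj').1
    exact alt (s.G.T_lt (s.T i x)) (s.G.T_lt _) (s.G.T_lt _) (s.G.T_lt _) (s.G.T_lt _)
      (hsb j hj j' hj' (Ne.symm hne) e1) (hsb j' hj' j hj hne e2)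
      (mM (ox i) (oy j hj) h1.1) (mM (ox i) (oy j' hj') h2.1)
      (nM (ox i) o2 h1.2).1 (nM (ox i) o2 h1.2).2 (nM (ox i) o4 h2.2).1 (nM (ox i) o4 h2.2).2
      (nn _ hj' _ (hnxt j hj).1 e1).ineq (nn _ hj _ (hnxt j' hj').1 e2).ineq
  have hsum : ∑ j ∈ Y, (lv j).card ≤ q := by
    rw [← Finset.card_biUnion (fun j hj j' hj' hne => Finset.disjoint_left.mpr
      fun i h1 h2 => hne (lvd j hj j' hj' i h1 h2))]
    exact (Finset.card_le_univ _).trans (ZMod.card q).le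
  let Bad : Finset (ZMod q) := Y.filter fun j => (lv j).card ≠ 1
  have hBad : Bad.card ≤ n := by
    have h1 : ∑ j ∈ Y, (1 + if (lv j).card ≠ 1 then 1 else 0) ≤ ∑ j ∈ Y, (lv j).card :=
      Finset.sum_le_sum fun j hj => by
        have := lv1 j hj
        split_ifs <;> omega
    rw [Finset.sum_add_distrib, ← Finset.card_filter] at h1
    simp only [Finset.sum_const, smul_eq_mul, mul_one] at h1
    simp only [Bad]; omega
  have hxi : ∀ j, ∃ i, j ∈ Y → j ∉ Bad → lv j = {i} := by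
    intro j
    by_cases h : j ∈ Y ∧ j ∉ Bad
    · have : (lv j).card = 1 := by
        by_contra hc
        exact h.2 (Finset.mem_filter.mpr ⟨h.1, hc⟩)
      obtain ⟨i, hi⟩ := Finset.card_eq_one.mp this
      exact ⟨i, fun _ _ => hi⟩
    · exact ⟨0, fun h1 h2 => absurd ⟨h1, h2⟩ h⟩
  choose xi hxi using hxi
  have xi1 : ∀ j ∈ Y, j ∉ Bad → ∀ i, i ∈ lv j ↔ i = xi j := fun j hj hb i => by
    rw [hxi j hj hb, Finset.mem_singleton]
  have hone : ∀ j ∈ Y, j ∉ Bad → OneOut (fun i => s.M (s.T i x) y) (nxt j - j) := by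
    intro j hj hb
    have h1 := (hlv _ _).mp ((xi1 j hj hb _).mpr rfl)
    rw [s.M_TT, s.M_TT] at h1
    refine ⟨xi j - j, ⟨h1.1, by
      rw [show xi j - j - (nxt j - j) = xi j - nxt j by ring]; exact h1.2⟩, fun u h2 h3 => ?_⟩
    have := (xi1 j hj hb (u + j)).mp ((hlv _ _).mpr (by
      rw [s.M_TT, s.M_TT, add_sub_cancel_right, show u + j - nxt j = u - (nxt j - j) by ring]
      exact ⟨h2, h3⟩))
    rw [← this, add_sub_cancel_right]
  refine ⟨?_, fun b hb => ?_⟩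
  · obtain ⟨j, hj, hj'⟩ := Finset.exists_mem_notMem_of_card_lt_card (s := Bad) (t := Y) (by omega)
    exact ⟨_, hone j hj hj'⟩
  have hdir : ∀ j ∈ Y, j ∉ Bad → nxt j = j + b ∨ nxt j = j - b := fun j hj hb' => by
    rcases apu _ _ _ hb (hone j hj hb') ht.1 ht.2 with h | h
    · left; linear_combination h
    · right; linear_combination h
  let E' : Finset (ZMod q) := P ∪ Bad ∪ Bad.image nxt
  have hE' : E'.card ≤ 3 * n := by
    have h1 := Finset.card_union_le (P ∪ Bad) (Bad.image nxt)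
    have h2 := Finset.card_union_le P Bad
    have h3 := Finset.card_image_le (s := Bad) (f := nxt)
    simp only [E']; omega
  have hE'm : ∀ j, j ∉ E' → j ∈ Y ∧ j ∉ Bad ∧
      (nxt j = j + b ∨ (nxt (j + b) = j ∧ nxt j = j - b ∧ j + b ∈ Y ∧ j + b ∉ Bad)) := by
    intro j hj
    simp only [E', Finset.mem_union, not_or] at hj
    have jY := (hYm j).mpr hj.1.1
    refine ⟨jY, hj.1.2, ?_⟩
    rcases hdir j jY hj.1.2 with h | h
    · exact Or.inl h
    right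
    obtain ⟨p, hp, he⟩ := nsurj j jY
    have pb : p ∉ Bad := fun e => hj.2 (Finset.mem_image.mpr ⟨p, e, he⟩)
    rcases hdir p hp pb with h' | h'
    · exfalso
      apply nn2 j jY
      rw [h, show j - b = p by linear_combination h' - he, he]
    · have : p = j + b := by linear_combination he - h'
      subst this
      exact ⟨he, h, hp, pb⟩
  have hsep : ∀ j, j ∉ E' → ∀ z1 ∈ Y, ∀ z2 ∈ Y, sb (g j) (g z1) (g (j + b)) →
      sb (g (j + b)) (g z2) (g j) → False := by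
    intro j hj z1 h1 z2 h2 h3 h4
    obtain ⟨jY, -, h | h⟩ := hE'm j hj
    · exact (hnxt j jY).2.2 z1 h1 (by rwa [h])
    · exact (hnxt _ h.2.2.1).2.2 z2 h2 (by rwa [h.1])
  refine ⟨?_, ⟨E', by omega, fun j hj => ?_, fun i j hi hj he => ?_,
    fun i z1 z2 h1 _ h3 h4 _ _ h7 h8 => hsep i h1 z1 (hE'm z1 h3).1 z2 (hE'm z2 h4).1 h7 h8⟩⟩
  rotate_left
  · exact Finset.mem_union_left _ (Finset.mem_union_left _ (hP' j hj))
  · by_contra hne
    exact ginj i (hE'm i hi).1 j (hE'm j hj).1 hne he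
  -- the orbit of x
  have star : ∀ j ∈ Y, j ∉ Bad → ∀ j' ∈ Y, j' ≠ j →
      wb (s.SS (s.T j y)) (f (xi j)) (s.SS (s.T j' y)) := by
    intro j hj hb' j' hj' hne
    have h1 := (hlv _ _).mp ((xi1 j hj hb' _).mpr rfl)
    obtain ⟨a1, a2, -⟩ := hnxt j hj
    have h2 := o_l2 (ox _) (oy j hj) (oy _ a1) h1.1 h1.2 (nn _ hj _ a1 a2.symm)
    by_cases he : j' = nxt j
    · rw [he]; exact h2
    · exact wb_mono h2 (o_l1 (nn _ hj _ a1 a2.symm) (nn _ a1 _ hj a2) (nn _ hj _ hj' hne.symm)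
        (nn _ hj' _ hj hne) (nn _ a1 _ hj' (Ne.symm he)) (nn _ hj' _ a1 he)
        (hsb j hj j' hj' hne he))
  have ori : ∀ a ∈ Y, a ∉ Bad → ∀ b ∈ Y, b ∉ Bad → ∀ c ∈ Y, c ∉ Bad → sb (g a) (g b) (g c) →
      sb (f (xi a)) (f (xi b)) (f (xi c)) := by
    intro a ha ha' b hb hb' c hc hc' hs
    obtain ⟨e1, e2, e3⟩ := sb_ne hs
    have ab : a ≠ b := fun e => e1 (by rw [e])
    have bc : b ≠ c := fun e => e2 (by rw [e])
    have ac : a ≠ c := fun e => e3 (by rw [e])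
    exact l3 (o_l1 (nn _ ha _ hb ab) (nn _ hb _ ha ab.symm) (nn _ ha _ hc ac)
      (nn _ hc _ ha ac.symm) (nn _ hb _ hc bc) (nn _ hc _ hb bc.symm) hs)
      (star a ha ha' b hb ab.symm) (star b hb hb' c hc bc.symm) (star c hc hc' a ha ac)
  have orc : ∀ a ∈ Y, a ∉ Bad → ∀ b ∈ Y, b ∉ Bad → ∀ c ∈ Y, c ∉ Bad →
      sb (f (xi a)) (f (xi b)) (f (xi c)) → sb (g a) (g b) (g c) := by
    intro a ha ha' b hb hb' c hc hc' hs
    obtain ⟨e1, e2, e3⟩ := sb_ne hs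
    have ab : a ≠ b := fun e => e1 (by rw [e])
    have bc : b ≠ c := fun e => e2 (by rw [e])
    have ac : a ≠ c := fun e => e3 (by rw [e])
    rcases gtot a ha b hb c hc ab bc ac with e | e
    · exact e
    · exact absurd (ori a ha ha' c hc hc' b hb hb' e) (sb_asymm hs)
  have xinj : ∀ a ∈ Y, a ∉ Bad → ∀ b ∈ Y, b ∉ Bad → xi a = xi b → a = b :=
    fun a ha ha' b hb hb' he => lvd a ha b hb (xi a) ((xi1 a ha ha' _).mpr rfl)
      ((xi1 b hb hb' _).mpr he)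
  let B2 : Finset (ZMod q) := Y.filter fun j => nxt j ∈ Bad
  have hB2 : B2.card ≤ n := by
    refine le_trans (Finset.card_le_card_of_injOn nxt (t := Bad)
      (fun j hj => (Finset.mem_filter.mp hj).2) ?_) hBad
    intro a ha b hb he
    exact ninj a (Finset.mem_filter.mp ha).1 b (Finset.mem_filter.mp hb).1 he
  let Y' : Finset (ZMod q) := Finset.univ \ (E' ∪ B2)
  have hY'c : q ≤ Y'.card + 4 * n := by
    have := Finset.card_sdiff_add_card_eq_card (Finset.subset_univ (E' ∪ B2))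
    rw [Finset.card_univ, ZMod.card] at this
    have := Finset.card_union_le E' B2
    simp only [Y']; omega
  have hY'm : ∀ j ∈ Y', j ∉ E' ∧ j ∈ Y ∧ j ∉ Bad ∧ j + b ∈ Y ∧ j + b ∉ Bad ∧
      xi (j + b) = xi j + b := by
    intro j hj
    simp only [Y', Finset.mem_sdiff, Finset.mem_univ, true_and, Finset.mem_union, not_or] at hj
    obtain ⟨jY, jB, h⟩ := hE'm j hj.1
    have h1 := (hlv _ _).mp ((xi1 j jY jB _).mpr rfl)
    rw [s.M_TT, s.M_TT] at h1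
    refine ⟨hj.1, jY, jB, ?_⟩
    rcases h with h | h
    · have a1 : j + b ∈ Y := h ▸ (hnxt j jY).1
      have a2 : j + b ∉ Bad := fun e => hj.2 (Finset.mem_filter.mpr ⟨jY, h ▸ e⟩)
      refine ⟨a1, a2, ((xi1 _ a1 a2 _).mp ((hlv _ _).mpr ?_)).symm⟩
      rcases hdir _ a1 a2 with h' | h'
      · rw [s.M_TT, s.M_TT, h', show xi j + b - (j + b) = xi j - j by ring,
          show xi j + b - (j + b + b) = xi j - (j + b) by ring, ← h]
        exact h1
      · exact absurd (by rw [h, h', add_sub_cancel_right]) (nn2 j jY)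
    · refine ⟨h.2.2.1, h.2.2.2, ((xi1 _ h.2.2.1 h.2.2.2 _).mp ((hlv _ _).mpr ?_)).symm⟩
      rw [s.M_TT, s.M_TT, h.1, show xi j + b - (j + b) = xi j - j by ring,
        show xi j + b - j = xi j - (j - b) by ring, ← h.2.1]
      exact h1
  have hE : ∀ i, i ∉ Finset.univ \ Y'.image xi → ∃ j ∈ Y', xi j = i := fun i hi => by
    simpa using hi
  refine ⟨Finset.univ \ Y'.image xi, ?_, fun i hi => absurd hi (hnp i), fun i i' hi hi' he => ?_,
    fun i z1 z2 h1 _ h3 h4 _ _ h7 h8 => ?_⟩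
  · have h1 := Finset.card_sdiff_add_card_eq_card (Finset.subset_univ (Y'.image xi))
    rw [Finset.card_univ, ZMod.card, Finset.card_image_of_injOn (fun a ha b hb he =>
      xinj a (hY'm a ha).2.1 (hY'm a ha).2.2.1 b (hY'm b hb).2.1 (hY'm b hb).2.2.1 he)] at h1
    omega
  · obtain ⟨j, hj, rfl⟩ := hE i hi
    obtain ⟨j', hj', rfl⟩ := hE i' hi'
    by_contra hne
    have jj : j ≠ j' := fun e => hne (by rw [e])
    obtain ⟨k, hk, hk'⟩ := Finset.exists_mem_notMem_of_card_lt_card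
      (s := ({j, j'} : Finset (ZMod q))) (t := Y')
      (lt_of_le_of_lt Finset.card_le_two (by omega))
    simp only [Finset.mem_insert, Finset.mem_singleton, not_or] at hk'
    obtain ⟨-, a1, a2, -⟩ := hY'm j hj
    obtain ⟨-, b1, b2, -⟩ := hY'm j' hj'
    obtain ⟨-, c1, c2, -⟩ := hY'm k hk
    rcases gtot j a1 j' b1 k c1 jj (Ne.symm hk'.2) (Ne.symm hk'.1) with e | e
    · exact (sb_ne (ori _ a1 a2 _ b1 b2 _ c1 c2 e)).1 he
    · exact (sb_ne (ori _ a1 a2 _ c1 c2 _ b1 b2 e)).2.2 he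
  · obtain ⟨j, hj, rfl⟩ := hE i h1
    obtain ⟨j1, hj1, rfl⟩ := hE z1 h3
    obtain ⟨j2, hj2, rfl⟩ := hE z2 h4
    obtain ⟨a0, a1, a2, a3, a4, a5⟩ := hY'm j hj
    obtain ⟨-, b1, b2, -⟩ := hY'm j1 hj1
    obtain ⟨-, c1, c2, -⟩ := hY'm j2 hj2
    rw [← a5] at h7 h8
    exact hsep j a0 j1 b1 j2 c1 (orc _ a1 a2 _ b1 b2 _ a3 a4 h7) (orc _ a3 a4 _ c1 c2 _ a1 a2 h8)

end Setup

end Pool.Agent.P.MP_f0827e_co
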