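import Mathlib
import Pool.Agent.P.MP_f0827e_co.Main2

set_option linter.unusedSectionVars false

namespace Pool.Agent.P.MP_f0827e_co

namespace Setup

variable {V W : Type} {q : ℕ} [Fact q.Prime] {s : Setup V W q} [Finite W]

theorem Non.cases {u v : V} (h : s.Non u v) :
    s.Thick u v ∨ ∃ c, s.Mat (s.T c u) v ∨ s.CoM (s.T c u) v := by
  obtain ⟨h1, h2⟩ := h
  unfold Emp at h1
  unfold Ful at h2
  push Not at h1 h2
  obtain ⟨a, ha⟩ := h1
  obtain ⟨b, hb⟩ := h2
  by_cases c1 : ∃ i j, i ≠ j ∧ s.M (s.T i u) v ∧ s.M (s.T j u) v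
  · by_cases c2 : ∃ i j, i ≠ j ∧ ¬ s.M (s.T i u) v ∧ ¬ s.M (s.T j u) v
    · exact Or.inl ⟨c1, c2⟩
    · refine Or.inr ⟨b, Or.inr fun i => ?_⟩
      rw [s.TT]
      constructor
      · rintro h rfl
        exact hb (by simpa using h)
      · intro hi
        by_contra hc
        exact c2 ⟨i + b, b, by simpa using hi, hc, hb⟩
  · refine Or.inr ⟨a, Or.inl fun i => ?_⟩
    rw [s.TT]
    constructor
    · intro h
      by_contra hi
      exact c1 ⟨i + a, a, by simpa using hi, h, ha⟩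
    · rintro rfl
      simpa using ha

theorem thick_good {u v : V} (hu : u ∈ s.Om) (hv : v ∈ s.Om) (h : s.Thick u v) :
    ∃ c, c ≠ 0 ∧ s.GoodV (4 * Nat.card W) u c ∧ s.GoodV (4 * Nat.card W) v c := by
  have aux : ∀ u v, u ∈ s.Om → v ∈ s.Om → s.Thick u v → s.NP u →
      ∃ c, c ≠ 0 ∧ s.GoodV (4 * Nat.card W) u c ∧ s.GoodV (4 * Nat.card W) v c := by
    intro u v hu hv h hnp
    obtain ⟨⟨c, hc⟩, h2⟩ := la hu hv hnp (few_of_np hnp h.non) h
    exact ⟨c, hc.ne_zero, h2 c hc⟩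
  by_cases h1 : s.IsI u
  · by_cases h2 : s.IsI v
    · exact aux u v hu hv h (II_np h1 h2 h)
    · obtain ⟨c, c0, a, b⟩ := aux v u hv hu h.symm (nonI_np h2 h.symm.non)
      exact ⟨c, c0, b, a⟩
  · exact aux u v hu hv h (nonI_np h1 h.non)

theorem indep {u v : V} {b b' : ZMod q} {C : ℕ} (hC : C ≤ 16 * (Nat.card W + 1))
    (hu : u ∈ s.Om) (hv : v ∈ s.Om) (g1 : s.GoodV C u b) (g2 : s.GoodV C v b') (b0 : b ≠ 0)
    (b0' : b' ≠ 0) (hsep : ∀ c, Near b c → Near b' c → False) : s.Emp u v ∨ s.Ful u v := by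
  by_contra hn
  rw [not_or] at hn
  rcases Non.cases hn with h | ⟨c, h⟩
  · obtain ⟨c, c0, a1, a2⟩ := thick_good hu hv h
    exact hsep c (g1.cmp a1 (by omega) b0 c0) (g2.cmp a2 (by omega) b0' c0)
  · have a1 := GoodV.tr (s.T_Om _ _ hu) hv h g2 (g1.shift c).few (by omega)
    exact hsep b' ((g1.shift c).cmp a1 (by omega) b0 b0') (Or.inl rfl)

theorem lin {x y : V} (hx : x ∈ s.Om) (hy : y ∈ s.Om) (nx : s.NP x) (ny : s.NP y)
    (ht : s.Thick x y) (zt lz : ℕ) (hz : zt < s.G.N) (A B : Finset (ZMod q))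
    (hA : ∀ i ∈ A, mem s.G.N (s.G.T (s.T i x)) zt lz ∨
      mem s.G.N zt (s.G.T (s.T i x)) (s.G.l (s.T i x)))
    (hB : ∀ j ∈ B, ¬ mem s.G.N zt (s.G.T (s.T j y)) (s.G.l (s.T j y)) ∧
      ¬ mem s.G.N (s.G.T (s.T j y)) zt lz)
    (hAB : ∀ i ∈ A, ∀ j, ¬ s.M (s.T i x) (s.T j y) → j ∈ B) (hne : A.Nonempty) :
    A.card < B.card := by
  classical
  have : NeZero q := ⟨(Fact.out : q.Prime).ne_zero⟩
  have ox : ∀ i, s.OK (s.T i x) := fun i => ⟨s.T_Om _ _ hx, nx i⟩
  have oy : ∀ i, s.OK (s.T i y) := fun i => ⟨s.T_Om _ _ hy, ny i⟩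
  let key : ZMod q → ℕ := fun j => dl s.G.N zt (s.SS (s.T j y)) * q + j.val
  have kinj : ∀ j j', key j = key j' → j = j' := fun j j' h => by
    have h1 : (key j) % q = (key j') % q := by rw [h]
    simp only [key, Nat.mul_add_mod_of_lt (ZMod.val_lt _)] at h1
    exact ZMod.val_injective q h1
  have kle : ∀ j j', key j ≤ key j' →
      dl s.G.N zt (s.SS (s.T j y)) ≤ dl s.G.N zt (s.SS (s.T j' y)) := fun j j' h => by
    by_contra hc
    push Not at hc
    have h1 := Nat.mul_le_mul_right q (Nat.succ_le_of_lt hc)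
    have h2 := ZMod.val_lt j'
    simp only [key] at h
    rw [Nat.succ_mul] at h1
    omega
  have hn : s.Non y x := ht.non.symm
  obtain ⟨-, a, b, hab, ha, hb⟩ := ht
  have two : ∀ i, ¬ s.M (s.T i x) (s.T (i - a) y) ∧ ¬ s.M (s.T i x) (s.T (i - b) y) := fun i => by
    rw [s.M_TT, s.M_TT, sub_sub_cancel, sub_sub_cancel]; exact ⟨ha, hb⟩
  have hm : ∀ i, ∃ m, ¬ s.M (s.T i x) (s.T m y) ∧
      ∀ j, ¬ s.M (s.T i x) (s.T j y) → key m ≤ key j := fun i => by
    obtain ⟨m, h1, h2⟩ := Finset.exists_min_image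
      (Finset.univ.filter fun j => ¬ s.M (s.T i x) (s.T j y)) key
      ⟨i - a, by simpa using (two i).1⟩
    exact ⟨m, (Finset.mem_filter.mp h1).2, fun j hj => h2 j (by simpa using hj)⟩
  choose m hm1 hm2 using hm
  obtain ⟨i0, hi0⟩ := hne
  obtain ⟨top, htop, htop'⟩ := Finset.exists_max_image B key ⟨_, hAB i0 hi0 _ (hm1 i0)⟩
  have aux : ∀ i ∈ A, ∀ i' ∈ A, m i = m i' → ∀ j j', ¬ s.M (s.T i x) (s.T j y) →
      ¬ s.M (s.T i' x) (s.T j' y) →
      dl s.G.N zt (s.G.T (s.T j' y)) ≤ dl s.G.N zt (s.G.T (s.T j y)) →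
      ¬ s.M (s.T i x) (s.T j' y) := by
    intro i hi i' hi' he j j' h1 h2 hle h3
    have b1 := hB _ (hAB i hi _ (hm1 i))
    have b2 := hB _ (hAB i hi _ h1)
    have b3 := hB _ (hAB i' hi' _ h2)
    have c1 := nM (ox i) (oy _) (hm1 i)
    have c2 := nM (ox i) (oy _) h1
    have := lin_arith hz (s.G.T_lt (s.T i x)) (s.G.T_lt _) (s.G.T_lt _) (s.G.T_lt _)
      (s.G.l_lt _) (s.G.l_lt _) (hA i hi) b1.1 b1.2 b2.1 b2.2 b3.1 b3.2
      (kle _ _ (he ▸ hm2 i' j' h2)) c1.1 c1.2 c2.1 c2.2 hle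
    rcases mM (ox i) (oy j') h3 with e | e
    · exact this.1 e
    · exact this.2 e
  have hcard : A.card ≤ (B.erase top).card := by
    refine Finset.card_le_card_of_injOn m (fun i hi => ?_) (fun i hi i' hi' he => ?_)
    · refine Finset.mem_coe.mpr (Finset.mem_erase.mpr ⟨fun e => ?_, hAB i hi _ (hm1 i)⟩)
      have e1 := hm2 i _ (two i).1
      have e2 := hm2 i _ (two i).2
      have e3 := htop' _ (hAB i hi _ (two i).1)
      have e4 := htop' _ (hAB i hi _ (two i).2)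
      rw [e] at e1 e2
      have := kinj (i - a) (i - b) (by omega)
      exact hab (by linear_combination -this)
    · by_contra hne
      obtain ⟨j', h1, h2⟩ := hn.wit hne
      obtain ⟨j, h3, h4⟩ := hn.wit (Ne.symm hne)
      rw [s.M_comm] at h1 h2 h3 h4
      rcases le_total (dl s.G.N zt (s.G.T (s.T j' y))) (dl s.G.N zt (s.G.T (s.T j y))) with
        hle | hle
      · exact aux i hi i' hi' he j j' h4 h2 hle h1
      · exact aux i' hi' i hi he.symm j' j h2 h4 hle h3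
  rw [Finset.card_erase_of_mem htop] at hcard
  have := Finset.card_pos.mpr ⟨top, htop⟩
  omega

theorem Emp.all0 {x y : V} (h : s.Emp x y) (i : ZMod q) : ¬ s.G.has y (s.T i x) :=
  fun e => h i (s.M_symm (s.M_of_has e))

theorem lin_full {a b z : V} (ha : a ∈ s.Om) (hb : b ∈ s.Om) (hz : s.OK z) (na : s.NP a)
    (nb : s.NP b) (ht : s.Thick a b) (h1 : s.Ful a z) (h2 : s.Emp b z) : False := by
  have : NeZero q := ⟨(Fact.out : q.Prime).ne_zero⟩
  have := lin ha hb na nb ht (s.G.T z) (s.G.l z) (s.G.T_lt z) Finset.univ Finset.univ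
    (fun i _ => mM ⟨s.T_Om _ _ ha, na i⟩ hz (h1 i))
    (fun j _ => (nM ⟨s.T_Om _ _ hb, nb j⟩ hz (h2 j)).symm)
    (fun _ _ _ _ => Finset.mem_univ _) Finset.univ_nonempty
  omega

theorem cross_ful {a b z : V} (ha : a ∈ s.Om) (hb : b ∈ s.Om) (hz : s.OK z) (na : s.NP a)
    (nb : s.NP b) (ht : s.Thick a b) (hI : ¬ s.IsI a) (h1 : s.Emp a z ∨ s.Ful a z)
    (h2 : s.Emp b z ∨ s.Ful b z) : s.Ful a z := by
  rcases h1 with h1 | h1
  · exfalso
    rcases h2 with h2 | h2
    · exact nonI_miss ha hb hz.1 hI ht.non hz.2 h1.all0 h2.all0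
    · exact lin_full hb ha hz nb na ht.symm h2 h1
  · exact h1

theorem all_ful {x y z z' : V} (hx : x ∈ s.Om) (hy : y ∈ s.Om) (hz : s.OK z) (hz' : s.OK z')
    (nx : s.NP x) (ny : s.NP y) (ht : s.Thick x y) (hzz : ¬ s.M z z')
    (h1 : s.Ful x z) (h2 : s.Ful x z') (h3 : s.Ful y z) (h4 : s.Ful y z') : False := by
  classical
  have : NeZero q := ⟨(Fact.out : q.Prime).ne_zero⟩
  have aux : ∀ w, s.OK w →
      (Finset.univ.filter fun i => s.G.has w (s.T i x)).Nonempty →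
      (Finset.univ.filter fun i => s.G.has w (s.T i x)).card <
        (Finset.univ.filter fun j => ¬ s.G.has w (s.T j y)).card := by
    intro w hw hne
    refine lin hx hy nx ny ht (s.G.T w) 0 (s.G.T_lt w) _ _ (fun i hi => Or.inr ?_)
      (fun j hj => ?_) (fun i hi j hm => ?_) hne
    · exact (has_mm hw ⟨s.T_Om _ _ hx, nx i⟩).mp (Finset.mem_filter.mp hi).2
    · have e : ¬ s.mm w (s.T j y) := fun e =>
        (Finset.mem_filter.mp hj).2 ((has_mm hw ⟨s.T_Om _ _ hy, ny j⟩).mpr e)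
      refine ⟨e, fun e' => e ?_⟩
      have := s.G.T_lt (s.T j y)
      have := s.G.T_lt w
      unfold mm mem at *
      omega
    · exact Finset.mem_filter.mpr ⟨Finset.mem_univ _, fun e =>
        hm (s.G.has_M _ _ _ (Finset.mem_filter.mp hi).2 e)⟩
  have c1 : q ≤ (Finset.univ.filter fun i => s.G.has z (s.T i x)).card +
      (Finset.univ.filter fun i => s.G.has z' (s.T i x)).card := by
    refine le_trans ?_ (Finset.card_union_le _ _)
    refine le_trans (ZMod.card q).ge ?_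
    rw [← Finset.card_univ]
    refine Finset.card_le_card fun i _ => ?_
    simpa using two_col hzz (h1 i) (h2 i)
  have c2 : (Finset.univ.filter fun j => ¬ s.G.has z (s.T j y)).card +
      (Finset.univ.filter fun j => ¬ s.G.has z' (s.T j y)).card ≤ q := by
    rw [← Finset.card_union_of_disjoint]
    · exact (Finset.card_le_univ _).trans (ZMod.card q).le
    · refine Finset.disjoint_left.mpr fun j a b => ?_
      rcases two_col hzz (h3 j) (h4 j) with e | e
      · exact (Finset.mem_filter.mp a).2 e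
      · exact (Finset.mem_filter.mp b).2 e
  have a1 := aux z hz
  have a2 := aux z' hz'
  rw [← Finset.card_pos] at a1 a2
  have := s.big1
  omega

theorem caseA {ι : Type} (J : Finset ι) (hJ : Nat.card W + 2 ≤ J.card) (x y : ι → V)
    (b : ι → ZMod q) (hx : ∀ j, x j ∈ s.Om) (hy : ∀ j, y j ∈ s.Om)
    (ht : ∀ j, s.Thick (x j) (y j)) (hb : ∀ j, OneOut (fun i => s.M (s.T i (x j)) (y j)) (b j))
    (hty : (∀ j, ¬ s.IsI (x j) ∧ ¬ s.IsI (y j)) ∨ (∀ j, ¬ s.IsI (x j) ∧ s.IsI (y j)) ∨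
      ∀ j, s.IsI (x j) ∧ s.IsI (y j))
    (hsep : ∀ j ∈ J, ∀ j' ∈ J, j ≠ j' → ∀ c, Near (b j) c → Near (b j') c → False) : False := by
  classical
  have := Fintype.ofFinite W
  have hbig := s.big1
  have nx : ∀ j, s.NP (x j) := fun j => by
    rcases hty with h | h | h
    · exact nonI_np (h j).1 (ht j).non
    · exact nonI_np (h j).1 (ht j).non
    · exact II_np (h j).1 (h j).2 (ht j)
  have fy : ∀ j, s.Few (Nat.card W) (y j) := fun j => few_of_np (nx j) (ht j).non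
  have gd := fun j => (la (hx j) (hy j) (nx j) (fy j) (ht j)).2 _ (hb j)
  have ind : ∀ j ∈ J, ∀ j' ∈ J, j ≠ j' → ∀ u v, (u = x j ∨ u = y j) → (v = x j' ∨ v = y j') →
      s.Emp u v ∨ s.Ful u v := by
    intro j hj j' hj' hne u v hu hv
    refine indep (C := 4 * Nat.card W) (by omega) ?_ ?_ ?_ ?_ (hb j).ne_zero (hb j').ne_zero
      (hsep j hj j' hj' hne)
    · rcases hu with rfl | rfl
      exacts [hx j, hy j]
    · rcases hv with rfl | rfl
      exacts [hx j', hy j']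
    · rcases hu with rfl | rfl
      exacts [(gd j).1, (gd j).2]
    · rcases hv with rfl | rfl
      exacts [(gd j').1, (gd j').2]
  let Pd : Finset ι := J.filter fun j => ¬ s.NP (y j)
  have hpd : ∀ j, ∃ i, j ∈ Pd → s.G.pend (s.T i (y j)) := fun j => by
    by_cases h : j ∈ Pd
    · have := (Finset.mem_filter.mp h).2
      unfold NP at this
      push Not at this
      obtain ⟨i, hi⟩ := this
      exact ⟨i, fun _ => hi⟩
    · exact ⟨0, fun e => absurd e h⟩
  choose pi hpi using hpd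
  have hPd : Pd.card ≤ Nat.card W := by
    rw [Nat.card_eq_fintype_card, ← Finset.card_univ]
    refine Finset.card_le_card_of_injOn (fun j => s.G.sg (s.T (pi j) (y j)))
      (fun _ _ => by simp) ?_
    have aux : ∀ j ∈ Pd, ∀ j' ∈ Pd, j ≠ j' → (∀ a, ¬ s.G.pend a → s.M a (s.T (pi j) (y j)) →
        s.M a (s.T (pi j') (y j'))) → False := by
      intro j hj j' hj' hne h
      have jJ := (Finset.mem_filter.mp hj).1
      have jJ' := (Finset.mem_filter.mp hj').1
      have hty' : ∀ j, ¬ s.IsI (x j) ∧ s.IsI (y j) := by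
        rcases hty with h | h | h
        · exact absurd (nonI_np (h j).2 (ht j).symm.non) (Finset.mem_filter.mp hj).2
        · exact h
        · exact absurd (II_np (h j).2 (h j).1 (ht j).symm) (Finset.mem_filter.mp hj).2
      obtain ⟨-, a, -, -, ha, -⟩ := ht j'
      have e1 : s.Emp (x j') (y j) := by
        refine (ind j' jJ' j jJ hne.symm _ _ (Or.inl rfl) (Or.inr rfl)).resolve_right fun e => ?_
        have := h _ (nx j' (a + pi j')) (e.all _ _)
        rw [s.M_TT, add_sub_cancel_right] at this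
        exact ha this
      have e2 : s.Emp (y j') (y j) :=
        (ind j' jJ' j jJ hne.symm _ _ (Or.inr rfl) (Or.inr rfl)).resolve_right
          (II_not_ful (hty' _).2 (hty' _).2)
      obtain ⟨i, hi⟩ := (fy j).exists_np (by omega)
      exact nonI_miss (hx j') (hy j') (s.T_Om i _ (hy j)) (hty' j').1 (ht j').non hi
        (fun k e => e1.all k i (s.M_symm (s.M_of_has e)))
        (fun k e => e2.all k i (s.M_symm (s.M_of_has e)))
    intro j hj j' hj' he
    by_contra hne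
    rcases s.G.nest _ _ (hpi j hj) (hpi j' hj') he with h | h
    · exact aux j hj j' hj' hne h
    · exact aux j' hj' j hj (Ne.symm hne) h
  have h2 : 1 < (J \ Pd).card := by
    have := Finset.card_sdiff_add_card_eq_card (Finset.filter_subset (fun j => ¬ s.NP (y j)) J)
    simp only [Pd] at *
    omega
  obtain ⟨j, hj, j', hj', hne⟩ := Finset.one_lt_card.mp h2
  have jJ := (Finset.mem_sdiff.mp hj).1
  have jJ' := (Finset.mem_sdiff.mp hj').1
  have ny : s.NP (y j) := by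
    by_contra h
    exact (Finset.mem_sdiff.mp hj).2 (Finset.mem_filter.mpr ⟨jJ, h⟩)
  have ny' : s.NP (y j') := by
    by_contra h
    exact (Finset.mem_sdiff.mp hj').2 (Finset.mem_filter.mpr ⟨jJ', h⟩)
  have ox' : s.OK (x j') := ⟨hx j', by simpa [s.T_zero] using nx j' 0⟩
  have oy' : s.OK (y j') := ⟨hy j', by simpa [s.T_zero] using ny' 0⟩
  have i1 := ind j jJ j' jJ' hne _ _ (Or.inl rfl) (Or.inl rfl)
  have i2 := ind j jJ j' jJ' hne _ _ (Or.inl rfl) (Or.inr rfl)
  have i3 := ind j jJ j' jJ' hne _ _ (Or.inr rfl) (Or.inl rfl)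
  have i4 := ind j jJ j' jJ' hne _ _ (Or.inr rfl) (Or.inr rfl)
  rcases hty with h | h | h
  · obtain ⟨-, a, -, -, ha, -⟩ := ht j'
    have f1 := cross_ful (hx j) (hy j) ox' (nx j) ny (ht j) (h j).1 i1 i3
    have f2 := cross_ful (hx j) (hy j) oy' (nx j) ny (ht j) (h j).1 i2 i4
    have f3 := cross_ful (hy j) (hx j) ox' ny (nx j) (ht j).symm (h j).2 i3 i1
    have f4 := cross_ful (hy j) (hx j) oy' ny (nx j) (ht j).symm (h j).2 i4 i2
    exact all_ful (hx j) (hy j) ⟨s.T_Om a _ (hx j'), nx j' a⟩ oy' (nx j) ny (ht j) ha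
      (fun i => f1.all _ _) f2 (fun i => f3.all _ _) f4
  · exact lin_full (hx j) (hy j) oy' (nx j) ny (ht j)
      (cross_ful (hx j) (hy j) oy' (nx j) ny (ht j) (h j).1 i2 i4)
      (i4.resolve_right (II_not_ful (h _).2 (h _).2))
  · have e1 := i1.resolve_right (II_not_ful (h _).1 (h _).1)
    have e3 := i3.resolve_right (II_not_ful (h _).2 (h _).1)
    obtain ⟨x0, h0⟩ := s.G.min_miss _ ((orb_fin (s := s) (x j)).union (orb_fin (s := s) (y j)))
      ⟨_, Or.inl ⟨0, rfl⟩⟩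
      (by rintro _ (⟨i, rfl⟩ | ⟨i, rfl⟩); exacts [s.T_Om _ _ (hx j), s.T_Om _ _ (hy j)])
      (by rintro _ (⟨i, rfl⟩ | ⟨i, rfl⟩); exacts [nx j i, ny i]) _ ox'.1 ox'.2
      (by rintro _ (⟨i, rfl⟩ | ⟨i, rfl⟩); exacts [e1.all0 i, e3.all0 i])
    exact II_min (h j).1 (h j).2 (ht j) h0

end Setup

end Pool.Agent.P.MP_f0827e_co
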