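import Mathlib
import Pool.Agent.P.MP_f0827e_co.Main3

set_option linter.unusedSectionVars false

namespace Pool.Agent.P.MP_f0827e_co

namespace Setup

variable {V W : Type} {q : ℕ} [Fact q.Prime] {s : Setup V W q} [Finite W]

/-- no thick pair -/
def NT (s : Setup V W q) : Prop := ∀ x ∈ s.Om, ∀ y ∈ s.Om, ¬ s.Thick x y

theorem two_ne (s : Setup V W q) : (2 : ZMod q) ≠ 0 := by
  have := s.cast_ne (a := 2) (b := 0) (by norm_num) (by norm_num) (by norm_num)
  simpa using this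

theorem not_com_self {x : V} {c : ZMod q} : ¬ s.CoM (s.T c x) x := by
  intro h
  have h1 := h 0
  have h2 := h (-c - c)
  rw [s.TT] at h1 h2
  rw [M_swap] at h2
  simp only [zero_add, ne_eq, not_true_eq_false, iff_false] at h1
  rw [show -(-c - c + c) = c by ring] at h2
  have h3 : -c - c = 0 := by
    by_contra hc
    exact h1 (h2.mpr hc)
  have h4 : c = 0 := by
    have : (2 : ZMod q) * c = 0 := by linear_combination -h3
    exact (mul_eq_zero.mp this).resolve_left s.two_ne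
  subst h4
  rw [s.T_zero] at h1
  exact h1 (s.M_refl x)

theorem NT.IK (h : s.NT) {x : V} (hx : x ∈ s.Om) : s.IsI x ∨ s.IsK x := by
  by_cases hK : s.IsK x
  · exact Or.inr hK
  left
  have hn : s.Non x x := ⟨fun e => e 0 (by rw [s.T_zero]; exact s.M_refl x), hK⟩
  rcases hn.cases with t | ⟨c, t | t⟩
  · exact absurd t (h x hx x hx)
  · have h0 := (t (-c)).mp (by rw [s.TT, neg_add_cancel, s.T_zero]; exact s.M_refl x)
    have : c = 0 := neg_eq_zero.mp h0
    subst this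
    rw [s.T_zero] at t
    exact fun i hi => (t i).mp hi
  · exact absurd t not_com_self

theorem NT.II_le1 (h : s.NT) {x y : V} (hx : x ∈ s.Om) (hy : y ∈ s.Om) (ix : s.IsI x)
    (iy : s.IsI y) {i j : ZMod q} (hi : s.M (s.T i x) y) (hj : s.M (s.T j x) y) : i = j := by
  have hn : s.Non x y := ⟨fun e => e i hi, II_not_ful ix iy⟩
  rcases hn.cases with t | ⟨c, t | t⟩
  · exact absurd t (h x hx y hy)
  · have h1 := (t (i - c)).mp (by rwa [s.TT, sub_add_cancel])
    have h2 := (t (j - c)).mp (by rwa [s.TT, sub_add_cancel])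
    linear_combination h1 - h2
  · exact absurd t (II_not_com (isI_shift.mpr ix) iy)

theorem o_II {a a' z1 z2 : V} (ha : s.OK a) (ha' : s.OK a') (h1 : s.OK z1) (h2 : s.OK z2)
    (hm : s.M a a') (n1 : ¬ s.M a z1) (n2 : ¬ s.M a z2) (n3 : ¬ s.M a' z1) (n4 : ¬ s.M a' z2) :
    sb (s.G.T z1) (s.G.T a) (s.G.T z2) ↔ sb (s.G.T z1) (s.G.T a') (s.G.T z2) := by
  rcases mM ha ha' hm with e | e
  · exact (side_II (s.G.T_lt _) (s.G.T_lt _) (s.G.T_lt _) (s.G.T_lt _) e (nM ha' h1 n3).2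
      (nM ha' h2 n4).2).symm
  · exact side_II (s.G.T_lt _) (s.G.T_lt _) (s.G.T_lt _) (s.G.T_lt _) e (nM ha h1 n1).2
      (nM ha h2 n2).2

theorem o_IKI {x a a' z1 z2 : V} (hx : s.OK x) (ha : s.OK a) (ha' : s.OK a') (h1 : s.OK z1)
    (h2 : s.OK z2) (m1 : ¬ s.M x a) (m2 : ¬ s.M x a') (m3 : s.M x z1) (m4 : s.M x z2)
    (n1 : ¬ s.M a z1) (n2 : ¬ s.M a z2) (n3 : ¬ s.M a' z1) (n4 : ¬ s.M a' z2) :
    sb (s.G.T z1) (s.G.T a) (s.G.T z2) ↔ sb (s.G.T z1) (s.G.T a') (s.G.T z2) :=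
  side_IKI (s.G.T_lt x) (s.G.T_lt _) (s.G.T_lt _) (s.G.T_lt _) (s.G.T_lt _)
    (nM hx ha m1).2 (nM hx ha' m2).2 (mM hx h1 m3) (mM hx h2 m4)
    (nM ha h1 n1).1 (nM ha' h1 n3).1 (nM ha h2 n2).1 (nM ha' h2 n4).1
    (nM ha h1 n1).2 (nM ha' h1 n3).2 (nM ha h2 n2).2 (nM ha' h2 n4).2

theorem top_ne_of_nM {a b : V} (ha : s.OK a) (hb : s.OK b) (h : ¬ s.M a b) :
    s.G.T a ≠ s.G.T b := fun e => (nM ha hb h).1 (by
  have := (has_mm hb hb).mp (s.G.has_self b)
  unfold mm at *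
  rwa [e])

theorem spread {x y : V} (hx : x ∈ s.Om) (hy : y ∈ s.Om) (kx : s.IsK x) (iy : s.IsI y)
    (hc : s.CoM x y) (w : ZMod q → V) (hw : ∀ i, s.OK (w i)) (hww : ∀ i j, s.M (w i) (w j))
    (hwx : ∀ i, ¬ s.M (s.T i x) (w i)) (F : Finset (ZMod q)) (hF : F.card ≤ 1)
    (hwy : ∀ i j, s.M (s.T j y) (w i) → j ∈ F) : False := by
  classical
  have nx := nonI_np kx.not_isI hc.non
  obtain ⟨E, hE, hE'⟩ := few_of_np nx hc.non
  have hb := s.big1
  obtain ⟨i, hi⟩ := exists_avoid (E ∪ F) {((0 : ℕ) : ZMod q), ((1 : ℕ) : ZMod q), ((2 : ℕ) : ZMod q)} (by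
    have h1 := Finset.card_union_le E F
    have h2 : ({((0 : ℕ) : ZMod q), ((1 : ℕ) : ZMod q), ((2 : ℕ) : ZMod q)} :
      Finset (ZMod q)).card ≤ 3 := Finset.card_le_three
    calc _ ≤ 3 * (Nat.card W + 1) := Nat.mul_le_mul h2 (by omega)
      _ < q := by omega)
  have key : ∀ a b c : ZMod q, a ∉ E ∪ F → b ∉ E ∪ F → c ∉ E ∪ F → a ≠ b → b ≠ c →
      sb (s.G.T (s.T a y)) (s.G.T (s.T b y)) (s.G.T (s.T c y)) →
      sb (s.G.T (s.T a y)) (s.G.T (w 0)) (s.G.T (s.T c y)) := by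
    intro a b c ha hb hc' ab bc h
    have oy : ∀ j, j ∉ E ∪ F → s.OK (s.T j y) := fun j hj =>
      ⟨s.T_Om _ _ hy, fun e => hj (Finset.mem_union_left _ (hE' j e))⟩
    have wy : ∀ j, j ∉ E ∪ F → ∀ i, ¬ s.M (w i) (s.T j y) := fun j hj i e =>
      hj (Finset.mem_union_right _ (hwy i j (s.M_symm e)))
    rw [← o_II (hw b) (hw 0) (oy a ha) (oy c hc') (hww _ _) (wy a ha _) (wy c hc' _)
      (wy a ha _) (wy c hc' _),
      ← o_IKI (x := s.T b x) ⟨s.T_Om _ _ hx, nx b⟩ (oy b hb) (hw b) (oy a ha) (oy c hc')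
        (fun e => (hc.all _ _).mp e rfl) (hwx b) ((hc.all _ _).mpr ab.symm)
        ((hc.all _ _).mpr bc) (fun e => ab (iy.all e).symm) (fun e => bc (iy.all e))
        (wy a ha _) (wy c hc' _)]
    exact h
  have a0 := hi ((0 : ℕ) : ZMod q) (by simp)
  have a1 := hi ((1 : ℕ) : ZMod q) (by simp)
  have a2 := hi ((2 : ℕ) : ZMod q) (by simp)
  have e01 : i + ((0 : ℕ) : ZMod q) ≠ i + ((1 : ℕ) : ZMod q) := fun e =>
    s.cast_ne (by norm_num) (by norm_num) (by norm_num) (add_left_cancel e)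
  have e12 : i + ((1 : ℕ) : ZMod q) ≠ i + ((2 : ℕ) : ZMod q) := fun e =>
    s.cast_ne (by norm_num) (by norm_num) (by norm_num) (add_left_cancel e)
  have e02 : i + ((0 : ℕ) : ZMod q) ≠ i + ((2 : ℕ) : ZMod q) := fun e =>
    s.cast_ne (by norm_num) (by norm_num) (by norm_num) (add_left_cancel e)
  generalize i + ((0 : ℕ) : ZMod q) = a at *
  generalize i + ((1 : ℕ) : ZMod q) = b at *
  generalize i + ((2 : ℕ) : ZMod q) = c at *
  have oy : ∀ j, j ∉ E ∪ F → s.OK (s.T j y) := fun j hj =>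
    ⟨s.T_Om _ _ hy, fun e => hj (Finset.mem_union_left _ (hE' j e))⟩
  have tn : ∀ a b, a ∉ E ∪ F → b ∉ E ∪ F → a ≠ b → s.G.T (s.T a y) ≠ s.G.T (s.T b y) :=
    fun a b ha hb ab => top_ne_of_nM (oy a ha) (oy b hb) fun e => ab (iy.all e)
  have fin : ∀ a b c u : ℕ, sb a b c → sb a u c → sb b u a → sb c u b → False := by
    intro a b c u h1 h2 h3 h4
    unfold sb at *
    omega
  rcases sb_total (tn a b a0 a1 e01) (tn b c a1 a2 e12) (tn a c a0 a2 e02) with h | h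
  · exact fin _ _ _ _ h (key a b c a0 a1 a2 e01 e12 h) (key b c a a1 a2 a0 e12 e02.symm (sb_rot h))
      (key c a b a2 a0 a1 e02.symm e01 (sb_rot (sb_rot h)))
  · exact fin _ _ _ _ h (key a c b a0 a2 a1 e02 e12.symm h)
      (key c b a a2 a1 a0 e12.symm e01.symm (sb_rot h))
      (key b a c a1 a0 a2 e01.symm e02 (sb_rot (sb_rot h)))

theorem noIKK {x y w : V} (hx : x ∈ s.Om) (hy : y ∈ s.Om) (hw : w ∈ s.Om) (kx : s.IsK x)
    (iy : s.IsI y) (kw : s.IsK w) (hc : s.CoM x y) (hc' : s.CoM x w) : False := by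
  classical
  have : NeZero q := ⟨(Fact.out : q.Prime).ne_zero⟩
  have nw := nonI_np kw.not_isI hc'.symm.non
  have he : s.Emp w y := by
    intro i0 hi0
    let D : Finset (ZMod q) := Finset.univ.filter fun i => s.M (s.T i w) y
    refine kp' (y := y) kw D (fun i => by simp [D]) ⟨i0, by simpa [D] using hi0⟩ ?_
    have h1 : (D.erase 0).card ≤ 2 := by
      by_contra hc2
      obtain ⟨a, b, c, ha, hb, hc3, ab, ac, bc⟩ := Finset.two_lt_card_iff.mp (not_le.mp hc2)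
      have f1 : ∀ a ∈ D.erase 0, s.M (s.T (-a) y) x := fun a ha =>
        (hc.symm _).mpr (neg_ne_zero.mpr (Finset.mem_erase.mp ha).1)
      have f2 : ∀ a ∈ D.erase 0, s.M (s.T (-a) y) w := fun a ha =>
        (M_swap _ _ _).mp (Finset.mem_filter.mp (Finset.mem_erase.mp ha).2).2
      refine k23 (s := s) (z := x) (z' := w) (fun e => ?_) (f1 a ha) (f2 a ha) (f1 b hb) (f2 b hb)
        (f1 c hc3) (f2 c hc3) (fun e => ab (neg_injective (iy.all e)))
        (fun e => ac (neg_injective (iy.all e))) (fun e => bc (neg_injective (iy.all e)))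
      exact (hc' 0).mp (by rwa [s.T_zero]) rfl
    have h2 := Finset.pred_card_le_card_erase (s := D) (a := 0)
    omega
  exact spread hx hy kx iy hc (fun i => s.T i w) (fun i => ⟨s.T_Om _ _ hw, nw i⟩)
    (fun i j => Ful.all kw i j) (fun i e => (hc'.all _ _).mp e rfl) ∅ (by simp)
    (fun i j e => absurd (s.M_symm e) (he.all _ _))

theorem NT.not_emp (h : s.NT) {x y w : V} (hx : x ∈ s.Om) (hy : y ∈ s.Om) (hw : w ∈ s.Om)
    (kx : s.IsK x) (iy : s.IsI y) (iw : s.IsI w) (hc : s.CoM x y)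
    (hn : ∃ i, ¬ s.G.pend (s.T i w)) : ¬ s.Emp x w := by
  classical
  have : NeZero q := ⟨(Fact.out : q.Prime).ne_zero⟩
  obtain ⟨i0, hi0⟩ := hn
  intro he
  refine spread hx hy kx iy hc (fun _ => s.T i0 w) (fun _ => ⟨s.T_Om _ _ hw, hi0⟩)
    (fun _ _ => s.M_refl _) (fun i => he.all _ _)
    (Finset.univ.filter fun j => s.M (s.T j y) (s.T i0 w)) ?_ (fun i j e => by simpa using e)
  refine Finset.card_le_one.mpr fun a ha b hb => ?_
  exact h.II_le1 hy (s.T_Om _ _ hw) iy (isI_shift.mpr iw) (Finset.mem_filter.mp ha).2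
    (Finset.mem_filter.mp hb).2

/-- a shortest closed walk of matchings -/
structure Cyc (s : Setup V W q) (k : ℕ) (η : ZMod q) (v : ℤ → V) : Prop where
  k3 : 3 ≤ k
  e0 : η ≠ 0
  om : ∀ a, v a ∈ s.Om
  per : ∀ a, v (a + k) = s.T η (v a)
  lam : ∀ a, s.Mat (v a) (v (a + 1)) ∨ s.CoM (v a) (v (a + 1))
  far : ∀ a b : ℤ, a + 2 ≤ b → b + 2 ≤ a + k → s.Emp (v a) (v b) ∨ s.Ful (v a) (v b)

namespace Cyc

variable {k : ℕ} {η : ZMod q} {v : ℤ → V}

theorem shift (h : s.Cyc k η v) (c : ℤ) : s.Cyc k η fun a => v (a + c) where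
  k3 := h.k3
  e0 := h.e0
  om := fun _ => h.om _
  per := fun a => by rw [← h.per, add_right_comm]
  lam := fun a => by rw [add_right_comm]; exact h.lam _
  far := fun a b h1 h2 => h.far _ _ (by omega) (by omega)

theorem per_mul (h : s.Cyc k η v) (a m : ℤ) : v (a + m * k) = s.T (m * η) (v a) := by
  induction m using Int.induction_on with
  | zero => simp [s.T_zero]
  | succ m ih =>
    rw [show a + ((m : ℤ) + 1) * k = a + m * k + k by ring, h.per, ih, s.TT]
    congr 1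
    push_cast
    ring
  | pred m ih =>
    have := h.per (a + (-(m : ℤ) - 1) * k)
    rw [show a + (-(m : ℤ) - 1) * k + k = a + (-m) * k by ring, ih] at this
    have h2 := congrArg (s.T (-η)) this
    rw [s.TT, s.TT, neg_add_cancel, s.T_zero] at h2
    rw [← h2]
    congr 1
    push_cast
    ring

theorem pos (h : s.Cyc k η v) (a b : ℤ) :
    (∃ m : ℤ, b = a + m * k ∨ b = a + 1 + m * k ∨ b = a - 1 + m * k) ∨
      s.Emp (v a) (v b) ∨ s.Ful (v a) (v b) := by
  have k3 := h.k3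
  have k0 : (0 : ℤ) < k := by omega
  have e1 := Int.emod_add_mul_ediv (b - a) k
  have e2 := Int.emod_nonneg (b - a) k0.ne'
  have e3 := Int.emod_lt_of_pos (b - a) k0
  generalize (b - a) % k = r at *
  generalize (b - a) / k = m at *
  by_cases r0 : r = 0
  · exact Or.inl ⟨m, Or.inl (by linear_combination -e1 + r0)⟩
  by_cases r1 : r = 1
  · exact Or.inl ⟨m, Or.inr (Or.inl (by linear_combination -e1 + r1))⟩
  by_cases r2 : r = k - 1
  · exact Or.inl ⟨m + 1, Or.inr (Or.inr (by linear_combination -e1 + r2))⟩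
  right
  have := h.far a (a + r) (by omega) (by omega)
  rw [show b = a + r + m * k by linear_combination -e1, h.per_mul]
  rw [← s.T_zero (v a), emp_shift, ful_shift, ]
  exact this

theorem isI_per (h : s.Cyc k η v) (a m : ℤ) : s.IsI (v (a + m * k)) ↔ s.IsI (v a) := by
  rw [h.per_mul, isI_shift]

theorem isK_per (h : s.Cyc k η v) (a m : ℤ) : s.IsK (v (a + m * k)) ↔ s.IsK (v a) := by
  rw [h.per_mul, isK_shift]

theorem lam' (h : s.Cyc k η v) (a : ℤ) : s.Mat (v a) (v (a - 1)) ∨ s.CoM (v a) (v (a - 1)) := by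
  have := h.lam (a - 1)
  rw [sub_add_cancel] at this
  exact this.imp Mat.symm CoM.symm

theorem K_next (h : s.Cyc k η v) {a : ℤ} (ha : s.IsK (v a)) : s.CoM (v a) (v (a + 1)) :=
  (h.lam a).resolve_left (K_not_mat ha)

theorem K_prev (h : s.Cyc k η v) {a : ℤ} (ha : s.IsK (v a)) : s.CoM (v a) (v (a - 1)) :=
  (h.lam' a).resolve_left (K_not_mat ha)

theorem K_np (h : s.Cyc k η v) {a : ℤ} (ha : s.IsK (v a)) : s.NP (v a) :=
  nonI_np ha.not_isI (h.K_next ha).non

theorem N1 (h : s.Cyc k η v) {a b : ℤ} {i i' : ZMod q} (ha : s.IsI (v a)) (hb : s.IsI (v b))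
    (hm : s.M (s.T i (v a)) (s.T i' (v b))) :
    ∃ m : ℤ, (b = a + m * k ∨ b = a + 1 + m * k ∨ b = a - 1 + m * k) ∧ i = i' + m * η := by
  rcases h.pos a b with ⟨m, e⟩ | e | e
  · refine ⟨m, e, ?_⟩
    rcases e with e | e | e
    · rw [e, h.per_mul, s.TT] at hm
      exact ha.all hm
    · rw [e, h.isI_per] at hb
      rw [e, h.per_mul, s.TT] at hm
      exact (((h.lam a).resolve_right (II_not_com ha hb)).all _ _).mp hm
    · rw [e, h.isI_per] at hb
      rw [e, h.per_mul, s.TT] at hm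
      exact (((h.lam' a).resolve_right (II_not_com ha hb)).all _ _).mp hm
  · exact absurd hm (e.all _ _)
  · exact absurd e (II_not_ful ha hb)

theorem N2 (h : s.Cyc k η v) {a b : ℤ} {i i' : ZMod q} (ha : s.IsK (v a))
    (hb : ¬ s.Emp (v a) (v b)) (hm : ¬ s.M (s.T i (v a)) (s.T i' (v b))) :
    ∃ m : ℤ, (b = a + 1 + m * k ∨ b = a - 1 + m * k) ∧ i = i' + m * η := by
  rcases h.pos a b with ⟨m, e | e⟩ | e | e
  · rw [e, h.per_mul, s.TT] at hm
    exact absurd (Ful.all ha _ _) hm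
  · refine ⟨m, e, ?_⟩
    by_contra hne
    rcases e with e | e
    · rw [e, h.per_mul, s.TT] at hm
      exact hm (((h.K_next ha).all _ _).mpr hne)
    · rw [e, h.per_mul, s.TT] at hm
      exact hm (((h.K_prev ha).all _ _).mpr hne)
  · exact absurd e hb
  · exact absurd (e.all _ _) hm

theorem noKK (h : s.Cyc k η v) (nt : s.NT) (hI : ∃ b, s.IsI (v b)) {a : ℤ} (h1 : s.IsK (v a))
    (h2 : s.IsK (v (a + 1))) : False := by
  have key : ∀ t : ℕ, s.IsK (v (a - t)) ∧ s.IsK (v (a - t + 1)) := by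
    intro t
    induction t with
    | zero => simpa using ⟨h1, h2⟩
    | succ t ih =>
      have e : a - ((t + 1 : ℕ) : ℤ) = a - t - 1 := by push_cast; ring
      rw [e, sub_add_cancel]
      refine ⟨(nt.IK (h.om _)).resolve_left fun hi => ?_, ih.1⟩
      exact noIKK (h.om _) (h.om _) (h.om _) ih.1 hi ih.2 (h.K_prev ih.1) (h.K_next ih.1)
  obtain ⟨b, hb⟩ := hI
  have k3 := h.k3
  have e : ∃ t : ℕ, a - t = b + (-|a - b|) * k := by
    refine ⟨(a - b + |a - b| * k).toNat, ?_⟩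
    have h3 := neg_abs_le (a - b)
    have h4 : |a - b| * 1 ≤ |a - b| * k :=
      mul_le_mul_of_nonneg_left (by omega) (abs_nonneg _)
    rw [Int.toNat_of_nonneg (by omega)]
    ring
  obtain ⟨t, ht⟩ := e
  have := (key t).1
  rw [ht, h.isK_per] at this
  exact this.not_isI hb

end Cyc

end Setup

end Pool.Agent.P.MP_f0827e_co
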