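import Mathlib
import Pool.Agent.P.MP_f0827e_co.Main4

set_option linter.unusedSectionVars false

namespace Pool.Agent.P.MP_f0827e_co

theorem small_mul {m : ℤ} {k : ℕ} {c : ℕ} (k3 : 3 ≤ k) (h1 : m * k < (c + 1) * k)
    (h2 : -((c + 1 : ℤ) * k) < m * k) : -(c : ℤ) ≤ m ∧ m ≤ c := by
  have k0 : (0 : ℤ) < k := by omega
  have a := lt_of_mul_lt_mul_right h1 k0.le
  have b : -(c + 1 : ℤ) < m := lt_of_mul_lt_mul_right (a := (k : ℤ)) (by linarith) k0.le
  omega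

namespace Setup

variable {V W : Type} {q : ℕ} [Fact q.Prime] {s : Setup V W q} [Finite W]

/-- label of a place where the walk leaves the cycle -/
def Lb (s : Setup V W q) (v : ℤ → V) (i : ZMod q) (j : ℤ) (l : W × Bool) : Prop :=
  (l.2 = true ∧ s.IsI (v j) ∧ s.G.att (s.T i (v j)) l.1) ∨
    (l.2 = false ∧ s.IsK (v j) ∧ s.G.pend (s.T i (v (j + 1))) ∧ s.G.sg (s.T i (v (j + 1))) = l.1)

namespace Cyc

variable {k : ℕ} {η : ZMod q} {v : ℤ → V}

theorem window (h : s.Cyc k η v) (b j : ℤ) : ∃ m : ℤ, j - k ≤ b + m * k ∧ b + m * k < j := by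
  have k3 := h.k3
  have k0 : (0 : ℤ) < k := by omega
  have e1 := Int.emod_add_mul_ediv (j - k - b - 1) k
  have e2 := Int.emod_nonneg (j - k - b - 1) k0.ne'
  have e3 := Int.emod_lt_of_pos (j - k - b - 1) k0
  refine ⟨(j - k - b - 1) / k + 1, ?_, ?_⟩ <;> nlinarith

theorem allI_np (h : s.Cyc k η v) (hI : ∀ a, s.IsI (v a)) (a : ℤ) : s.NP (v a) := by
  have : NeZero q := ⟨(Fact.out : q.Prime).ne_zero⟩
  intro i hi
  let Z : Set V := (fun p : ZMod q × ℤ => s.T p.1 (v p.2)) '' (Set.univ ×ˢ Set.Ico (0 - k : ℤ) 0)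
  have hZ : Z.Finite := (Set.finite_univ.prod (Set.finite_Ico _ _)).image _
  have mZ : ∀ i a, s.T i (v a) ∈ Z := fun i a => by
    obtain ⟨m, h1, h2⟩ := h.window a 0
    refine ⟨(i - m * η, a + m * k), ⟨trivial, h1, h2⟩, ?_⟩
    simp only [h.per_mul, s.TT, sub_add_cancel]
  obtain ⟨x0, h0, -⟩ := s.G.min_pend Z hZ ⟨_, mZ i a, hi⟩
  obtain ⟨⟨c, b⟩, -, rfl⟩ := s.G.min_mem _ _ h0
  have m1 := (h.lam b).resolve_right (II_not_com (hI _) (hI _))
  have m2 := (h.lam' b).resolve_right (II_not_com (hI _) (hI _))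
  have e1 := s.G.min_has _ _ h0 _ (mZ c (b + 1)) ((m1.symm.all _ _).mpr rfl)
  have e2 := s.G.min_has _ _ h0 _ (mZ c (b - 1)) ((m2.symm.all _ _).mpr rfl)
  obtain ⟨m, e3, e4⟩ := h.N1 (hI _) (hI _) (s.G.has_M _ _ _ e2 e1)
  have k3 := h.k3
  have e5 := small_mul (m := m) (c := 1) k3 (by push_cast; omega) (by push_cast; omega)
  have e6 : m = 1 := by
    rcases (by omega : m = -1 ∨ m = 0 ∨ m = 1) with rfl | rfl | rfl
    · omega
    · omega
    · rfl
  subst e6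
  exact h.e0 (by simpa using e4)

theorem lab_ex (h : s.Cyc k η v) (nt : s.NT) {i : ZMod q} {j : ℤ}
    (hp : s.G.pend (s.T i (v j))) : ∃ j' l, j - k ≤ j' ∧ j' < j ∧ s.Lb v i j' l := by
  have h1 : ∃ j', j' < j ∧ j - k ≤ j' ∧ ¬ s.G.pend (s.T i (v j')) := by
    by_cases hI : ∀ a, s.IsI (v a)
    · exact absurd hp (h.allI_np hI j i)
    · push Not at hI
      obtain ⟨b, hb⟩ := hI
      obtain ⟨m, h1, h2⟩ := h.window b j
      exact ⟨_, h2, h1, h.K_np ((h.isK_per _ _).mpr ((nt.IK (h.om b)).resolve_left hb)) i⟩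
  obtain ⟨j', ⟨a1, a2, a3⟩, a4⟩ := Int.exists_greatest_of_bdd
    (P := fun j' => j' < j ∧ j - k ≤ j' ∧ ¬ s.G.pend (s.T i (v j')))
    ⟨j, fun z hz => hz.1.le⟩ h1
  have a5 : s.G.pend (s.T i (v (j' + 1))) := by
    by_contra hc
    rcases (by omega : j' + 1 = j ∨ j' + 1 < j) with e | e
    · exact hc (e ▸ hp)
    · have := a4 (j' + 1) ⟨e, by omega, hc⟩
      omega
  rcases nt.IK (h.om j') with hI | hK
  · have hI' : s.IsI (v (j' + 1)) := (nt.IK (h.om _)).resolve_right fun e => h.K_np e i a5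
    have m1 := (h.lam j').resolve_right (II_not_com hI hI')
    obtain ⟨w, hw⟩ := s.G.att_ex _ _ a3 a5 ((m1.all i i).mpr rfl)
    exact ⟨j', (w, true), a2, a1, Or.inl ⟨rfl, hI, hw⟩⟩
  · exact ⟨j', (_, false), a2, a1, Or.inr ⟨rfl, hK, a5, rfl⟩⟩

theorem next_I (h : s.Cyc k η v) (nt : s.NT) (hI : ∃ b, s.IsI (v b)) {a : ℤ}
    (ha : s.IsK (v a)) : s.IsI (v (a + 1)) :=
  (nt.IK (h.om _)).resolve_right (h.noKK nt hI ha)

theorem next_np (h : s.Cyc k η v) {a : ℤ} (ha : s.IsK (v a)) :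
    ∃ i, ¬ s.G.pend (s.T i (v (a + 1))) :=
  (few_of_np (h.K_np ha) (h.K_next ha).non).exists_np (by have := s.big1; omega)

theorem K_not_emp (h : s.Cyc k η v) (nt : s.NT) (hI : ∃ b, s.IsI (v b)) {a : ℤ}
    (ha : s.IsK (v a)) {w : V} (hw : w ∈ s.Om) (iw : s.IsI w)
    (hn : ∃ i, ¬ s.G.pend (s.T i w)) : ¬ s.Emp (v a) w :=
  nt.not_emp (h.om _) (h.om _) hw ha (h.next_I nt hI ha) iw (h.K_next ha) hn

theorem lab_same (h : s.Cyc k η v) (nt : s.NT) (hI : ∃ b, s.IsI (v b)) {i i' : ZMod q}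
    {j j' : ℤ} {l : W × Bool} (h1 : s.Lb v i j l) (h2 : s.Lb v i' j' l) :
    ∃ m d : ℤ, -2 ≤ d ∧ d ≤ 2 ∧ j' = j + d + m * k ∧ i = i' + m * η := by
  have aux : ∀ {i i' : ZMod q} {j j' : ℤ}, s.IsK (v j) → s.IsK (v j') →
      (∀ x, ¬ s.G.pend x → s.M x (s.T i (v (j + 1))) → s.M x (s.T i' (v (j' + 1)))) →
      ∃ m d : ℤ, -2 ≤ d ∧ d ≤ 2 ∧ j = j' + d + m * k ∧ i' = i + m * η := by
    intro i i' j j' k1 k2 hh
    have e1 : ¬ s.M (s.T i' (v j')) (s.T i (v (j + 1))) := fun e =>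
      ((h.K_next k2).all i' i').mp (hh _ (h.K_np k2 i') e) rfl
    obtain ⟨m, e2 | e2, e3⟩ := h.N2 k2
      (h.K_not_emp nt hI k2 (h.om _) (h.next_I nt hI k1) (h.next_np k1)) e1
    · exact ⟨m, 0, by omega, by omega, by omega, e3⟩
    · exact ⟨m, -2, by omega, by omega, by omega, e3⟩
  rcases h1 with ⟨a1, a2, a3⟩ | ⟨a1, a2, a3, a4⟩ <;> rcases h2 with ⟨b1, b2, b3⟩ | ⟨b1, b2, b3, b4⟩
  · obtain ⟨m, e | e | e, e'⟩ := h.N1 a2 b2 (s.G.att_M _ _ _ a3 b3)
    · exact ⟨m, 0, by omega, by omega, by omega, e'⟩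
    · exact ⟨m, 1, by omega, by omega, by omega, e'⟩
    · exact ⟨m, -1, by omega, by omega, by omega, e'⟩
  · simp [a1] at b1
  · simp [a1] at b1
  · rcases s.G.nest _ _ a3 b3 (a4.trans b4.symm) with e | e
    · obtain ⟨m, d, e1, e2, e3, e4⟩ := aux a2 b2 e
      refine ⟨-m, -d, by omega, by omega, by linear_combination -e3, ?_⟩
      push_cast
      linear_combination -e4
    · exact aux b2 a2 e

theorem few_bad (h : s.Cyc k η v) (nt : s.NT) (hI : ∃ b, s.IsI (v b)) :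
    ∃ E : Finset (ZMod q), E.card ≤ 10 * Nat.card W ∧
      ∀ i (j : ℤ), 0 ≤ j → j ≤ k → s.G.pend (s.T i (v j)) → i ∈ E := by
  classical
  have : NeZero q := ⟨(Fact.out : q.Prime).ne_zero⟩
  have := Fintype.ofFinite W
  let E : Finset (ZMod q) :=
    Finset.univ.filter fun i => ∃ j : ℤ, 0 ≤ j ∧ j ≤ k ∧ s.G.pend (s.T i (v j))
  refine ⟨E, ?_, fun i j a b c => by simp only [E, Finset.mem_filter]; exact ⟨by simp, j, a, b, c⟩⟩
  rcases E.eq_empty_or_nonempty with e | ⟨i0, hi0⟩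
  · simp [e]
  have hl : ∀ i ∈ E, ∃ l j, -(k : ℤ) ≤ j ∧ j < k ∧ s.Lb v i j l := fun i hi => by
    obtain ⟨j, a, b, c⟩ := (Finset.mem_filter.mp hi).2
    obtain ⟨j', l, a', b', c'⟩ := h.lab_ex nt c
    exact ⟨l, j', by omega, by omega, c'⟩
  obtain ⟨l0, -⟩ := hl i0 hi0
  have : Nonempty (W × Bool) := ⟨l0⟩
  choose! lab jj hl1 hl2 hl3 using hl
  have := Finset.card_le_mul_card_image (f := lab) E 5 (fun l hl => by
    obtain ⟨i, hi, rfl⟩ := Finset.mem_image.mp hl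
    refine le_trans (Finset.card_le_card (t := (Finset.Icc (-2 : ℤ) 2).image
      fun m : ℤ => i + m * η) fun i' hi' => ?_) (Finset.card_image_le.trans (by simp))
    obtain ⟨a, b⟩ := Finset.mem_filter.mp hi'
    obtain ⟨m, d, e1, e2, e3, e4⟩ := h.lab_same nt hI (hl3 i' a) (b ▸ hl3 i hi)
    have := hl1 i hi
    have := hl2 i hi
    have := hl1 i' a
    have := hl2 i' a
    have k3 := h.k3
    have e5 := small_mul (m := m) (c := 2) k3 (by push_cast; omega) (by push_cast; omega)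
    exact Finset.mem_image.mpr ⟨m, Finset.mem_Icc.mpr (by simpa using e5), e4.symm⟩)
  have h2 := Finset.card_le_univ (E.image lab)
  rw [Fintype.card_prod, Fintype.card_bool, ← Nat.card_eq_fintype_card] at h2
  omega

theorem walk (h : s.Cyc k η v) (nt : s.NT) (h0 : s.IsI (v 0)) (i : ZMod q)
    (hp : ∀ j : ℤ, 0 ≤ j → j ≤ k → ¬ s.G.pend (s.T i (v j))) {z1 z2 : V} (o1 : s.OK z1)
    (o2 : s.OK z2)
    (hI : ∀ j : ℤ, 0 ≤ j → j ≤ k → s.IsI (v j) →
      ¬ s.M (s.T i (v j)) z1 ∧ ¬ s.M (s.T i (v j)) z2)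
    (hK : ∀ j : ℤ, 0 ≤ j → j ≤ k → s.IsK (v j) → s.M (s.T i (v j)) z1 ∧ s.M (s.T i (v j)) z2)
    (h1 : sb (s.G.T (s.T i (v 0))) (s.G.T z1) (s.G.T (s.T (i + η) (v 0))))
    (h2 : sb (s.G.T (s.T (i + η) (v 0))) (s.G.T z2) (s.G.T (s.T i (v 0)))) : False := by
  have ok : ∀ j : ℤ, 0 ≤ j → j ≤ k → s.OK (s.T i (v j)) := fun j a b =>
    ⟨s.T_Om _ _ (h.om _), hp j a b⟩
  have key : ∀ t : ℕ, t ≤ k → s.IsI (v t) →
      (sb (s.G.T z1) (s.G.T (s.T i (v 0))) (s.G.T z2) ↔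
        sb (s.G.T z1) (s.G.T (s.T i (v t))) (s.G.T z2)) := by
    intro t
    induction t using Nat.strong_induction_on with
    | _ t ih =>
      intro ht it
      rcases t with _ | t
      · simp
      have c1 : ((t + 1 : ℕ) : ℤ) = t + 1 := by push_cast; ring
      have n2 := hI _ (by omega) (by omega) it
      rcases nt.IK (h.om t) with e | e
      · have n1 := hI t (by omega) (by omega) e
        rw [ih t (by omega) (by omega) e]
        refine o_II (ok _ (by omega) (by omega)) (ok _ (by omega) (by omega)) o1 o2 ?_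
          n1.1 n1.2 n2.1 n2.2
        rw [c1] at it ⊢
        exact (((h.lam t).resolve_right (II_not_com e it)).all _ _).mpr rfl
      · rcases t with _ | t
        · exact absurd h0 e.not_isI
        have c2 : ((t + 1 : ℕ) : ℤ) - 1 = t := by push_cast; ring
        have e' : s.IsI (v t) := (nt.IK (h.om _)).resolve_right fun e' =>
          h.noKK nt ⟨0, h0⟩ e' (by exact_mod_cast e)
        have n1 := hI t (by omega) (by omega) e'
        have n3 := hK _ (by omega) (by omega) e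
        rw [ih t (by omega) (by omega) e']
        refine o_IKI (ok ((t + 1 : ℕ) : ℤ) (by omega) (by omega)) (ok _ (by omega) (by omega))
          (ok _ (by omega) (by omega)) o1 o2 (fun a => ?_) (fun a => ?_) n3.1 n3.2
          n1.1 n1.2 n2.1 n2.2
        · rw [← c2] at a
          exact ((h.K_prev e).all _ _).mp a rfl
        · rw [c1] at a
          exact ((h.K_next e).all _ _).mp a rfl
  have e : v k = s.T η (v 0) := by rw [← h.per, zero_add]
  have := key k le_rfl (by rw [e]; exact isI_shift.mpr h0)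
  rw [e, s.TT] at this
  exact side_sep this h1 h2

theorem walk_own (h : s.Cyc k η v) (nt : s.NT) (h0 : s.IsI (v 0)) {i z : ZMod q}
    (hz : ¬ s.G.pend (s.T z (v 0))) (n1 : z ≠ i) (n2 : z ≠ i + η) (j : ℤ) (j0 : 0 ≤ j)
    (jk : j ≤ k) :
    (s.IsI (v j) → ¬ s.M (s.T i (v j)) (s.T z (v 0))) ∧
      (s.IsK (v j) → s.M (s.T i (v j)) (s.T z (v 0))) := by
  have k3 := h.k3
  have aux : ∀ m : ℤ, (0 = j + m * k ∨ 0 = j + 1 + m * k ∨ 0 = j - 1 + m * k) →
      i = z + m * η → False := by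
    intro m e1 e2
    have e5 := small_mul (m := m) (c := 1) k3 (by push_cast; omega) (by push_cast; omega)
    rcases (by omega : m = -1 ∨ m = 0 ∨ m = 1) with rfl | rfl | rfl
    · exact n2 (by push_cast at e2; linear_combination -e2)
    · exact n1 (by simpa using e2.symm)
    · omega
  constructor
  · intro ij hm
    obtain ⟨m, e1, e2⟩ := h.N1 ij h0 hm
    exact aux m e1 e2
  · intro kj
    by_contra hm
    obtain ⟨m, e1, e2⟩ := h.N2 kj (h.K_not_emp nt ⟨0, h0⟩ kj (h.om _) h0 ⟨z, hz⟩) hm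
    exact aux m (Or.inr e1) e2

theorem goodI0 (h : s.Cyc k η v) (nt : s.NT) (h0 : s.IsI (v 0)) :
    s.GoodV (10 * Nat.card W) (v 0) η := by
  obtain ⟨E, hE, hE'⟩ := h.few_bad nt ⟨0, h0⟩
  have p0 : ∀ i, i ∉ E → ¬ s.G.pend (s.T i (v 0)) := fun i hi e => hi (hE' i 0 le_rfl (by omega) e)
  have ok : ∀ i, i ∉ E → s.OK (s.T i (v 0)) := fun i hi => ⟨s.T_Om _ _ (h.om _), p0 i hi⟩
  refine ⟨E, hE, fun i hi => hE' i 0 le_rfl (by omega) hi, fun i j hi hj e => ?_,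
    fun i z1 z2 a1 _ a3 a4 _ _ a7 a8 => ?_⟩
  · by_contra hne
    exact top_ne_of_nM (ok i hi) (ok j hj) (fun e => hne (h0.all e)) e
  · obtain ⟨b1, b2, -⟩ := sb_ne a7
    obtain ⟨b3, b4, -⟩ := sb_ne a8
    have w1 := h.walk_own nt h0 (i := i) (p0 z1 a3) (fun e => b1 (by rw [e]))
      (fun e => b2 (by rw [e]))
    have w2 := h.walk_own nt h0 (i := i) (p0 z2 a4) (fun e => b4 (by rw [e]))
      (fun e => b3 (by rw [e]))
    exact h.walk nt h0 i (fun j a b e => a1 (hE' i j a b e)) (ok _ a3) (ok _ a4)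
      (fun j a b c => ⟨(w1 j a b).1 c, (w2 j a b).1 c⟩)
      (fun j a b c => ⟨(w1 j a b).2 c, (w2 j a b).2 c⟩) a7 a8

theorem goodI (h : s.Cyc k η v) (nt : s.NT) (hI : ∃ b, s.IsI (v b)) (a : ℤ) :
    s.GoodV (10 * Nat.card W) (v a) η := by
  have aux : ∀ a, s.IsI (v a) → s.GoodV (10 * Nat.card W) (v a) η := fun a ha => by
    have := (h.shift a).goodI0 nt (by simpa using ha)
    simpa using this
  rcases nt.IK (h.om a) with e | e
  · exact aux a e
  · exact GoodV.tr (C := 10 * Nat.card W) (C' := 0) (h.om _) (h.om _) (h.lam a) (aux _ (h.next_I nt hI e))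
      ((h.K_np e).few 0) (by omega)

end Cyc

theorem caseBI {ι : Type} (nt : s.NT) (J : Finset ι) (hJ : 2 * Nat.card W + 2 ≤ J.card) (k : ℕ)
    (η : ι → ZMod q) (v : ι → ℤ → V) (hc : ∀ j, s.Cyc k (η j) (v j))
    (hI : ∀ j, s.IsI (v j 0))
    (hsep : ∀ j ∈ J, ∀ j' ∈ J, j ≠ j' → ∀ c, Near (η j) c → Near (η j') c → False) : False := by
  classical
  have := Fintype.ofFinite W
  have hbig := s.big1
  have ind : ∀ j ∈ J, ∀ j' ∈ J, j ≠ j' → ∀ a b, s.Emp (v j a) (v j' b) ∨ s.Ful (v j a) (v j' b) :=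
    fun j hj j' hj' hne a b => indep (C := 10 * Nat.card W) (by omega) ((hc j).om _)
      ((hc j').om _) ((hc j).goodI nt ⟨0, hI j⟩ a) ((hc j').goodI nt ⟨0, hI j'⟩ b) (hc j).e0
      (hc j').e0 (hsep j hj j' hj' hne)
  have cII : ∀ j ∈ J, ∀ j' ∈ J, j ≠ j' → ∀ a b, s.IsI (v j a) → s.IsI (v j' b) →
      s.Emp (v j a) (v j' b) := fun j hj j' hj' hne a b ia ib =>
    (ind j hj j' hj' hne a b).resolve_right (II_not_ful ia ib)
  have cKI : ∀ j ∈ J, ∀ j' ∈ J, j ≠ j' → ∀ a b, s.IsK (v j a) → s.IsI (v j' b) →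
      (∃ i, ¬ s.G.pend (s.T i (v j' b))) → s.Ful (v j a) (v j' b) :=
    fun j hj j' hj' hne a b ia ib hn => (ind j hj j' hj' hne a b).resolve_left
      ((hc j).K_not_emp nt ⟨0, hI j⟩ ia ((hc j').om _) ib hn)
  let Pd : Finset ι := J.filter fun j => ∃ a i, s.G.pend (s.T i (v j a))
  have hPd : Pd.card ≤ 2 * Nat.card W := by
    rcases Pd.eq_empty_or_nonempty with e | ⟨j0, hj0⟩
    · simp [e]
    have hl : ∀ j ∈ Pd, ∃ l i a, s.Lb (v j) i a l := fun j hj => by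
      obtain ⟨a, i, c⟩ := (Finset.mem_filter.mp hj).2
      obtain ⟨j', l, -, -, c'⟩ := (hc j).lab_ex nt c
      exact ⟨l, i, j', c'⟩
    obtain ⟨l0, -⟩ := hl j0 hj0
    have : Nonempty (W × Bool) := ⟨l0⟩
    choose! lab ii aa hl using hl
    have h1 : Pd.card ≤ (Finset.univ : Finset (W × Bool)).card := by
      refine Finset.card_le_card_of_injOn lab (fun _ _ => by simp) fun j hj j' hj' he => ?_
      by_contra hne
      have jJ := (Finset.mem_filter.mp hj).1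
      have jJ' := (Finset.mem_filter.mp hj').1
      have aux : ∀ j ∈ J, ∀ j' ∈ J, j ≠ j' → ∀ a a' i i', s.IsK (v j a) → s.IsK (v j' a') →
          (∀ x, ¬ s.G.pend x → s.M x (s.T i (v j (a + 1))) → s.M x (s.T i' (v j' (a' + 1)))) →
          False := by
        intro j hj j' hj' hne a a' i i' k1 k2 hh
        have := cKI j' hj' j hj hne.symm _ _ k2 ((hc j).next_I nt ⟨0, hI j⟩ k1) ((hc j).next_np k1)
        exact (((hc j').K_next k2).all i' i').mp (hh _ ((hc j').K_np k2 i') (this.all _ _)) rfl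
      have l1 := hl j hj
      have l2 := hl j' hj'
      rw [← he] at l2
      rcases l1 with ⟨a1, a2, a3⟩ | ⟨a1, a2, a3, a4⟩ <;>
        rcases l2 with ⟨b1, b2, b3⟩ | ⟨b1, b2, b3, b4⟩
      · exact (cII j jJ j' jJ' hne _ _ a2 b2).all _ _ (s.G.att_M _ _ _ a3 b3)
      · simp [a1] at b1
      · simp [a1] at b1
      · rcases s.G.nest _ _ a3 b3 (a4.trans b4.symm) with e | e
        · exact aux j jJ j' jJ' hne _ _ _ _ a2 b2 e
        · exact aux j' jJ' j jJ (Ne.symm hne) _ _ _ _ b2 a2 e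
    rw [Finset.card_univ, Fintype.card_prod, Fintype.card_bool, ← Nat.card_eq_fintype_card] at h1
    omega
  have h2 : 1 < (J \ Pd).card := by
    have := Finset.card_sdiff_add_card_eq_card
      (Finset.filter_subset (fun j => ∃ a i, s.G.pend (s.T i (v j a))) J)
    simp only [Pd] at *
    omega
  obtain ⟨j, hj, j', hj', hne⟩ := Finset.one_lt_card.mp h2
  have jJ := (Finset.mem_sdiff.mp hj).1
  have jJ' := (Finset.mem_sdiff.mp hj').1
  have ny : ∀ a, s.NP (v j a) := fun a i e =>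
    (Finset.mem_sdiff.mp hj).2 (Finset.mem_filter.mpr ⟨jJ, a, i, e⟩)
  have ny' : ∀ a, s.NP (v j' a) := fun a i e =>
    (Finset.mem_sdiff.mp hj').2 (Finset.mem_filter.mpr ⟨jJ', a, i, e⟩)
  have ok : ∀ i, s.OK (s.T i (v j 0)) := fun i => ⟨s.T_Om _ _ ((hc j).om _), ny 0 i⟩
  have ou : s.OK (v j' 0) := ⟨(hc j').om _, by simpa [s.T_zero] using ny' 0 0⟩
  have cr : ∀ i a, (s.IsI (v j a) → ¬ s.M (s.T i (v j a)) (v j' 0)) ∧
      (s.IsK (v j a) → s.M (s.T i (v j a)) (v j' 0)) := fun i a =>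
    ⟨fun e => cII j jJ j' jJ' hne _ _ e (hI j') i,
      fun e => cKI j jJ j' jJ' hne _ _ e (hI j') ⟨0, ny' 0 0⟩ i⟩
  refine lin_contra s.G.N (fun i => s.G.T (s.T i (v j 0))) (fun i => s.G.T_lt _)
    (fun i i' e => ?_) (s.G.T (v j' 0)) (s.G.T_lt _)
    (fun i => top_ne_of_nM (ok i) ou ((cr i 0).1 (hI j))) (η j) (hc j).e0 (by omega)
    (fun i z _ a7 a8 => ?_) (fun i z _ a7 a8 => ?_)
  · by_contra hne
    exact top_ne_of_nM (ok i) (ok i') (fun e => hne ((hI j).all e)) e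
  · obtain ⟨b1, b2, -⟩ := sb_ne a7
    have w1 := (hc j).walk_own nt (hI j) (i := i) (ny 0 z) (fun e => b1 (by rw [e]))
      (fun e => b2 (by rw [e]))
    exact (hc j).walk nt (hI j) i (fun a _ _ => ny a i) (ok z) ou
      (fun a c d e => ⟨(w1 a c d).1 e, (cr i a).1 e⟩)
      (fun a c d e => ⟨(w1 a c d).2 e, (cr i a).2 e⟩) a7 a8
  · obtain ⟨b1, b2, -⟩ := sb_ne a8
    have w1 := (hc j).walk_own nt (hI j) (i := i) (ny 0 z) (fun e => b2 (by rw [e]))
      (fun e => b1 (by rw [e]))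
    exact (hc j).walk nt (hI j) i (fun a _ _ => ny a i) ou (ok z)
      (fun a c d e => ⟨(cr i a).1 e, (w1 a c d).1 e⟩)
      (fun a c d e => ⟨(cr i a).2 e, (w1 a c d).2 e⟩) a7 a8

end Setup

end Pool.Agent.P.MP_f0827e_co
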