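import Mathlib
import Pool.Agent.P.MP_f0827e_co.Main5

set_option linter.unusedSectionVars false

namespace Pool.Agent.P.MP_f0827e_co

namespace Setup

variable {V W : Type} {q : ℕ} [Fact q.Prime] {s : Setup V W q} [Finite W]

theorem com_nn {x y : V} (hx : x ∈ s.Om) (hy : y ∈ s.Om) (nx : s.NP x) (ny : s.NP y)
    (hc : s.CoM x y) {i j : ZMod q} (hij : i ≠ j) : s.NN (s.T i x) (s.T j x) :=
  nn_of_wit (x := s.T i y) ⟨s.T_Om _ _ hy, ny i⟩ ⟨s.T_Om _ _ hx, nx i⟩ ⟨s.T_Om _ _ hx, nx j⟩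
    ((hc.symm.all _ _).mpr hij) (fun e => (hc.symm.all _ _).mp e rfl)

theorem com_inj {x y : V} (hx : x ∈ s.Om) (hy : y ∈ s.Om) (nx : s.NP x) (ny : s.NP y)
    (hc : s.CoM x y) {i j : ZMod q} (e : s.G.T (s.T i x) = s.G.T (s.T j x)) : i = j := by
  by_contra hne
  exact (com_nn hx hy nx ny hc hne).top_ne (com_nn hx hy nx ny hc (Ne.symm hne)) e

theorem allK_prop {x y w z : V} (hx : x ∈ s.Om) (hy : y ∈ s.Om) (hw : w ∈ s.Om)
    (nx : s.NP x) (ny : s.NP y) (nw : s.NP w) (kw : s.IsK w) (c1 : s.CoM x y) (c2 : s.CoM y w)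
    (hz : s.OK z) (he : s.Emp x z) : s.Emp w z := by
  classical
  have : NeZero q := ⟨(Fact.out : q.Prime).ne_zero⟩
  have ox : ∀ i, s.OK (s.T i x) := fun i => ⟨s.T_Om _ _ hx, nx i⟩
  have oy : ∀ i, s.OK (s.T i y) := fun i => ⟨s.T_Om _ _ hy, ny i⟩
  have ow : ∀ i, s.OK (s.T i w) := fun i => ⟨s.T_Om _ _ hw, nw i⟩
  let f : ZMod q → ℕ := fun i => dl s.G.N (s.G.T z) (s.G.T (s.T i x))
  obtain ⟨a, -, ha⟩ := Finset.exists_min_image Finset.univ f Finset.univ_nonempty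
  obtain ⟨c, -, hc⟩ := Finset.exists_max_image Finset.univ f Finset.univ_nonempty
  have finj : ∀ i j, f i = f j → i = j := fun i j e =>
    com_inj hx hy nx ny c1 (dl_inj (s.G.T_lt _) (s.G.T_lt _) (s.G.T_lt _) e)
  have key : ∀ i, i ≠ a → i ≠ c → ¬ s.M (s.T i w) z := by
    intro i ia ic hm
    have e1 : f a < f i := lt_of_le_of_ne (ha i (by simp)) fun e => ia (finj _ _ e).symm
    have e2 : f i < f c := lt_of_le_of_ne (hc i (by simp)) fun e => ic (finj _ _ e)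
    have e3 := sb_trans
      (sb_of_dl (s.G.T_lt _) (s.G.T_lt _) (s.G.T_lt _) (top_ne_of_nM (ox a) hz (he a)) e1)
      (sb_of_dl (s.G.T_lt _) (s.G.T_lt _) (s.G.T_lt _) (top_ne_of_nM (ox i) hz (he i)) e2)
    have n1 := nM (ox a) hz (he a)
    have n2 := nM (ox c) hz (he c)
    have n3 := nM (oy i) (ox i) (fun e => (c1.symm.all _ _).mp e rfl)
    have n4 := nM (ow i) (oy i) (fun e => (c2.symm.all _ _).mp e rfl)
    have := (swallow (w := s.G.T (s.T i w)) (lw := s.G.l (s.T i w)) (s.G.T_lt _) (s.G.T_lt _)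
      (s.G.T_lt _) (s.G.T_lt (s.T i y)) (s.G.T_lt _) (s.G.T_lt _) e3.1 e3.2 n1.2 n1.1 n2.2 n2.1
      (mM (oy i) (ox a) ((c1.symm.all _ _).mpr ia)) (mM (oy i) (ox c) ((c1.symm.all _ _).mpr ic))
      n3.1 n3.2 (com_nn hx hy nx ny c1 ic.symm).ineq).2 n4
    rcases mM (ow i) hz hm with e | e
    · exact this.1 e
    · exact this.2 e
  intro i0 hi0
  let D : Finset (ZMod q) := Finset.univ.filter fun i => s.M (s.T i w) z
  refine kp' (y := z) kw D (fun i => by simp [D]) ⟨i0, by simpa [D] using hi0⟩ ?_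
  have h1 : D ⊆ {a, c} := fun i hi => by
    by_contra hn
    simp only [Finset.mem_insert, Finset.mem_singleton, not_or] at hn
    exact key i hn.1 hn.2 (Finset.mem_filter.mp hi).2
  have := (Finset.card_le_card h1).trans Finset.card_le_two
  omega

namespace Cyc

variable {k : ℕ} {η : ZMod q} {v : ℤ → V}

theorem K_ok (h : s.Cyc k η v) (hK : ∀ a, s.IsK (v a)) (i : ZMod q) (a : ℤ) :
    s.OK (s.T i (v a)) := ⟨s.T_Om _ _ (h.om _), h.K_np (hK a) i⟩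

theorem emp_iter (h : s.Cyc k η v) (hK : ∀ a, s.IsK (v a)) {z : V} (hz : s.OK z) {a : ℤ}
    (he : s.Emp (v a) z) (t : ℕ) : s.Emp (v (a + 2 * t)) z := by
  induction t with
  | zero => simpa using he
  | succ t ih =>
    rw [show a + 2 * ((t + 1 : ℕ) : ℤ) = a + 2 * t + 1 + 1 by push_cast; ring]
    exact allK_prop (h.om _) (h.om _) (h.om _) (h.K_np (hK _)) (h.K_np (hK _)) (h.K_np (hK _))
      (hK _) (h.K_next (hK _)) (h.K_next (hK _)) hz ih

theorem allK_noemp (h : s.Cyc k η v) (hK : ∀ a, s.IsK (v a)) (a b : ℤ) : ¬ s.Emp (v a) (v b) := by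
  have aux : ∀ a b : ℤ, a ≤ b → ¬ s.Emp (v a) (v b) := by
    intro a b hab he
    have ob : s.OK (v b) := by simpa [s.T_zero] using h.K_ok hK 0 b
    have := h.emp_iter hK ob he ((b - a + 1) / 2).toNat
    rcases (by omega : a + 2 * (((b - a + 1) / 2).toNat : ℤ) = b ∨
      a + 2 * (((b - a + 1) / 2).toNat : ℤ) = b + 1) with e | e
    · rw [e] at this
      exact this 0 (hK b 0)
    · rw [e] at this
      exact (h.K_next (hK b)).non.1 this.symm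
  rcases le_total a b with e | e
  · exact aux a b e
  · exact fun he => aux b a e he.symm

theorem barrier (h : s.Cyc k η v) (hK : ∀ a, s.IsK (v a)) (i : ZMod q) {z z' : V}
    (hz : ¬ s.M z z')
    (hm : ∀ j : ℤ, 0 ≤ j → j ≤ 2 * k → s.M (s.T i (v j)) z ∧ s.M (s.T i (v j)) z') :
    (s.G.has (s.T i (v 0)) z' ∧ s.G.has (s.T (i + 2 * η) (v 0)) z') ∨
      (s.G.has (s.T i (v 0)) z ∧ s.G.has (s.T (i + 2 * η) (v 0)) z) := by
  have k3 := h.k3
  have step : ∀ z z', ¬ s.M z z' → (∀ j : ℤ, 0 ≤ j → j ≤ 2 * k → s.M (s.T i (v j)) z ∧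
      s.M (s.T i (v j)) z') → ∀ j : ℤ, 0 ≤ j → j + 1 ≤ 2 * k → s.G.has z (s.T i (v j)) →
      s.G.has z' (s.T i (v (j + 1))) := by
    intro z z' hz hm j j0 j1 e
    have := hm (j + 1) (by omega) j1
    refine (two_col hz this.1 this.2).resolve_left fun e' => ?_
    exact ((h.K_next (hK j)).all _ _).mp (s.G.has_M _ _ _ e e') rfl
  have key : ∀ z z', ¬ s.M z z' → (∀ j : ℤ, 0 ≤ j → j ≤ 2 * k → s.M (s.T i (v j)) z ∧
      s.M (s.T i (v j)) z') → s.G.has z (s.T i (v 0)) → ∀ t : ℕ, t < k →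
      s.G.has z' (s.T i (v (2 * t + 1))) := by
    intro z z' hz hm e t
    induction t with
    | zero => intro _; simpa using step z z' hz hm 0 le_rfl (by omega) e
    | succ t ih =>
      intro ht
      rw [show 2 * ((t + 1 : ℕ) : ℤ) = 2 * t + 1 + 1 by push_cast; ring]
      exact step z z' hz hm _ (by omega) (by omega)
        (step z' z (fun e => hz (s.M_symm e)) (fun j a b => (hm j a b).symm) _ (by omega)
          (by omega) (ih (by omega)))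
  have key2 : ∀ z z', ¬ s.M z z' → (∀ j : ℤ, 0 ≤ j → j ≤ 2 * k → s.M (s.T i (v j)) z ∧
      s.M (s.T i (v j)) z') → s.G.has z (s.T i (v 0)) →
      s.G.has (s.T i (v 0)) z' ∧ s.G.has (s.T i (v (2 * k))) z' := by
    intro z z' hz hm e
    constructor
    · refine ((s.G.M_iff _ _).mp (hm 0 le_rfl (by omega)).2).resolve_right fun e' => ?_
      have := key z z' hz hm e 0 (by omega)
      exact ((h.K_next (hK 0)).all _ _).mp (s.G.has_M _ _ _ e' (by simpa using this)) rfl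
    · refine ((s.G.M_iff _ _).mp (hm _ (by omega) le_rfl).2).resolve_right fun e' => ?_
      have := key z z' hz hm e (k - 1) (by omega)
      rw [show 2 * ((k - 1 : ℕ) : ℤ) + 1 = 2 * k - 1 by omega] at this
      exact ((h.K_prev (hK _)).all _ _).mp (s.G.has_M _ _ _ e' this) rfl
  have e : s.T (i + 2 * η) (v 0) = s.T i (v (2 * k)) := by
    have := h.per_mul 0 2
    rw [zero_add] at this
    rw [this, s.TT]
    norm_num
  rw [e]
  have := hm 0 le_rfl (by omega)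
  rcases two_col hz this.1 this.2 with e | e
  · exact Or.inl (key2 z z' hz hm e)
  · exact Or.inr (key2 z' z (fun e => hz (s.M_symm e)) (fun j a b => (hm j a b).symm) e)

theorem half (h : s.Cyc k η v) (hK : ∀ a, s.IsK (v a)) (i : ZMod q) {z z' : V}
    (oz : s.OK z) (oz' : s.OK z') (hz : ¬ s.M z z')
    (hm : ∀ j : ℤ, 0 ≤ j → j ≤ 2 * k → s.M (s.T i (v j)) z ∧ s.M (s.T i (v j)) z') {a b : V}
    (hab : (a = s.T i (v 0) ∧ b = s.T (i + 2 * η) (v 0)) ∨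
      (b = s.T i (v 0) ∧ a = s.T (i + 2 * η) (v 0)))
    (hs : sb (s.G.T a) (s.G.T z) (s.G.T b)) :
    (sb (s.G.T a) (s.G.T z) (s.G.T b) ∧ ¬ s.mm a z) ∨
      (sb (s.G.T a) (s.G.T z') (s.G.T b) ∧ ¬ s.mm a z') := by
  have oa : s.OK a := by rcases hab with ⟨rfl, -⟩ | ⟨-, rfl⟩ <;> exact h.K_ok hK _ _
  have ob : s.OK b := by rcases hab with ⟨-, rfl⟩ | ⟨rfl, -⟩ <;> exact h.K_ok hK _ _
  have hb : (s.G.has a z' ∧ s.G.has b z') ∨ (s.G.has a z ∧ s.G.has b z) := by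
    have := h.barrier hK i hz hm
    rcases hab with ⟨rfl, rfl⟩ | ⟨rfl, rfl⟩
    · exact this
    · exact this.imp And.symm And.symm
  rw [has_mm oa oz', has_mm ob oz', has_mm oa oz, has_mm ob oz] at hb
  exact allK_half (s.G.T_lt _) (s.G.T_lt _) (s.G.T_lt _) (s.G.T_lt _) hs (nM oz oz' hz).1
    (nM oz oz' hz).2 hb

theorem own (h : s.Cyc k η v) (hK : ∀ a, s.IsK (v a)) {i c : ZMod q} (n0 : c ≠ i)
    (n1 : 2 * (c - i) ≠ 2 * η) (n2 : c ≠ i + 2 * η) (j : ℤ) (j0 : 0 ≤ j) (jk : j ≤ 2 * k) :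
    s.M (s.T i (v j)) (s.T c (v 0)) ∧ s.M (s.T i (v j)) (s.T c (v 1)) := by
  have k3 := h.k3
  have aux : ∀ b : ℤ, 0 ≤ b → b ≤ 1 → s.M (s.T i (v j)) (s.T c (v b)) := by
    intro b b0 b1
    by_contra hm
    obtain ⟨m, e1, e2⟩ := h.N2 (hK j) (h.allK_noemp hK _ _) hm
    have e5 := small_mul (m := m) (c := 2) k3 (by push_cast; omega) (by push_cast; omega)
    rcases (by omega : m = -2 ∨ m = -1 ∨ m = 0 ∨ m = 1 ∨ m = 2) with rfl | rfl | rfl | rfl | rfl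
    · exact n2 (by push_cast at e2; linear_combination -e2)
    · exact n1 (by push_cast at e2; linear_combination -2 * e2)
    · exact n0 (by simpa using e2.symm)
    · omega
    · omega
  exact ⟨aux 0 le_rfl (by omega), aux 1 (by omega) le_rfl⟩

theorem own_half (h : s.Cyc k η v) (hK : ∀ a, s.IsK (v a)) {i c : ZMod q}
    (n1 : 2 * (c - i) ≠ 2 * η) {a b : V}
    (hab : (a = s.T i (v 0) ∧ b = s.T (i + 2 * η) (v 0)) ∨
      (b = s.T i (v 0) ∧ a = s.T (i + 2 * η) (v 0)))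
    (hs : sb (s.G.T a) (s.G.T (s.T c (v 0))) (s.G.T b)) :
    (sb (s.G.T a) (s.G.T (s.T c (v 0))) (s.G.T b) ∧ ¬ s.mm a (s.T c (v 0))) ∨
      (sb (s.G.T a) (s.G.T (s.T c (v 1))) (s.G.T b) ∧ ¬ s.mm a (s.T c (v 1))) := by
  obtain ⟨b1, b2, -⟩ := sb_ne hs
  have c1 := h.K_next (hK 0)
  rw [zero_add] at c1
  refine h.half hK i (h.K_ok hK _ _) (h.K_ok hK _ _) (fun e => (c1.all _ _).mp e rfl)
    (h.own hK ?_ n1 ?_) hab hs
  · rintro rfl
    rcases hab with ⟨rfl, -⟩ | ⟨rfl, -⟩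
    exacts [b1 rfl, b2 rfl]
  · rintro rfl
    rcases hab with ⟨-, rfl⟩ | ⟨-, rfl⟩
    exacts [b2 rfl, b1 rfl]

end Cyc

theorem o_disj {a b y1 y2 y3 y4 : V} (o1 : s.OK y1) (o2 : s.OK y2) (o3 : s.OK y3) (o4 : s.OK y4)
    (h1 : (sb (s.G.T a) (s.G.T y1) (s.G.T b) ∧ ¬ s.mm a y1) ∨
      (sb (s.G.T a) (s.G.T y2) (s.G.T b) ∧ ¬ s.mm a y2))
    (h2 : (sb (s.G.T b) (s.G.T y3) (s.G.T a) ∧ ¬ s.mm b y3) ∨
      (sb (s.G.T b) (s.G.T y4) (s.G.T a) ∧ ¬ s.mm b y4))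
    (m13 : s.M y1 y3) (m14 : s.M y1 y4) (m23 : s.M y2 y3) (m24 : s.M y2 y4) : False := by
  rcases h1 with h1 | h1 <;> rcases h2 with h2 | h2 <;>
    refine allK_disj (s.G.T_lt a) (s.G.T_lt b) (s.G.T_lt _) (s.G.T_lt _) h1.1 h1.2 h2.1 h2.2 ?_
  exacts [mM o1 o3 m13, mM o1 o4 m14, mM o2 o3 m23, mM o2 o4 m24]

theorem Cyc.goodK {k : ℕ} {η : ZMod q} {v : ℤ → V} (h : s.Cyc k η v) (hK : ∀ a, s.IsK (v a))
    (a : ℤ) : s.GoodV 0 (v a) (2 * η) := by
  have aux : ∀ v, s.Cyc k η v → (∀ a, s.IsK (v a)) → s.GoodV 0 (v 0) (2 * η) := by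
    intro v h hK
    have c1 := h.K_next (hK 0)
    rw [zero_add] at c1
    refine ⟨∅, by simp, fun i hi => absurd hi (h.K_np (hK 0) i), fun i j _ _ e =>
      com_inj (h.om _) (h.om _) (h.K_np (hK 0)) (h.K_np (hK 1)) c1 e,
      fun i z1 z2 _ _ _ _ a5 a6 a7 a8 => ?_⟩
    have ne : z1 ≠ z2 := by
      rintro rfl
      exact sb_asymm a7 (sb_rot (sb_rot a8))
    exact o_disj (h.K_ok hK _ _) (h.K_ok hK _ _) (h.K_ok hK _ _) (h.K_ok hK _ _)
      (h.own_half hK a5 (Or.inl ⟨rfl, rfl⟩) a7) (h.own_half hK a6 (Or.inr ⟨rfl, rfl⟩) a8)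
      (Ful.all (hK 0) _ _) ((c1.all _ _).mpr ne) ((c1.symm.all _ _).mpr ne) (Ful.all (hK 1) _ _)
  have := aux _ (h.shift a) fun b => hK _
  simpa using this

theorem caseBK {k : ℕ} {η η' : ZMod q} {v v' : ℤ → V} (h : s.Cyc k η v) (h' : s.Cyc k η' v')
    (hK : ∀ a, s.IsK (v a)) (hK' : ∀ a, s.IsK (v' a))
    (hsep : ∀ c, Near (2 * η) c → Near (2 * η') c → False) : False := by
  have hbig := s.big1
  have e2 : 2 * η ≠ 0 := mul_ne_zero s.two_ne h.e0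
  have ind : ∀ a b, s.Emp (v a) (v' b) ∨ s.Ful (v a) (v' b) := fun a b =>
    indep (C := 0) (by omega) (h.om _) (h'.om _) (h.goodK hK a) (h'.goodK hK' b) e2
      (mul_ne_zero s.two_ne h'.e0) hsep
  by_cases hf : ∀ a b, s.Ful (v a) (v' b)
  · have c1 := h.K_next (hK 0)
    have c2 := h'.K_next (hK' 0)
    rw [zero_add] at c1 c2
    have oz := h'.K_ok hK' 0 0
    have oz' := h'.K_ok hK' 0 1
    have nz : ¬ s.M (s.T 0 (v' 0)) (s.T 0 (v' 1)) := fun e => (c2.all _ _).mp e rfl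
    have hm : ∀ i (j : ℤ), 0 ≤ j → j ≤ 2 * k →
        s.M (s.T i (v j)) (s.T 0 (v' 0)) ∧ s.M (s.T i (v j)) (s.T 0 (v' 1)) :=
      fun i j _ _ => ⟨(hf _ _).all _ _, (hf _ _).all _ _⟩
    refine lin_contra s.G.N (fun i => s.G.T (s.T i (v 0))) (fun i => s.G.T_lt _)
      (fun i i' e => com_inj (h.om _) (h.om _) (h.K_np (hK 0)) (h.K_np (hK 1)) c1 e)
      (s.G.T (s.T 0 (v' 0))) (s.G.T_lt _) (fun i e => ?_) (2 * η) e2 (by omega)
      (fun i z a5 a7 a8 => ?_) (fun i z a5 a7 a8 => ?_)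
    · have n1 := nM (h.K_ok hK i 1) (h.K_ok hK i 0) (fun e => (c1.symm.all _ _).mp e rfl)
      have n2 := nM oz' oz (fun e => nz (s.M_symm e))
      have m1 := mM (h.K_ok hK i 1) oz ((hf _ _).all _ _)
      have m2 := mM oz' (h.K_ok hK i 0) ((hf _ _).symm.all _ _)
      unfold mm at n1 n2 m1 m2
      rw [← e] at m1 n2
      exact same_top m1 n1.1 n1.2 m2 n2.1 n2.2
    · exact o_disj (h.K_ok hK _ _) (h.K_ok hK _ _) oz oz'
        (h.own_half hK a5 (Or.inl ⟨rfl, rfl⟩) a7)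
        (h.half hK i oz oz' nz (hm i) (Or.inr ⟨rfl, rfl⟩) a8)
        ((hf _ _).all _ _) ((hf _ _).all _ _) ((hf _ _).all _ _) ((hf _ _).all _ _)
    · exact o_disj oz oz' (h.K_ok hK _ _) (h.K_ok hK _ _)
        (h.half hK i oz oz' nz (hm i) (Or.inl ⟨rfl, rfl⟩) a7)
        (h.own_half hK a5 (Or.inr ⟨rfl, rfl⟩) a8)
        ((hf _ _).symm.all _ _) ((hf _ _).symm.all _ _) ((hf _ _).symm.all _ _)
        ((hf _ _).symm.all _ _)
  · push Not at hf
    obtain ⟨a0, b0, hf⟩ := hf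
    have he := (ind a0 b0).resolve_right hf
    have oz : s.OK (v' b0) := by simpa [s.T_zero] using h'.K_ok hK' 0 b0
    have hf1 : s.Ful (v (1 + a0)) (v' b0) := (ind _ _).resolve_left fun e =>
      nonI_miss (h.om a0) (h.om (a0 + 1)) oz.1 (hK a0).not_isI (h.K_next (hK a0)).non oz.2
        he.all0 (by rw [add_comm]; exact e.all0)
    have he' : s.Emp (v (0 + a0)) (v' b0) := by rwa [zero_add]
    have g := h.shift a0
    have gK : ∀ a, s.IsK (v (a + a0)) := fun a => hK _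
    generalize hw : (fun a => v (a + a0)) = w at g
    have hw' : ∀ a, v (a + a0) = w a := fun a => congrFun hw a
    simp only [hw'] at gK he' hf1
    have c1 := g.K_next (gK 0)
    rw [zero_add] at c1
    have fin : ∀ i z, 2 * (z - i) ≠ 2 * η → ∀ a b : V,
        ((a = s.T i (w 0) ∧ b = s.T (i + 2 * η) (w 0)) ∨
          (b = s.T i (w 0) ∧ a = s.T (i + 2 * η) (w 0))) →
        sb (s.G.T a) (s.G.T (s.T z (w 0))) (s.G.T b) →
        sb (s.G.T b) (s.G.T (v' b0)) (s.G.T a) → False := by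
      intro i z a5 a b hab a7 a8
      have ha : ∃ c, a = s.T c (w 0) := by rcases hab with ⟨rfl, -⟩ | ⟨-, rfl⟩ <;> exact ⟨_, rfl⟩
      have hb : ∃ c, b = s.T c (w 0) := by rcases hab with ⟨-, rfl⟩ | ⟨rfl, -⟩ <;> exact ⟨_, rfl⟩
      have := g.own_half gK a5 hab a7
      obtain ⟨c, rfl⟩ := ha
      obtain ⟨c', rfl⟩ := hb
      exact single_barrier (s.G.T_lt _) (s.G.T_lt _) (s.G.T_lt _) (s.G.T_lt _) (s.G.T_lt _)
        a7 a8 this (nM (g.K_ok gK _ _) oz (he' c)).2 (nM (g.K_ok gK _ _) oz (he' c')).1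
        (mM (g.K_ok gK _ _) (g.K_ok gK _ _) (Ful.all (gK 0) _ _))
        (mM (g.K_ok gK _ _) oz (hf1 z))
    exact lin_contra s.G.N (fun i => s.G.T (s.T i (w 0))) (fun i => s.G.T_lt _)
      (fun i i' e => com_inj (g.om _) (g.om _) (g.K_np (gK 0)) (g.K_np (gK 1)) c1 e)
      (s.G.T (v' b0)) (s.G.T_lt _) (fun i => top_ne_of_nM (g.K_ok gK _ _) oz (he' i)) (2 * η) e2
      (by omega) (fun i z a5 a7 a8 => fin i z a5 _ _ (Or.inl ⟨rfl, rfl⟩) a7 a8)
      (fun i z a5 a7 a8 => fin i z a5 _ _ (Or.inr ⟨rfl, rfl⟩) a8 a7)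

end Setup

end Pool.Agent.P.MP_f0827e_co
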