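import Mathlib
import Pool.Agent.P.MP_f0827e_co.Main6

set_option linter.unusedSectionVars false

namespace Pool.Agent.P.MP_f0827e_co

namespace Setup

variable {V W : Type} {q : ℕ} [Fact q.Prime] {s : Setup V W q} [Finite W]

def Lam (s : Setup V W q) (x y : V) : Prop := x ∈ s.Om ∧ y ∈ s.Om ∧ (s.Mat x y ∨ s.CoM x y)

theorem Lam.symm {x y : V} (h : s.Lam x y) : s.Lam y x :=
  ⟨h.2.1, h.1, h.2.2.imp Mat.symm CoM.symm⟩

theorem Lam.shift {x y : V} (h : s.Lam x y) (c : ZMod q) : s.Lam (s.T c x) (s.T c y) :=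
  ⟨s.T_Om _ _ h.1, s.T_Om _ _ h.2.1, h.2.2.imp (mat_shift · c) (com_shift · c)⟩

def Wk (s : Setup V W q) (n : ℕ) (x y : V) : Prop :=
  ∃ p : ℕ → V, p 0 = x ∧ p n = y ∧ ∀ i < n, s.Lam (p i) (p (i + 1))

theorem Wk.snoc {n : ℕ} {x y z : V} (h : s.Wk n x y) (h' : s.Lam y z) : s.Wk (n + 1) x z := by
  obtain ⟨p, h0, h1, h2⟩ := h
  refine ⟨fun i => if i ≤ n then p i else z, by simpa using h0, by simp, fun i hi => ?_⟩
  rcases (by omega : i < n ∨ i = n) with e | rfl
  · simpa [e.le, Nat.succ_le_of_lt e] using h2 i e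
  · simpa [h1] using h'

theorem Wk.cons {n : ℕ} {x y z : V} (h' : s.Lam x y) (h : s.Wk n y z) : s.Wk (n + 1) x z := by
  obtain ⟨p, h0, h1, h2⟩ := h
  refine ⟨fun i => Nat.casesOn i x p, rfl, h1, fun i hi => ?_⟩
  rcases i with _ | i
  · simpa [h0] using h'
  · exact h2 i (by omega)

/-- no swap of a set with its translate -/
def NoSwap (M : V → V → Prop) (f : V → V) : Prop :=
  ∀ C : Set V, C.Nonempty → (∀ x ∈ C, f x ∉ C) →
    (∀ x ∈ C, ∀ y, y ∉ C → (∀ x' ∈ C, y ≠ f x') → (M x y ↔ M (f x) y)) →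
    (∀ x ∈ C, ∀ y ∈ C, M x (f y) ↔ M (f x) y) → False

theorem exists_wk (nt : s.NT) (hne : s.Om.Nonempty)
    (ext : ∀ x ∈ s.Om, ∀ y, y ∉ s.Om → (s.M x y ↔ s.M (s.T 1 x) y))
    (ns : NoSwap s.M (s.T 1)) : ∃ n, ∃ x ∈ s.Om, ∃ η, η ≠ 0 ∧ s.Wk n x (s.T η x) := by
  by_contra hc
  push Not at hc
  obtain ⟨x0, hx0⟩ := hne
  have hR : ∀ x y, Relation.ReflTransGen s.Lam x y → ∃ n, s.Wk n x y := by
    intro x y h
    induction h with
    | refl => exact ⟨0, fun _ => x, rfl, rfl, by simp⟩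
    | tail _ h2 ih =>
      obtain ⟨n, hn⟩ := ih
      exact ⟨n + 1, hn.snoc h2⟩
  have hS : ∀ x y, Relation.ReflTransGen s.Lam x y → Relation.ReflTransGen s.Lam y x := by
    intro x y h
    induction h with
    | refl => exact .refl
    | tail _ h2 ih => exact .head h2.symm ih
  have hO : ∀ x, Relation.ReflTransGen s.Lam x0 x → x ∈ s.Om := by
    intro x h
    induction h with
    | refl => exact hx0
    | tail _ h2 _ => exact h2.2.1
  have hT : ∀ x c, Relation.ReflTransGen s.Lam x0 x → Relation.ReflTransGen s.Lam x0 (s.T c x) →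
      c = 0 := by
    intro x c h1 h2
    by_contra h0
    obtain ⟨n, hn⟩ := hR _ _ ((hS _ _ h1).trans h2)
    exact hc n x (hO x h1) c h0 hn
  have tri : ∀ x ∈ s.Om, ∀ y ∈ s.Om, s.Emp x y ∨ s.Ful x y ∨ ∃ c, s.Lam (s.T c x) y := by
    intro x hx y hy
    by_contra h
    rw [not_or, not_or] at h
    rcases Non.cases ⟨h.1, h.2.1⟩ with t | ⟨c, t⟩
    · exact nt x hx y hy t
    · exact h.2.2 ⟨c, s.T_Om _ _ hx, hy, t⟩
  refine ns {x | Relation.ReflTransGen s.Lam x0 x} ⟨x0, .refl⟩
    (fun x hx h => one_ne_zero (hT x 1 hx h)) (fun x hx y hy hy' => ?_) (fun x hx y hy => ?_)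
  · by_cases hyo : y ∈ s.Om
    swap
    · exact ext x (hO x hx) y hyo
    have e0 : s.M x y ↔ s.M (s.T 0 x) y := by rw [s.T_zero]
    rw [e0]
    rcases tri x (hO x hx) y hyo with e | e | ⟨c, e⟩
    · exact iff_of_false (e _) (e _)
    · exact iff_of_true (e _) (e _)
    have c0 : c ≠ 0 := by
      rintro rfl
      rw [s.T_zero] at e
      exact hy (Relation.ReflTransGen.tail hx e)
    have c1 : c ≠ 1 := by
      rintro rfl
      have := e.shift (-1)
      rw [s.TT, neg_add_cancel, s.T_zero] at this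
      exact hy' _ (Relation.ReflTransGen.tail hx this) (by rw [s.TT, add_neg_cancel, s.T_zero])
    have f : ∀ u, s.T u x = s.T (u - c) (s.T c x) := fun u => by rw [s.TT, sub_add_cancel]
    rw [f 0, f 1]
    rcases e.2.2 with e | e
    · rw [e, e, sub_eq_zero, sub_eq_zero]
      exact iff_of_false c0.symm c1.symm
    · rw [e, e, sub_ne_zero, sub_ne_zero]
      exact iff_of_true c0.symm c1.symm
  · have e0 : s.M x (s.T 1 y) ↔ s.M (s.T 0 x) (s.T 1 y) := by rw [s.T_zero]
    have e1 : s.M (s.T 1 x) y ↔ s.M (s.T 1 x) (s.T 0 y) := by rw [s.T_zero]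
    rw [e0, e1]
    rcases tri x (hO x hx) y (hO y hy) with e | e | ⟨c, e⟩
    · exact iff_of_false (e.all _ _) (e.all _ _)
    · exact iff_of_true (e.all _ _) (e.all _ _)
    have c0 := hT x c hx (Relation.ReflTransGen.tail hy e.symm)
    subst c0
    rw [s.T_zero] at e
    rcases e.2.2 with e | e
    · rw [e.all, e.all]; exact eq_comm
    · rw [e.all, e.all]; exact ne_comm

theorem exists_cyc (nt : s.NT)
    (hw : ∃ n, ∃ x ∈ s.Om, ∃ η, η ≠ 0 ∧ s.Wk n x (s.T η x)) : ∃ k η v, s.Cyc k η v := by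
  classical
  have hmin : ∀ n < Nat.find hw, ∀ x ∈ s.Om, ∀ η, η ≠ 0 → ¬ s.Wk n x (s.T η x) :=
    fun n hn x hx η h0 h => Nat.find_min hw hn ⟨x, hx, η, h0, h⟩
  obtain ⟨x, hx, η, e0, p, p0, pk, hp⟩ := Nat.find_spec hw
  generalize Nat.find hw = k at *
  have c12 : (1 : ZMod q) ≠ 2 := by
    have := s.cast_ne (a := 1) (b := 2) (by norm_num) (by norm_num) (by norm_num)
    simpa using this
  have k3 : 3 ≤ k := by
    by_contra hk
    rcases (by omega : k = 0 ∨ k = 1 ∨ k = 2) with rfl | rfl | rfl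
    · exact e0 (s.free η x hx (pk.symm.trans p0))
    · have := (hp 0 (by omega)).2.2
      rw [p0, zero_add, pk] at this
      rcases this with e | e
      · exact e0 ((e η).mp (s.M_refl _))
      · exact not_com_self e.symm
    · have a := (hp 0 (by omega)).2.2
      have b := (hp 1 (by omega)).symm.2.2
      rw [p0, zero_add] at a
      rw [show 1 + 1 = 2 from rfl, pk] at b
      have t2 := s.two_ne
      rcases a with a | a <;> rcases b with b | b
      · have := (b 0).mpr rfl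
        rw [s.T_zero] at this
        exact e0 ((a η).mp this)
      · have h1 := (b 1).mpr one_ne_zero
        have h2 := (b 2).mpr t2
        rw [s.TT, a] at h1 h2
        exact c12 (by linear_combination h1 - h2)
      · have h1 : ¬ s.M (s.T 1 (s.T η x)) (p 1) := fun e => one_ne_zero ((b 1).mp e)
        have h2 : ¬ s.M (s.T 2 (s.T η x)) (p 1) := fun e => t2 ((b 2).mp e)
        rw [s.TT, a, not_not] at h1 h2
        exact c12 (by linear_combination h1 - h2)
      · have : ¬ s.M (s.T 0 (s.T η x)) (p 1) := fun e => (b 0).mp e rfl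
        rw [s.T_zero] at this
        exact this ((a η).mpr e0)
  have k0 : (0 : ℤ) < k := by omega
  let v : ℤ → V := fun a => s.T ((a / k : ℤ) * η) (p (a % k).toNat)
  have hv0 : ∀ (m : ℤ) (r : ℕ), r < k → v (r + m * k) = s.T (m * η) (p r) := by
    intro m r hr
    simp only [v]
    rw [Int.add_mul_ediv_right _ _ k0.ne', Int.add_mul_emod_self_right,
      Int.ediv_eq_zero_of_lt (by omega) (by omega), Int.emod_eq_of_lt (by omega) (by omega)]
    simp
  have hv : ∀ (m : ℤ) (r : ℕ), r ≤ k → v (r + m * k) = s.T (m * η) (p r) := by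
    intro m r hr
    rcases hr.lt_or_eq with hr | rfl
    · exact hv0 m r hr
    · have := hv0 (m + 1) 0 (by omega)
      rw [show (r : ℤ) + m * r = ((0 : ℕ) : ℤ) + (m + 1) * r by push_cast; ring, this, pk, p0, s.TT]
      congr 1
      push_cast
      ring
  have dec : ∀ a : ℤ, ∃ (m : ℤ) (r : ℕ), r < k ∧ a = r + m * k := fun a => by
    have e1 := Int.emod_add_mul_ediv a k
    have e2 := Int.emod_nonneg a k0.ne'
    have e3 := Int.emod_lt_of_pos a k0
    refine ⟨a / k, (a % k).toNat, by omega, ?_⟩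
    rw [Int.toNat_of_nonneg e2]
    linear_combination -e1
  have lam : ∀ a, s.Lam (v a) (v (a + 1)) := fun a => by
    obtain ⟨m, r, hr, rfl⟩ := dec a
    rw [show (r : ℤ) + m * k + 1 = ((r + 1 : ℕ) : ℤ) + m * k by push_cast; ring, hv m r hr.le,
      hv m _ hr]
    exact (hp r hr).shift _
  have per : ∀ a, v (a + k) = s.T η (v a) := fun a => by
    obtain ⟨m, r, hr, rfl⟩ := dec a
    rw [show (r : ℤ) + m * k + k = r + (m + 1) * k by ring, hv m r hr.le, hv _ _ hr.le, s.TT]
    congr 1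
    push_cast
    ring
  have wk : ∀ a (t : ℕ), s.Wk t (v a) (v (a + t)) := fun a t =>
    ⟨fun i => v (a + i), by simp, rfl, fun i _ => by
      have := lam (a + i)
      rwa [add_assoc] at this⟩
  refine ⟨k, η, v, k3, e0, fun a => (lam a).1, per, fun a => (lam a).2.2, fun a b h1 h2 => ?_⟩
  by_contra hn
  rw [not_or] at hn
  rcases Non.cases hn with t | ⟨c, t⟩
  · exact nt _ (lam a).1 _ (lam b).1 t
  have t' : s.Lam (s.T c (v a)) (v b) := ⟨s.T_Om _ _ (lam a).1, (lam b).1, t⟩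
  by_cases c0 : c = 0
  · subst c0
    rw [s.T_zero] at t'
    have := wk b (a + k - b).toNat
    rw [Int.toNat_of_nonneg (by omega), add_sub_cancel, per] at this
    exact hmin _ (by omega) _ (lam a).1 η e0 (Wk.cons t' this)
  · have := wk a (b - a).toNat
    rw [Int.toNat_of_nonneg (by omega), add_sub_cancel] at this
    exact hmin _ (by omega) _ (lam a).1 c c0 (this.snoc t'.symm)

/-- a map normalising the action -/
structure Conj (s : Setup V W q) (g : V → V) (α : ZMod q) : Prop where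
  a0 : α ≠ 0
  M : ∀ x y, s.M (g x) (g y) ↔ s.M x y
  om : ∀ x ∈ s.Om, g x ∈ s.Om
  T : ∀ i x, g (s.T i x) = s.T (α * i) (g x)

namespace Conj

variable {g : V → V} {α : ZMod q}

theorem key (h : s.Conj g α) (u : ZMod q) (x y : V) :
    s.M (s.T u (g x)) (g y) ↔ s.M (s.T (α⁻¹ * u) x) y := by
  rw [← h.M (s.T _ x), h.T, ← mul_assoc, mul_inv_cancel₀ h.a0, one_mul]

theorem z (h : s.Conj g α) (u : ZMod q) : α⁻¹ * u = 0 ↔ u = 0 := by
  simp [h.a0]

theorem emp (h : s.Conj g α) {x y : V} (e : s.Emp x y) : s.Emp (g x) (g y) := fun i => by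
  rw [h.key]; exact e _

theorem ful (h : s.Conj g α) {x y : V} (e : s.Ful x y) : s.Ful (g x) (g y) := fun i => by
  rw [h.key]; exact e _

theorem mat (h : s.Conj g α) {x y : V} (e : s.Mat x y) : s.Mat (g x) (g y) := fun i => by
  rw [h.key, e, h.z]

theorem com (h : s.Conj g α) {x y : V} (e : s.CoM x y) : s.CoM (g x) (g y) := fun i => by
  rw [h.key, e, ne_eq, h.z]

theorem isI (h : s.Conj g α) {x : V} : s.IsI (g x) ↔ s.IsI x := by
  constructor
  · intro e i hi
    have := e (α * i) (by rwa [← h.T, h.M])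
    exact (mul_eq_zero.mp this).resolve_left h.a0
  · intro e i hi
    rw [h.key] at hi
    exact (h.z i).mp (e _ hi)

theorem thick (h : s.Conj g α) {x y : V} (e : s.Thick x y) : s.Thick (g x) (g y) := by
  obtain ⟨⟨i, j, hij, hi, hj⟩, ⟨i', j', hij', hi', hj'⟩⟩ := e
  refine ⟨⟨α * i, α * j, fun e => hij (mul_left_cancel₀ h.a0 e), ?_, ?_⟩,
    ⟨α * i', α * j', fun e => hij' (mul_left_cancel₀ h.a0 e), ?_, ?_⟩⟩ <;> rwa [← h.T, h.M]

theorem cyc (h : s.Conj g α) {k : ℕ} {η : ZMod q} {v : ℤ → V} (e : s.Cyc k η v) :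
    s.Cyc k (α * η) fun a => g (v a) where
  k3 := e.k3
  e0 := mul_ne_zero h.a0 e.e0
  om := fun a => h.om _ (e.om a)
  per := fun a => by rw [e.per, h.T]
  lam := fun a => (e.lam a).imp h.mat h.com
  far := fun a b h1 h2 => (e.far a b h1 h2).imp h.emp h.ful

end Conj

theorem final {ι : Type} (J : Finset ι) (hJ : 2 * Nat.card W + 2 ≤ J.card) (g : ι → V → V)
    (α : ι → ZMod q) (hg : ∀ j, s.Conj (g j) (α j))
    (hsep : ∀ j ∈ J, ∀ j' ∈ J, j ≠ j' → ∀ b, b ≠ 0 → ∀ c, Near (α j * b) c →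
      Near (α j' * b) c → False)
    (hne : s.Om.Nonempty)
    (ext : ∀ x ∈ s.Om, ∀ y, y ∉ s.Om → (s.M x y ↔ s.M (s.T 1 x) y))
    (ns : NoSwap s.M (s.T 1)) : False := by
  by_cases nt : s.NT
  · obtain ⟨k, η, v, hv⟩ := exists_cyc nt (exists_wk nt hne ext ns)
    by_cases hI : ∃ a, s.IsI (v a)
    · obtain ⟨a, ha⟩ := hI
      exact caseBI nt J hJ k (fun j => α j * η) (fun j b => g j (v (b + a)))
        (fun j => (hg j).cyc (hv.shift a)) (fun j => (hg j).isI.mpr (by rwa [zero_add]))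
        (fun j hj j' hj' hne => hsep j hj j' hj' hne η hv.e0)
    · have hK : ∀ a, s.IsK (v a) := fun a => (nt.IK (hv.om a)).resolve_left fun e => hI ⟨a, e⟩
      obtain ⟨j, hj, j', hj', hne⟩ := Finset.one_lt_card.mp (show 1 < J.card by omega)
      refine caseBK ((hg j).cyc hv) ((hg j').cyc hv) (fun a => (hg j).ful (hK a))
        (fun a => (hg j').ful (hK a)) fun c h1 h2 =>
          hsep j hj j' hj' hne (2 * η) (mul_ne_zero s.two_ne hv.e0) c ?_ ?_
      · rwa [mul_left_comm]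
      · rwa [mul_left_comm]
  · unfold NT at nt
    push Not at nt
    have aux : ∀ x ∈ s.Om, ∀ y ∈ s.Om, s.Thick x y → (¬ s.IsI x ∨ s.IsI y) → False := by
      intro x hx y hy ht hty
      have nx : s.NP x := by
        by_cases e : s.IsI x
        · exact II_np e (hty.resolve_left (not_not.mpr e)) ht
        · exact nonI_np e ht.non
      obtain ⟨b, hb⟩ := (la hx hy nx (few_of_np nx ht.non) ht).1
      refine caseA J (by omega) (fun j => g j x) (fun j => g j y) (fun j => α j * b)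
        (fun j => (hg j).om _ hx) (fun j => (hg j).om _ hy) (fun j => (hg j).thick ht)
        (fun j => ?_) ?_ (fun j hj j' hj' hne => hsep j hj j' hj' hne b hb.ne_zero)
      · simp only [(hg j).key]
        exact hb.scale (α j) (hg j).a0
      · simp only [(hg _).isI]
        by_cases e1 : s.IsI x <;> by_cases e2 : s.IsI y <;> simp_all
    obtain ⟨x, hx, y, hy, ht⟩ := nt
    by_cases e : s.IsI x
    · by_cases e' : s.IsI y
      · exact aux x hx y hy ht (Or.inr e')
      · exact aux y hy x hx ht.symm (Or.inl e')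
    · exact aux x hx y hy ht (Or.inl e)

end Setup

end Pool.Agent.P.MP_f0827e_co
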