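import Mathlib
import Pool.Agent.P.MP_f0827e_co.Main7

namespace Pool.Agent.P.MP_f0827e_co

open Function

/-- the affine maps whose linear part has order dividing `p` -/
def affG (q p : ℕ) [Fact q.Prime] : Subgroup (Equiv.Perm (ZMod q)) where
  carrier := {σ | ∃ u b : ZMod q, u ≠ 0 ∧ u ^ p = 1 ∧ ∀ x, σ x = u * x + b}
  one_mem' := ⟨1, 0, one_ne_zero, one_pow _, fun x => by simp⟩
  mul_mem' := by
    rintro σ τ ⟨u, b, h0, h1, h2⟩ ⟨u', b', h0', h1', h2'⟩
    refine ⟨u * u', u * b' + b, mul_ne_zero h0 h0', by rw [mul_pow, h1, h1', one_mul], fun x => ?_⟩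
    rw [Equiv.Perm.mul_apply, h2, h2']
    ring
  inv_mem' := by
    rintro σ ⟨u, b, h0, h1, h2⟩
    refine ⟨u⁻¹, -(u⁻¹ * b), inv_ne_zero h0, by rw [inv_pow, h1, inv_one], fun x => ?_⟩
    rw [Equiv.Perm.inv_eq_iff_eq, h2]
    field_simp
    ring

theorem affG_inv {q p : ℕ} [Fact q.Prime] (hp : Odd p) (h2 : (2 : ZMod q) ≠ 0) (g : affG q p)
    (hg : g * g = 1) : g = 1 := by
  obtain ⟨σ, u, b, h0, h1, h3⟩ := g
  have e : ∀ x, σ (σ x) = x := fun x => by
    have := congrArg (fun t : affG q p => (t : Equiv.Perm (ZMod q)) x) hg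
    simpa using this
  have e0 := e 0
  have e1 := e 1
  rw [h3, h3] at e0 e1
  have e2 : u ^ 2 = 1 := by linear_combination e1 - e0
  obtain ⟨r, rfl⟩ := hp
  rw [pow_succ, pow_mul, e2, one_pow, one_mul] at h1
  subst h1
  have e3 : b = 0 := (mul_eq_zero.mp (show 2 * b = 0 by linear_combination e0)).resolve_left h2
  subst e3
  ext x
  simp [h3]

theorem sep_near {q p : ℕ} [Fact q.Prime] (hq : 16 ^ p < q) (hp : p.Prime) (hp2 : p ≠ 2)
    {a : ZMod q} (ha : orderOf a = p) {j j' : ℕ} (hj : j < p) (hj' : j' < p) (hne : j ≠ j')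
    (b : ZMod q) (b0 : b ≠ 0) (c : ZMod q) (h1 : Near (a ^ j * b) c) (h2 : Near (a ^ j' * b) c) :
    False := by
  have ap : a ^ p = 1 := ha ▸ pow_orderOf_eq_one a
  have h16 : (16 : ZMod q) ^ p ≠ 1 := by
    intro e
    have h3 : 1 < 16 ^ p := Nat.one_lt_pow hp.ne_zero (by norm_num)
    apply natCast_ne_zero' (q := q) (k := 16 ^ p - 1) (by omega) (by omega)
    rw [Nat.cast_sub h3.le]
    push_cast
    rw [e, sub_self]
  have h4 : (4 : ZMod q) ^ p ≠ 1 := fun e => h16 (by
    rw [show (16 : ZMod q) = 4 * 4 by norm_num, mul_pow, e, one_mul])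
  have n4 : (4 : ZMod q) ≠ 0 := by
    have h3 : 16 ^ 1 ≤ 16 ^ p := Nat.pow_le_pow_right (by norm_num) hp.one_le
    exact_mod_cast natCast_ne_zero' (q := q) (k := 4) (by omega) (by omega)
  have sq : ∀ x : ZMod q, Near x c → c ^ 2 = x ^ 2 ∨ 4 * c ^ 2 = x ^ 2 ∨ c ^ 2 = 4 * x ^ 2 := by
    rintro x (e | e | e | e | e | e)
    · left; rw [e]
    · left; rw [e]; ring
    · right; left; rw [← e]; ring
    · right; left; linear_combination (2 * c - x) * e
    · right; right; rw [e]; ring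
    · right; right; rw [e]; ring
  have pw : ∀ i : ℕ, ((a ^ i) ^ 2) ^ p = 1 := fun i => by
    rw [← pow_mul, ← pow_mul, show i * (2 * p) = p * (2 * i) by ring, pow_mul, ap, one_pow]
  have bb : b ^ 2 ≠ 0 := pow_ne_zero _ b0
  have k1 : ∀ (t : ZMod q) (i i' : ℕ), t * (a ^ i * b) ^ 2 = (a ^ i' * b) ^ 2 → t ^ p = 1 := by
    intro t i i' e
    have e2 : t * (a ^ i) ^ 2 = (a ^ i') ^ 2 := mul_right_cancel₀ bb (by linear_combination e)
    have e3 := congrArg (· ^ p) e2
    simpa only [mul_pow, pw, mul_one] using e3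
  have k0 : (a ^ j * b) ^ 2 ≠ (a ^ j' * b) ^ 2 := by
    intro e
    have e2 : a ^ (2 * j) = a ^ (2 * j') := mul_right_cancel₀ bb (by linear_combination e)
    have a0 : a ≠ 0 := by
      rintro rfl
      rw [zero_pow hp.ne_zero] at ap
      exact zero_ne_one ap
    have fo : IsOfFinOrder a := by
      rw [← orderOf_pos_iff, ha]; exact hp.pos
    rw [fo.pow_eq_pow_iff_modEq, ha] at e2
    have e3 := Nat.ModEq.cancel_left_of_coprime
      ((Nat.coprime_primes hp Nat.prime_two).mpr hp2) e2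
    exact hne (Nat.ModEq.eq_of_lt_of_lt e3 hj hj')
  rcases sq _ h1 with e | e | e <;> rcases sq _ h2 with e' | e' | e'
  · exact k0 (by linear_combination e' - e)
  · exact h4 (k1 4 j j' (by linear_combination e' - 4 * e))
  · exact h4 (k1 4 j' j (by linear_combination e - e'))
  · exact h4 (k1 4 j' j (by linear_combination e - 4 * e'))
  · exact k0 (by linear_combination e' - e)
  · exact h16 (k1 16 j' j (by linear_combination e - 4 * e'))
  · exact h4 (k1 4 j j' (by linear_combination e' - e))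
  · exact h16 (k1 16 j j' (by linear_combination e' - 4 * e))
  · exact k0 (mul_left_cancel₀ n4 (by linear_combination e' - e))

theorem noswap_of_inv {V : Type} (X : SimpleGraph V) (M : V → V → Prop)
    (hM : ∀ x y, M x y ↔ x = y ∨ X.Adj x y) (hinv : ∀ σ : X ≃g X, σ * σ = 1 → σ = 1)
    (φ : X ≃g X) : Setup.NoSwap M φ := by
  classical
  intro C hne h1 h2 h3
  have hφ : ∀ x y, M (φ x) (φ y) ↔ M x y := fun x y => by
    rw [hM, hM, φ.map_adj_iff, φ.injective.eq_iff]
  have sy : ∀ x y, M x y ↔ M y x := fun x y => by rw [hM, hM, eq_comm, X.adj_comm]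
  let f : V → V := fun x => if x ∈ C then φ x else if φ.symm x ∈ C then φ.symm x else x
  have fA : ∀ x ∈ C, f x = φ x := fun x hx => by simp [f, hx]
  have fB : ∀ x ∈ C, f (φ x) = x := fun x hx => by simp [f, hx, h1 x hx]
  have tri : ∀ x, x ∈ C ∨ (∃ x' ∈ C, x = φ x') ∨ (x ∉ C ∧ (∀ x' ∈ C, x ≠ φ x') ∧ f x = x) := by
    intro x
    by_cases a : x ∈ C
    · exact Or.inl a
    by_cases b : φ.symm x ∈ C
    · exact Or.inr (Or.inl ⟨_, b, by simp⟩)
    · refine Or.inr (Or.inr ⟨a, ?_, by simp [f, a, b]⟩)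
      rintro x' hx' rfl
      exact b (by simpa using hx')
  have finv : Involutive f := fun x => by
    rcases tri x with a | ⟨x', a, rfl⟩ | ⟨-, -, a⟩
    · rw [fA x a, fB x a]
    · rw [fB x' a, fA x' a]
    · rw [a, a]
  have fM : ∀ x y, M (f x) (f y) ↔ M x y := fun x y => by
    rcases tri x with a | ⟨x', a, rfl⟩ | ⟨a1, a2, a⟩ <;>
      rcases tri y with b | ⟨y', b, rfl⟩ | ⟨b1, b2, b⟩
    · rw [fA x a, fA y b, hφ]
    · rw [fA x a, fB y' b, h3 x a y' b]
    · rw [fA x a, b, h2 x a y b1 b2]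
    · rw [fB x' a, fA y b, h3 x' a y b]
    · rw [fB x' a, fB y' b, hφ]
    · rw [fB x' a, b, h2 x' a y b1 b2]
    · rw [a, fA y b, sy, sy x, h2 y b x a1 a2]
    · rw [a, fB y' b, sy, sy x, h2 y' b x a1 a2]
    · rw [a, b]
  have adj : ∀ x y, X.Adj x y ↔ x ≠ y ∧ M x y := fun x y => by
    rw [hM]
    exact ⟨fun h => ⟨h.ne, Or.inr h⟩, fun h => h.2.resolve_left h.1⟩
  let σ : X ≃g X := ⟨finv.toPerm, fun {x y} => by
    simp only [Involutive.coe_toPerm]
    rw [adj, adj, fM, finv.injective.ne_iff]⟩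
  have := hinv σ (by ext x; exact finv x)
  obtain ⟨x, hx⟩ := hne
  have e : f x = x := congrArg (fun t : X ≃g X => t x) this
  rw [fA x hx] at e
  exact h1 x hx (e.symm ▸ hx)

theorem reach_inv {V : Type} (X : SimpleGraph V) (hinv : ∀ σ : X ≃g X, σ * σ = 1 → σ = 1)
    (φ : X ≃g X) (x0 x : V) (hx : X.Reachable x0 x) : X.Reachable x0 (φ x) := by
  by_contra hc
  have h1 : ∀ y, X.Reachable x0 y → ¬ X.Reachable x0 (φ y) := fun y hy e =>
    hc (e.trans ((hy.symm.trans hx).map φ.toHom))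
  have st : ∀ y z, X.Reachable x0 y → (y = z ∨ X.Adj y z) → X.Reachable x0 z := by
    rintro y z hy (rfl | e)
    exacts [hy, hy.trans e.reachable]
  refine noswap_of_inv X _ (fun _ _ => Iff.rfl) hinv φ {y | X.Reachable x0 y} ⟨x, hx⟩ h1
    (fun y hy z hz hz' => iff_of_false (fun e => hz (st _ _ hy e)) fun e => ?_)
    (fun y hy z hz => iff_of_false (fun e => h1 z hz (st _ _ hy e)) fun e => h1 y hy
      (st _ _ hz (e.imp Eq.symm SimpleGraph.Adj.symm)))
  refine hz' (φ.symm z) (st _ _ hy ?_) (by simp)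
  rcases e with rfl | e
  · simp
  · right
    rw [← φ.map_adj_iff]
    simpa using e

theorem core (W : Type) [Finite W] : ∃ (G : Type) (_ : Group G) (_ : Finite G),
    ∀ (V P : Type) [Finite P] (m : Model V P W) (X : SimpleGraph V),
      (∀ x y, x ≠ y → (X.Adj x y ↔ m.Meet x y)) → Nonempty (G ≃* (X ≃g X)) → False := by
  obtain ⟨p, hp1, hp⟩ := Nat.exists_infinite_primes (2 * Nat.card W + 3)
  obtain ⟨q, hq, hq1, hq2⟩ := Nat.exists_prime_gt_modEq_one
    (16 ^ p + 200 * (Nat.card W + 1) ^ 3) hp.ne_zero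
  have : Fact q.Prime := ⟨hq⟩
  have : Fact p.Prime := ⟨hp⟩
  have hp2 : p ≠ 2 := by omega
  have h16 : 16 ^ 1 ≤ 16 ^ p := Nat.pow_le_pow_right (by norm_num) hp.one_le
  obtain ⟨a', ha'⟩ := exists_prime_orderOf_dvd_card (G := (ZMod q)ˣ) p (by
    rw [ZMod.card_units q]
    exact (Nat.modEq_iff_dvd' hq.one_le).mp hq2.symm)
  have ha : orderOf (a' : ZMod q) = p := by rw [orderOf_units, ha']
  have a0 : (a' : ZMod q) ≠ 0 := a'.ne_zero
  generalize (a' : ZMod q) = a at ha a0
  have ap : a ^ p = 1 := ha ▸ pow_orderOf_eq_one a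
  refine ⟨affG q p, inferInstance, inferInstance, ?_⟩
  rintro V P _ m X hX ⟨e⟩
  have hM : ∀ x y, m.Meet x y ↔ x = y ∨ X.Adj x y := fun x y => by
    by_cases h : x = y
    · subst h
      exact iff_of_true ⟨_, m.tmem x, m.tmem x⟩ (Or.inl rfl)
    · rw [hX x y h]; simp [h]
  have two : (2 : ZMod q) ≠ 0 := by
    exact_mod_cast natCast_ne_zero' (q := q) (k := 2) (by omega) (by omega)
  have hinv : ∀ σ : X ≃g X, σ * σ = 1 → σ = 1 := fun σ h => by
    have := affG_inv (hp.odd_of_ne_two hp2) two (e.symm σ) (by rw [← map_mul, h, map_one])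
    simpa using congrArg e this
  let tr : ZMod q → affG q p := fun i => ⟨Equiv.addRight i, 1, i, one_ne_zero, one_pow _, by simp⟩
  let ml : ℕ → affG q p := fun j => ⟨Equiv.mulLeft₀ (a ^ j) (pow_ne_zero _ a0), a ^ j, 0,
    pow_ne_zero _ a0, by rw [← pow_mul, mul_comm, pow_mul, ap, one_pow], by simp⟩
  have tr_add : ∀ i j, tr (i + j) = tr i * tr j := fun i j => by
    ext x; simp [tr]; ring
  have tr0 : tr 0 = 1 := by ext x; simp [tr]
  have tr1 : tr 1 ≠ 1 := fun h => by
    have := congrArg (fun t : affG q p => (t : Equiv.Perm (ZMod q)) 0) h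
    simp [tr] at this
  have ml_tr : ∀ j i, ml j * tr i = tr (a ^ j * i) * ml j := fun j i => by
    ext x; simp [tr, ml]; ring
  have eM : ∀ (g : affG q p) x y, m.Meet (e g x) (e g y) ↔ m.Meet x y := fun g x y => by
    rw [hM, hM, (e g).map_adj_iff, (e g).injective.eq_iff]
  have emul : ∀ (g g' : affG q p) x, e (g * g') x = e g (e g' x) := fun g g' x => by
    rw [map_mul]; rfl
  have eone : ∀ x, e 1 x = x := fun x => by rw [map_one]; rfl
  obtain ⟨x0, hx0⟩ : ∃ x, e (tr 1) x ≠ x := by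
    by_contra hc
    push Not at hc
    exact tr1 (e.injective (by rw [map_one]; ext x; exact hc x))
  have free : ∀ i x, e (tr 1) x ≠ x → e (tr i) x = x → i = 0 := by
    intro i x h1 h2
    by_contra h0
    exact h1 (aper (fun u => e (tr u) x = x) i h0 (fun u hu => by rw [tr_add, emul, h2, hu]) 0
      (by rw [tr0, eone]) 1)
  let Om : Set V := {x | e (tr 1) x ≠ x ∧ X.Reachable x0 x}
  have hOm : ∀ x, X.Reachable x0 x → ∃ i j, m.par^[i] (m.t x) = m.par^[j] (m.t x0) := by
    intro x hx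
    rw [SimpleGraph.reachable_iff_reflTransGen] at hx
    induction hx with
    | refl => exact ⟨0, 0, rfl⟩
    | @tail y z _ h2 ih =>
      obtain ⟨i, j, ih⟩ := ih
      rcases (m.meet_iff y z).mp ((hM _ _).mpr (Or.inr h2)) with h | h
      · obtain ⟨k, hk, -⟩ := m.flow _ _ h
        refine ⟨i, k + j, ?_⟩
        rw [← hk, ← iterate_add_apply, add_comm i k, iterate_add_apply, ih, ← iterate_add_apply]
      · obtain ⟨k, hk, -⟩ := m.flow _ _ h
        exact ⟨i + k, j, by rw [iterate_add_apply, hk, ih]⟩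
  obtain ⟨G⟩ := m.exists_geo Om (m.t x0) fun x hx => hOm x hx.2
  let s : Setup V W q :=
    { M := m.Meet
      Om := Om
      T := fun i x => e (tr i) x
      G := G
      T_add := fun i j x => by rw [tr_add, emul]
      T_zero := fun x => by rw [tr0, eone]
      T_M := fun i => eM _
      T_Om := fun i x hx => ⟨fun h => hx.1 (by
        rw [← emul, ← tr_add, add_comm, tr_add, emul] at h
        exact (e (tr i)).injective h), reach_inv X hinv _ _ _ hx.2⟩
      free := fun i x hx => free i x hx.1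
      big := by omega }
  refine Setup.final (s := s) (Finset.range p) (by simp; omega) (fun j x => e (ml j) x)
    (fun j => a ^ j) (fun j => ⟨pow_ne_zero _ a0, eM _, fun x hx => ⟨fun h => hx.1 ?_,
      reach_inv X hinv _ _ _ hx.2⟩, fun i x => ?_⟩)
    (fun j hj j' hj' hne => sep_near (by omega) hp hp2 ha (Finset.mem_range.mp hj)
      (Finset.mem_range.mp hj') hne) ⟨x0, hx0, .refl _⟩ (fun x hx y hy => ?_)
    (noswap_of_inv X _ hM hinv _)
  · by_contra hc
    have h2 := ml_tr j (a ^ j)⁻¹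
    rw [mul_inv_cancel₀ (pow_ne_zero _ a0)] at h2
    rw [← emul, ← h2, emul] at h
    exact inv_ne_zero (pow_ne_zero j a0) (free _ x hc ((e (ml j)).injective h))
  · show e (ml j) (e (tr i) x) = e (tr (a ^ j * i)) (e (ml j) x)
    rw [← emul, ml_tr, emul]
  · show m.Meet x y ↔ m.Meet (e (tr 1) x) y
    by_cases h : e (tr 1) y = y
    · rw [← eM (tr 1) x y, h]
    · have hy' : ¬ X.Reachable x0 y := fun r => hy ⟨h, r⟩
      have st : ∀ z, X.Reachable x0 z → ¬ m.Meet z y := fun z hz c => by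
        rcases (hM _ _).mp c with rfl | c
        exacts [hy' hz, hy' (hz.trans c.reachable)]
      exact iff_of_false (st _ hx.2) (st _ (reach_inv X hinv _ _ _ hx.2))

end Pool.Agent.P.MP_f0827e_co
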