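import Mathlib
import Pool.Agent.P.MP_f0827e_co.Defs
import Pool.Agent.P.MP_f0827e_co.Grp

namespace Pool.Agent.P.MP_f0827e_co

open Function SimpleGraph

theorem snd_or {W : Type} {G : SimpleGraph W} (hG : G.IsAcyclic) {u v r : W} (h : G.Adj u v)
    (p : G.Walk u r) (p' : G.Walk v r) (hp : p.IsPath) (hp' : p'.IsPath) :
    (u ≠ r ∧ p.snd = v) ∨ (v ≠ r ∧ p'.snd = u) := by
  by_cases hv : v ∈ p.support
  · left
    refine ⟨?_, (hG.eq_snd_of_adj_start hp h hv).symm⟩
    rintro rfl
    rw [Walk.isPath_iff_nil, ← Walk.eq_nil_iff_nil] at hp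
    subst hp
    exact h.ne' (by simpa using hv)
  · right
    refine ⟨fun e => hv (e ▸ p.end_mem_support), ?_⟩
    have := Subtype.mk.inj <| (hG.subsingleton_path v r).elim ⟨p', hp'⟩ ⟨_, hp.cons hv (h := h.symm)⟩
    rw [this, Walk.snd_cons]

theorem exists_par {W : Type} (Y : SimpleGraph W)
    (h : ∀ u v (c : Y.Walk u u) (d : Y.Walk v v), c.IsCycle → d.IsCycle → Y.Reachable u v →
      c.edgeSet = d.edgeSet) : ∃ par : W → W, ∀ u v, Y.Adj u v → par u = v ∨ par v = u := by
  classical
  have h1 : ∀ K : Y.ConnectedComponent, ∃ a b, Y.connectedComponentMk a = K ∧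
      ∀ u (c : Y.Walk u u), c.IsCycle → Y.connectedComponentMk u = K → s(a, b) ∈ c.edges := by
    intro K
    by_cases hc : ∃ u, ∃ c : Y.Walk u u, c.IsCycle ∧ Y.connectedComponentMk u = K
    · obtain ⟨u0, c0, hc0, hK⟩ := hc
      refine ⟨u0, c0.snd, hK, fun u c hc hu => ?_⟩
      have := h u0 u c0 c hc0 hc (ConnectedComponent.exact (hK.trans hu.symm))
      rw [← Walk.mem_edgeSet, ← this, Walk.mem_edgeSet]
      exact Walk.mk_start_snd_mem_edges hc0.not_nil
    · obtain ⟨a, ha⟩ := K.exists_rep
      exact ⟨a, a, ha, fun u c h1 h2 => absurd ⟨u, c, h1, h2⟩ hc⟩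
  choose a b ha hb using h1
  let Y' := Y.deleteEdges {e | ∃ K, e = s(a K, b K)}
  have le : Y' ≤ Y := Y.deleteEdges_le _
  have ac : Y'.IsAcyclic := fun u c hc => by
    have h1 := hb _ u (c.mapLe le) (hc.mapLe le) rfl
    rw [Walk.edges_mapLe_eq_edges] at h1
    have h2 := c.edges_subset_edgeSet h1
    rw [edgeSet_deleteEdges] at h2
    exact h2.2 ⟨_, rfl⟩
  have h2 : ∀ K' : Y'.ConnectedComponent, ∃ r, Y'.connectedComponentMk r = K' ∧
      ∀ K, Y'.connectedComponentMk (a K) = K' → r = a K := by
    intro K'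
    by_cases hc : ∃ K, Y'.connectedComponentMk (a K) = K'
    · obtain ⟨K, hK⟩ := hc
      refine ⟨a K, hK, fun K2 hK2 => ?_⟩
      have := (ConnectedComponent.exact (hK.trans hK2.symm)).mono le
      rw [← ha K, ← ha K2, ConnectedComponent.sound this]
    · obtain ⟨r, hr⟩ := K'.exists_rep
      exact ⟨r, hr, fun K hK => absurd ⟨K, hK⟩ hc⟩
  choose r hr hr' using h2
  have h3 : ∀ u K', Y'.connectedComponentMk u = K' → ∃ p : Y'.Walk u (r K'), p.IsPath :=
    fun u K' e => (ConnectedComponent.exact (e.trans (hr K').symm)).exists_isPath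
  choose p hp using h3
  have hp' : ∀ u K' (e : Y'.connectedComponentMk u = K'), (p u _ rfl).snd = (p u K' e).snd := by
    rintro u _ rfl
    rfl
  refine ⟨fun u => if ∃ K, u = a K then b (Y.connectedComponentMk u) else (p u _ rfl).snd,
    fun u v huv => ?_⟩
  by_cases he : ∃ K, s(u, v) = s(a K, b K)
  · obtain ⟨K, hK⟩ := he
    rcases Sym2.eq_iff.mp hK with ⟨rfl, rfl⟩ | ⟨rfl, rfl⟩
    · left
      simp only [if_pos (⟨K, rfl⟩ : ∃ K', a K = a K'), ha]
    · right
      simp only [if_pos (⟨K, rfl⟩ : ∃ K', a K = a K'), ha]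
  · have h' : Y'.Adj u v := deleteEdges_adj.mpr ⟨huv, he⟩
    have e : Y'.connectedComponentMk v = Y'.connectedComponentMk u :=
      ConnectedComponent.sound h'.symm.reachable
    rcases snd_or ac h' (p u _ rfl) (p v _ e) (hp _ _ _) (hp _ _ _) with ⟨h1, h2⟩ | ⟨h1, h2⟩
    · left
      have : ¬ ∃ K, u = a K := by
        rintro ⟨K, rfl⟩
        exact h1 (hr' _ K rfl).symm
      simp only [if_neg this, h2]
    · right
      have : ¬ ∃ K, v = a K := by
        rintro ⟨K, rfl⟩
        exact h1 (hr' _ K e).symm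
      simp only [if_neg this]
      rw [hp' v _ e, h2]

/-- an orientation cut into segments -/
def Ori {V : Type} (H : SimpleGraph V) (W : Type) : Prop :=
  ∃ (par : V → V) (seg : V → W) (pos : V → ℕ),
    (∀ u v, seg u = seg v → pos u = pos v → u = v) ∧
    (∀ u v, seg u = seg v → pos u < pos v → seg (par u) = seg u ∧ pos (par u) = pos u + 1) ∧
    (∀ u, 0 < pos (par u) → seg u = seg (par u) ∧ pos u + 1 = pos (par u)) ∧
    ∀ u v, H.Adj u v → par u = v ∨ par v = u

theorem subdivide_comm {V : Type} (H : SimpleGraph V) (u v : V) :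
    subdivide H u v = subdivide H v u := by
  ext (_ | x) (_ | y) <;> simp [subdivide, or_comm]

theorem Ori.step {V W : Type} {H : SimpleGraph V} (h : Ori H W) {u v : V} (huv : H.Adj u v) :
    Ori (subdivide H u v) W := by
  classical
  obtain ⟨par, seg, pos, inj, fwd, bwd, adj⟩ := h
  wlog hp : par u = v generalizing u v
  · rw [subdivide_comm]
    exact this huv.symm ((adj u v huv).resolve_left hp)
  let par' : Option V → Option V := fun a => match a with
    | none => some v
    | some x => if x = u then none else some (par x)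
  let seg' : Option V → W := fun a => match a with
    | none => seg u
    | some x => seg x
  let pos' : Option V → ℕ := fun a => match a with
    | none => pos u + 1
    | some x => if seg x = seg u ∧ pos u < pos x then pos x + 1 else pos x
  have pu : par' (some u) = none := by simp [par']
  have px : ∀ x, x ≠ u → par' (some x) = some (par x) := fun x hx => by simp [par', hx]
  have nu : ∀ x, x ≠ u → seg x = seg u → pos x ≠ pos u := fun x hx e e' => hx (inj _ _ e e')
  have aux : ∀ x, x ≠ u → seg (par x) = seg x → pos (par x) = pos x + 1 →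
      pos' (some (par x)) = pos' (some x) + 1 := by
    intro x hx e1 e2
    have := nu x hx
    simp only [pos', e1, e2]
    split_ifs <;> grind
  refine ⟨par', seg', pos', ?_, ?_, ?_, ?_⟩
  · rintro (_ | x) (_ | y) e1 e2
    · rfl
    · simp only [seg', pos'] at e1 e2
      split_ifs at e2 <;> grind
    · simp only [seg', pos'] at e1 e2
      split_ifs at e2 <;> grind
    · simp only [seg', pos'] at e1 e2
      rw [inj x y e1 (by split_ifs at e2 <;> grind)]
  · rintro (_ | x) b e1 e2
    · rcases b with _ | y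
      · exact absurd e2 (lt_irrefl _)
      · simp only [seg', pos'] at e1 e2
        have := fwd u y e1 (by split_ifs at e2 <;> grind)
        rw [hp] at this
        simp [par', seg', pos', this]
    · by_cases hx : x = u
      · subst hx
        rw [pu]
        simp [seg', pos']
      · rw [px x hx]
        have : seg (par x) = seg x ∧ pos (par x) = pos x + 1 := by
          rcases b with _ | y
          · simp only [seg', pos'] at e1 e2
            have := nu x hx e1
            exact fwd x u e1 (by split_ifs at e2 <;> grind)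
          · simp only [seg', pos'] at e1 e2
            exact fwd x y e1 (by split_ifs at e2 <;> grind)
        exact ⟨this.1, aux x hx this.1 this.2⟩
  · rintro (_ | x) e
    · simp only [par', pos'] at e
      have := bwd u (by rw [hp]; split_ifs at e <;> omega)
      rw [hp] at this
      simp [par', seg', pos', ← this.1, ← this.2]
    · by_cases hx : x = u
      · subst hx
        rw [pu]
        simp [seg', pos']
      · rw [px x hx] at e ⊢
        simp only [pos'] at e
        have := bwd x (by split_ifs at e <;> omega)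
        exact ⟨this.1, (aux x hx this.1.symm this.2.symm).symm⟩
  · rintro (_ | x) (_ | y) e
    · exact e.elim
    · rcases e with rfl | rfl
      exacts [Or.inr pu, Or.inl rfl]
    · rcases e with rfl | rfl
      exacts [Or.inl pu, Or.inr rfl]
    · rcases adj x y e.1 with rfl | rfl
      · refine Or.inl (px x ?_)
        rintro rfl
        exact e.2 (by rw [hp])
      · refine Or.inr (px y ?_)
        rintro rfl
        exact e.2 (by rw [hp, Sym2.eq_swap])

theorem IsSubdivision.ori {W : Type} [Finite W] {Y : SimpleGraph W} (hY : Ori Y W) {V : Type}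
    {H : SimpleGraph V} (h : IsSubdivision Y V H) : Finite V ∧ Ori H W := by
  induction h with
  | refl => exact ⟨inferInstance, hY⟩
  | step _ huv ih =>
    have := ih.1
    exact ⟨inferInstance, ih.2.step huv⟩

theorem exists_top {V : Type} [Finite V] {H : SimpleGraph V} (par : V → V)
    (adj : ∀ u v, H.Adj u v → par u = v ∨ par v = u) (S : H.Subgraph) (hS : S.Connected) :
    ∃ t ∈ S.verts, ∀ u ∈ S.verts, ∃ k, par^[k] u = t ∧ ∀ j ≤ k, par^[j] u ∈ S.verts := by
  classical
  have := Fintype.ofFinite V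
  let Fl : V → V → Prop := fun u t => ∃ k, par^[k] u = t ∧ ∀ j ≤ k, par^[j] u ∈ S.verts
  have rf : ∀ u ∈ S.verts, Fl u u := fun u hu => ⟨0, rfl, fun j hj => by
    rw [Nat.le_zero.mp hj]; exact hu⟩
  have tr : ∀ a b c, Fl a b → Fl b c → Fl a c := by
    rintro a _ _ ⟨k, rfl, h1⟩ ⟨l, rfl, h2⟩
    refine ⟨l + k, iterate_add_apply _ _ _ _, fun j hj => ?_⟩
    rcases le_total j k with e | e
    · exact h1 j e
    · rw [show j = j - k + k by omega, iterate_add_apply]
      exact h2 _ (by omega)
  have cf : ∀ a b c, Fl a b → Fl a c → Fl b c ∨ Fl c b := by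
    have aux : ∀ a k l, k ≤ l → (∀ j ≤ l, par^[j] a ∈ S.verts) → Fl (par^[k] a) (par^[l] a) := by
      intro a k l e h2
      refine ⟨l - k, by rw [← iterate_add_apply, show l - k + k = l by omega], fun j hj => ?_⟩
      rw [← iterate_add_apply]
      exact h2 _ (by omega)
    rintro a _ _ ⟨k, rfl, h1⟩ ⟨l, rfl, h2⟩
    rcases le_total k l with e | e
    · exact Or.inl (aux a k l e h2)
    · exact Or.inr (aux a l k e h1)
  have one : ∀ a ∈ S.verts, par a ∈ S.verts → Fl a (par a) := fun a h1 h2 =>
    ⟨1, rfl, fun j hj => by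
      rcases (by omega : j = 0 ∨ j = 1) with rfl | rfl
      exacts [h1, h2]⟩
  have jn : ∀ a b : S.verts, ∃ t, Fl a t ∧ Fl b t := by
    intro a b
    have hr := hS.coe.preconnected a b
    rw [reachable_iff_reflTransGen] at hr
    induction hr with
    | refl => exact ⟨a, rf _ a.2, rf _ a.2⟩
    | @tail y z _ h2 ih =>
      obtain ⟨t, h3, h4⟩ := ih
      rcases adj y z (S.adj_sub h2) with e | e
      · rcases cf _ _ _ h4 (one y y.2 (e ▸ z.2)) with f | f
        · exact ⟨_, tr _ _ _ h3 f, by rw [e]; exact rf _ z.2⟩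
        · exact ⟨t, h3, e ▸ f⟩
      · exact ⟨t, h3, tr _ _ _ (one z z.2 (e ▸ y.2)) (e ▸ h4)⟩
  obtain ⟨t, ht, hmax⟩ := Set.exists_max_image S.verts
    (fun t => (Finset.univ.filter fun u => Fl u t).card) (Set.toFinite _) hS.nonempty
  refine ⟨t, ht, fun u hu => ?_⟩
  obtain ⟨t', h1, h2⟩ := jn ⟨u, hu⟩ ⟨t, ht⟩
  have ht' : t' ∈ S.verts := by
    obtain ⟨k, rfl, h⟩ := h2
    exact h k le_rfl
  have := Finset.eq_of_subset_of_card_le (s := Finset.univ.filter fun u => Fl u t)
    (t := Finset.univ.filter fun u => Fl u t')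
    (fun x hx => by simpa using tr _ _ _ (Finset.mem_filter.mp hx).2 h2) (hmax t' ht')
  have h3 : u ∈ Finset.univ.filter fun u => Fl u t' := by simpa using h1
  rw [← this] at h3
  exact (Finset.mem_filter.mp h3).2

theorem not_universal {W : Type} [Finite W] (Y : SimpleGraph W)
    (h : ∀ u v (c : Y.Walk u u) (d : Y.Walk v v), c.IsCycle → d.IsCycle → Y.Reachable u v →
      c.edgeSet = d.edgeSet) : ¬ Universal Y := by
  intro hU
  obtain ⟨G, _, _, hG⟩ := core W
  obtain ⟨α, _, X, ⟨V, H, hH, S, hS, hX⟩, e⟩ := hU G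
  obtain ⟨par0, h0⟩ := exists_par Y h
  obtain ⟨_, par, seg, pos, inj, fwd, bwd, adj⟩ := hH.ori ⟨par0, id, fun _ => 0,
    fun _ _ e _ => e, fun _ _ _ e => absurd e (lt_irrefl _), fun _ e => absurd e (lt_irrefl _), h0⟩
  choose t ht ht' using fun i => exists_top par adj (S i) (hS i)
  exact hG α V ⟨par, seg, pos, fun i => (S i).verts, t, inj, fwd, bwd, ht, ht'⟩ X hX e

end Pool.Agent.P.MP_f0827e_co
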