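import Mathlib
import Pool.Agent.P.MP_f0827e_co.Defs

namespace Pool.Agent.P.MP_f0827e_co

open SimpleGraph Relation

theorem rtg_lift {α β : Type} {r : α → α → Prop} {p : β → β → Prop} (f : α → β)
    (h : ∀ a b, r a b → p (f a) (f b)) {a b : α} (hab : ReflTransGen r a b) :
    ReflTransGen p (f a) (f b) := by
  induction hab with
  | refl => exact .refl
  | tail _ h2 ih => exact ih.tail (h _ _ h2)

/-- a connected set with two long paths attached at both ends -/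
structure Two {V : Type} (H : SimpleGraph V) (n m : ℕ) where
  T : Set V
  x0 : V
  A : ℕ → V
  B : ℕ → V
  x0T : x0 ∈ T
  conn : ∀ x ∈ T, ReflTransGen (fun a b => b ∈ T ∧ H.Adj a b ∧ s(a, b) ≠ s(A 0, A 1) ∧
    s(a, b) ≠ s(B 0, B 1)) x0 x
  A0 : A 0 ∈ T
  A1 : A (n + 1) ∈ T
  B0 : B 0 ∈ T
  B1 : B (m + 1) ∈ T
  adjA : ∀ i ≤ n, H.Adj (A i) (A (i + 1))
  adjB : ∀ i ≤ m, H.Adj (B i) (B (i + 1))
  outA : ∀ i, 1 ≤ i → i ≤ n → A i ∉ T
  outB : ∀ i, 1 ≤ i → i ≤ m → B i ∉ T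
  injA : ∀ i j, 1 ≤ i → i ≤ n → 1 ≤ j → j ≤ n → A i = A j → i = j
  injB : ∀ i j, 1 ≤ i → i ≤ m → 1 ≤ j → j ≤ m → B i = B j → i = j
  disj : ∀ i j, 1 ≤ i → i ≤ n → 1 ≤ j → j ≤ m → A i ≠ B j
  neA : A 0 ≠ A (n + 1)
  neB : B 0 ≠ B (m + 1)
  neAB : s(A 0, A 1) ≠ s(B 0, B 1)

namespace Two

variable {V : Type} {H : SimpleGraph V} {n m : ℕ}

def swap (t : Two H n m) : Two H m n where
  T := t.T
  x0 := t.x0
  A := t.B
  B := t.A
  x0T := t.x0T
  conn := fun x hx => rtg_lift id (fun _ _ h => ⟨h.1, h.2.1, h.2.2.2, h.2.2.1⟩) (t.conn x hx)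
  A0 := t.B0
  A1 := t.B1
  B0 := t.A0
  B1 := t.A1
  adjA := t.adjB
  adjB := t.adjA
  outA := t.outB
  outB := t.outA
  injA := t.injB
  injB := t.injA
  disj := fun i j a b c d e => t.disj j i c d a b e.symm
  neA := t.neB
  neB := t.neA
  neAB := t.neAB.symm

def step (t : Two H n m) : Two (subdivide H (t.A 0) (t.A 1)) (n + 1) m where
  T := some '' t.T
  x0 := some t.x0
  A := fun i => match i with
    | 0 => some (t.A 0)
    | 1 => none
    | i + 2 => some (t.A (i + 1))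
  B := fun i => some (t.B i)
  x0T := ⟨_, t.x0T, rfl⟩
  conn := by
    rintro _ ⟨x, hx, rfl⟩
    refine rtg_lift some (fun a b h => ⟨⟨_, h.1, rfl⟩, ⟨h.2.1, h.2.2.1⟩, by simp, ?_⟩)
      (t.conn x hx)
    simpa using h.2.2.2
  A0 := ⟨_, t.A0, rfl⟩
  A1 := ⟨_, t.A1, rfl⟩
  B0 := ⟨_, t.B0, rfl⟩
  B1 := ⟨_, t.B1, rfl⟩
  adjA := by
    rintro (_ | _ | i) hi
    · exact Or.inl rfl
    · exact Or.inr rfl
    · refine ⟨t.adjA _ (by omega), fun e => ?_⟩
      rcases Sym2.eq_iff.mp e with ⟨e1, -⟩ | ⟨e1, e2⟩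
      · exact t.outA (i + 1) (by omega) (by omega) (e1 ▸ t.A0)
      · have := t.injA _ _ (by omega) (by omega) (by omega) (by omega) e1
        rcases (by omega : i + 1 = n ∨ i + 2 ≤ n) with h | h
        · exact t.neA (e2.symm.trans (by rw [h]))
        · exact t.outA (i + 2) (by omega) h (e2 ▸ t.A0)
  adjB := by
    intro j hj
    refine ⟨t.adjB j hj, fun e => ?_⟩
    have hB : ∀ j ≤ m + 1, t.B j ∈ t.T ∨ (1 ≤ j ∧ j ≤ m) := fun j hj => by
      rcases (by omega : j = 0 ∨ j = m + 1 ∨ (1 ≤ j ∧ j ≤ m)) with rfl | rfl | h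
      exacts [Or.inl t.B0, Or.inl t.B1, Or.inr h]
    rcases Nat.eq_zero_or_pos n with rfl | hn
    · have a1 : t.A 1 ∈ t.T := t.A1
      have h : t.B j ∈ t.T ∧ t.B (j + 1) ∈ t.T := by
        rcases Sym2.eq_iff.mp e with ⟨e1, e2⟩ | ⟨e1, e2⟩
        exacts [⟨e1 ▸ t.A0, e2 ▸ a1⟩, ⟨e1 ▸ a1, e2 ▸ t.A0⟩]
      rcases Nat.eq_zero_or_pos j with rfl | hj'
      · exact t.neAB e.symm
      · exact t.outB j hj' hj h.1
    · have h : ∀ j ≤ m + 1, t.B j ≠ t.A 1 := fun j hj e => by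
        rcases hB j hj with h | h
        · exact t.outA 1 le_rfl hn (e ▸ h)
        · exact t.disj 1 j le_rfl hn h.1 h.2 e.symm
      rcases Sym2.eq_iff.mp e with ⟨-, e2⟩ | ⟨e1, -⟩
      · exact h _ (by omega) e2
      · exact h _ (by omega) e1
  outA := by
    rintro (_ | _ | i) h1 h2
    · omega
    · simp
    · simpa using t.outA (i + 1) (by omega) (by omega)
  outB := fun i h1 h2 => by simpa using t.outB i h1 h2
  injA := by
    rintro (_ | _ | i) (_ | _ | j) h1 h2 h3 h4 e <;> try omega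
    · simp at e
    · simp at e
    · have := t.injA (i + 1) (j + 1) (by omega) (by omega) (by omega) (by omega) (by simpa using e)
      omega
  injB := fun i j h1 h2 h3 h4 e => t.injB i j h1 h2 h3 h4 (by simpa using e)
  disj := by
    rintro (_ | _ | i) j h1 h2 h3 h4
    · omega
    · simp
    · simpa using t.disj (i + 1) j (by omega) (by omega) h3 h4
  neA := by simpa using t.neA
  neB := by simpa using t.neB
  neAB := by simp

/-- everything except an interval on each path -/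
def set (t : Two H n m) (a a' b b' : ℕ) : Set V :=
  t.T ∪ t.A '' {i | 1 ≤ i ∧ i ≤ n ∧ (i < a ∨ a' < i)} ∪ t.B '' {i | 1 ≤ i ∧ i ≤ m ∧ (i < b ∨ b' < i)}

theorem set_swap (t : Two H n m) (a a' b b' : ℕ) : t.swap.set b b' a a' = t.set a a' b b' := by
  simp only [set, swap]
  rw [Set.union_right_comm]

theorem A_mem (t : Two H n m) (a a' b b' : ℕ) {i : ℕ} (h1 : 1 ≤ i) (h2 : i ≤ n) :
    t.A i ∈ t.set a a' b b' ↔ i < a ∨ a' < i := by
  constructor
  · rintro ((h | ⟨j, hj, e⟩) | ⟨j, hj, e⟩)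
    · exact absurd h (t.outA i h1 h2)
    · rw [← t.injA _ _ hj.1 hj.2.1 h1 h2 e]; exact hj.2.2
    · exact absurd e.symm (t.disj _ _ h1 h2 hj.1 hj.2.1)
  · exact fun h => Or.inl (Or.inr ⟨i, ⟨h1, h2, h⟩, rfl⟩)

theorem B_mem (t : Two H n m) (a a' b b' : ℕ) {i : ℕ} (h1 : 1 ≤ i) (h2 : i ≤ m) :
    t.B i ∈ t.set a a' b b' ↔ i < b ∨ b' < i := by
  rw [← set_swap]
  exact t.swap.A_mem b b' a a' h1 h2

theorem reachA (t : Two H n m) (S : Set V) (hT : t.T ⊆ S) (a a' : ℕ)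
    (hS : ∀ i, 1 ≤ i → i ≤ n → (i < a ∨ a' < i) → t.A i ∈ S) :
    (∀ x ∈ t.T, ReflTransGen (fun a b => b ∈ S ∧ H.Adj a b) t.x0 x) ∧
      ∀ i, i ≤ n → (i < a ∨ a' < i) → ReflTransGen (fun a b => b ∈ S ∧ H.Adj a b) t.x0 (t.A i) := by
  have h1 : ∀ x ∈ t.T, ReflTransGen (fun a b => b ∈ S ∧ H.Adj a b) t.x0 x :=
    fun x hx => rtg_lift id (fun _ _ h => ⟨hT h.1, h.2.1⟩) (t.conn x hx)
  refine ⟨h1, fun i hi h => ?_⟩
  rcases h with h | h
  · induction i with
    | zero => exact h1 _ t.A0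
    | succ i ih =>
      exact (ih (by omega) (by omega)).tail
        ⟨hS _ (by omega) hi (Or.inl h), t.adjA i (by omega)⟩
  · rcases Nat.eq_zero_or_pos i with rfl | i0
    · omega
    have : ∀ d i, i + d = n + 1 → a' < i →
        ReflTransGen (fun a b => b ∈ S ∧ H.Adj a b) t.x0 (t.A i) := by
      intro d
      induction d with
      | zero => rintro i rfl _; exact h1 _ t.A1
      | succ d ih =>
        intro i e h
        exact (ih (i + 1) (by omega) (by omega)).tail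
          ⟨hS _ (by omega) (by omega) (Or.inr h), (t.adjA i (by omega)).symm⟩
    exact this (n + 1 - i) i (by omega) h

theorem set_conn (t : Two H n m) (a a' b b' : ℕ) :
    ((⊤ : H.Subgraph).induce (t.set a a' b b')).Connected := by
  have hT : t.T ⊆ t.set a a' b b' := fun x hx => Or.inl (Or.inl hx)
  have h1 := t.reachA _ hT a a' fun i h1 h2 h => (t.A_mem a a' b b' h1 h2).mpr h
  have h2 := t.swap.reachA _ hT b b' fun i h1 h2 h => (t.B_mem a a' b b' h1 h2).mpr h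
  have h3 : ∀ x ∈ t.set a a' b b',
      ReflTransGen (fun u v => v ∈ t.set a a' b b' ∧ H.Adj u v) t.x0 x := by
    rintro x ((h | ⟨j, hj, rfl⟩) | ⟨j, hj, rfl⟩)
    exacts [h1.1 x h, h1.2 j hj.2.1 hj.2.2, h2.2 j hj.2.1 hj.2.2]
  have h4 : ∀ x, ReflTransGen (fun u v => v ∈ t.set a a' b b' ∧ H.Adj u v) t.x0 x →
      ∃ hx : x ∈ t.set a a' b b', (H.induce (t.set a a' b b')).Reachable ⟨_, hT t.x0T⟩ ⟨x, hx⟩ := by
    intro x h
    induction h with
    | refl => exact ⟨hT t.x0T, .refl _⟩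
    | tail _ h ih =>
      obtain ⟨hx, ih⟩ := ih
      exact ⟨h.1, ih.trans (Adj.reachable h.2)⟩
  rw [← connected_induce_iff, connected_iff_exists_forall_reachable]
  exact ⟨⟨_, hT t.x0T⟩, fun x => (h4 x (h3 x x.2)).2⟩

end Two

theorem reach_del {W : Type} {Y : SimpleGraph W} {a b : W}
    (h : (Y.deleteEdges {s(a, b)}).Reachable a b) {x y : W} (r : Y.Reachable x y) :
    (Y.deleteEdges {s(a, b)}).Reachable x y := by
  rw [reachable_iff_reflTransGen] at r
  induction r with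
  | refl => exact .refl _
  | @tail u v _ h2 ih =>
    refine ih.trans ?_
    by_cases e : s(u, v) = s(a, b)
    · rcases Sym2.eq_iff.mp e with ⟨rfl, rfl⟩ | ⟨rfl, rfl⟩
      exacts [h, h.symm]
    · exact (deleteEdges_adj.mpr ⟨h2, e⟩).reachable

theorem two_zero {W : Type} {Y : SimpleGraph W} {u v : W} (c : Y.Walk u u) (d : Y.Walk v v)
    (hc : c.IsCycle) (hd : d.IsCycle) (r : Y.Reachable u v) {e : Sym2 W} (h1 : e ∈ c.edges)
    (h2 : e ∉ d.edges) : Nonempty (Two Y 0 0) := by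
  classical
  induction e with
  | _ a1 b1 =>
  obtain ⟨adj1, r1⟩ := adj_and_reachable_delete_edges_iff_exists_cycle.mpr ⟨u, c, hc, h1⟩
  have hd' : ∀ e ∈ d.edges, e ∉ ({s(a1, b1)} : Set (Sym2 W)) := by
    rintro e he rfl
    exact h2 he
  have h3 := Walk.mk_start_snd_mem_edges hd.not_nil
  generalize d.snd = b2 at h3
  obtain ⟨adj2, r2⟩ := adj_and_reachable_delete_edges_iff_exists_cycle.mpr
    ⟨v, d.toDeleteEdges _ hd', Walk.IsCycle.toDeleteEdges _ _ hd hd', by rw [Walk.edges_transfer]; exact h3⟩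
  rw [deleteEdges_adj] at adj2
  have ra : Y.Reachable v a1 := r.symm.trans (c.takeUntil a1 (c.fst_mem_support_of_mem_edges h1)).reachable
  have f : ∀ x, Y.Reachable v x →
      ((Y.deleteEdges {s(a1, b1)}).deleteEdges {s(v, b2)}).Reachable v x :=
    fun x hx => reach_del r2 (reach_del r1 hx)
  refine ⟨⟨{x | Y.Reachable v x}, v, fun i => if i = 0 then a1 else b1,
    fun i => if i = 0 then v else b2, .refl _, fun x hx => ?_, ra, ra.trans adj1.reachable,
    .refl _, adj2.1.reachable, fun i hi => ?_, fun i hi => ?_, by omega, by omega, by omega,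
    by omega, by omega, adj1.ne, adj2.1.ne, fun e => adj2.2 e.symm⟩⟩
  · have := f x hx
    clear hx
    rw [reachable_iff_reflTransGen] at this
    induction this with
    | refl => exact .refl
    | @tail y z h4 h5 ih =>
      rw [deleteEdges_adj, deleteEdges_adj] at h5
      refine ih.tail ⟨?_, h5.1.1, h5.1.2, h5.2⟩
      rw [← reachable_iff_reflTransGen] at h4
      exact (h4.mono ((deleteEdges_le _).trans (deleteEdges_le _))).trans h5.1.1.reachable
  · rw [Nat.le_zero.mp hi]; exact adj1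
  · rw [Nat.le_zero.mp hi]; exact adj2.1

theorem two_all {W : Type} {Y : SimpleGraph W} (h : Nonempty (Two Y 0 0)) (n m : ℕ) :
    ∃ V H, IsSubdivision Y V H ∧ Nonempty (Two H n m) := by
  have aux : ∀ m, (∃ V H, IsSubdivision Y V H ∧ Nonempty (Two H 0 m)) →
      ∀ n, ∃ V H, IsSubdivision Y V H ∧ Nonempty (Two H n m) := by
    intro m h n
    induction n with
    | zero => exact h
    | succ n ih =>
      obtain ⟨V, H, h1, ⟨t⟩⟩ := ih
      exact ⟨_, _, h1.step (t.adjA 0 (by omega)), ⟨t.step⟩⟩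
  obtain ⟨V, H, h1, ⟨t⟩⟩ := aux 0 ⟨W, Y, .refl, h⟩ m
  exact aux m ⟨V, H, h1, ⟨t.swap⟩⟩ n

end Pool.Agent.P.MP_f0827e_co
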