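import Mathlib
import Pool.Agent.P.MP_f0827e_co.Univ1

namespace Pool.Agent.P.MP_f0827e_co

open SimpleGraph

/-- the split graph given by the missing pairs -/
def splitG {P Q : Type} (Miss : Q → P → Prop) : SimpleGraph (P ⊕ Q) where
  Adj
    | .inl _, .inl _ => False
    | .inl p, .inr c => ¬ Miss c p
    | .inr c, .inl p => ¬ Miss c p
    | .inr c, .inr c' => c ≠ c'
  symm := ⟨by
    rintro (x | x) (y | y) h
    · exact h
    · exact h
    · exact h
    · exact Ne.symm h⟩
  loopless := ⟨by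
    rintro (x | x) h
    · exact h
    · exact h rfl⟩

theorem split_aut {P Q : Type} {Miss : Q → P → Prop}
    (h : ∀ c, ∃ p p', p ≠ p' ∧ ¬ Miss c p ∧ ¬ Miss c p') (φ : splitG Miss ≃g splitG Miss) :
    ∃ (f : P → P) (k : Q → Q), (∀ p, φ (.inl p) = .inl (f p)) ∧ (∀ c, φ (.inr c) = .inr (k c)) ∧
      Function.Surjective k ∧ Function.Surjective f ∧ ∀ c p, Miss (k c) (f p) ↔ Miss c p := by
  have key : ∀ (φ : splitG Miss ≃g splitG Miss) c p, φ (.inr c) ≠ .inl p := by
    intro φ c p e
    obtain ⟨p1, p2, hne, h1, h2⟩ := h c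
    have a1 : (splitG Miss).Adj (φ (.inr c)) (φ (.inl p1)) := φ.map_adj_iff.mpr h1
    have a2 : (splitG Miss).Adj (φ (.inr c)) (φ (.inl p2)) := φ.map_adj_iff.mpr h2
    have a3 : ¬ (splitG Miss).Adj (φ (.inl p1)) (φ (.inl p2)) := fun e => φ.map_adj_iff.mp e
    have a4 : φ (.inl p1) ≠ φ (.inl p2) := fun e => hne (Sum.inl_injective (φ.injective e))
    rw [e] at a1 a2
    generalize φ (.inl p1) = x at *
    generalize φ (.inl p2) = y at *
    rcases x with x | x
    · exact a1
    rcases y with y | y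
    · exact a2
    exact a3 fun e => a4 (congrArg _ e)
  have h1 : ∀ (φ : splitG Miss ≃g splitG Miss) p, ∃ p', φ (.inl p) = .inl p' := fun φ p => by
    rcases e : φ (.inl p) with x | x
    · exact ⟨x, rfl⟩
    · exact absurd (by rw [← e]; simp) (key φ.symm x p)
  have h2 : ∀ (φ : splitG Miss ≃g splitG Miss) c, ∃ c', φ (.inr c) = .inr c' := fun φ c => by
    rcases e : φ (.inr c) with x | x
    · exact absurd e (key φ c x)
    · exact ⟨x, rfl⟩
  choose f hf using h1 φ
  choose k hk using h2 φ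
  refine ⟨f, k, hf, hk, fun c => ?_, fun p => ?_, fun c p => ?_⟩
  · obtain ⟨c', e⟩ := h2 φ.symm c
    exact ⟨c', Sum.inr_injective (by rw [← hk, ← e]; simp)⟩
  · obtain ⟨c', e⟩ := h1 φ.symm p
    exact ⟨c', Sum.inl_injective (by rw [← hf, ← e]; simp)⟩
  · have := φ.map_adj_iff (v := .inr c) (w := .inl p)
    rw [hf, hk] at this
    exact not_iff_not.mp this

/-- the missing pairs for a group -/
def Miss {G : Type} [Group G] {m : ℕ} (ι : G ≃ Fin m) : Option (G × G) → (G × G) ⊕ G → Prop
  | none, .inl _ => True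
  | none, .inr _ => False
  | some c, .inl p => p.1 = c.1 ∧ ι p.2 ≤ ι c.2
  | some c, .inr h => h = c.1 * c.2

section

variable {G : Type} [Group G] {m : ℕ} (ι : G ≃ Fin m)

/-- left multiplication -/
def act (x : G) : ((G × G) ⊕ G) ⊕ Option (G × G) → ((G × G) ⊕ G) ⊕ Option (G × G)
  | .inl (.inl p) => .inl (.inl (x * p.1, p.2))
  | .inl (.inr h) => .inl (.inr (x * h))
  | .inr none => .inr none
  | .inr (some c) => .inr (some (x * c.1, c.2))

theorem act_mul (x y : G) (v) : act (x * y) v = act x (act y v) := by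
  rcases v with (p | h) | (_ | c) <;> simp [act, mul_assoc]

theorem act_one (v : ((G × G) ⊕ G) ⊕ Option (G × G)) : act 1 v = v := by
  rcases v with (p | h) | (_ | c) <;> simp [act]

/-- left multiplication as an automorphism -/
def actIso (x : G) : splitG (Miss ι) ≃g splitG (Miss ι) where
  toFun := act x
  invFun := act x⁻¹
  left_inv := fun v => by rw [← act_mul, inv_mul_cancel, act_one]
  right_inv := fun v => by rw [← act_mul, mul_inv_cancel, act_one]
  map_rel_iff' := by
    rintro ((p | h) | (_ | c)) ((p' | h') | (_ | c')) <;>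
      simp [act, splitG, Miss, mul_assoc, Prod.ext_iff]

theorem aut_iso [Nontrivial G] : Nonempty (G ≃* (splitG (Miss ι) ≃g splitG (Miss ι))) := by
  let F : G →* (splitG (Miss ι) ≃g splitG (Miss ι)) :=
    { toFun := actIso ι
      map_one' := by ext v; exact act_one v
      map_mul' := fun x y => by ext v; exact act_mul x y v }
  refine ⟨MulEquiv.ofBijective F ⟨fun x y e => ?_, fun φ => ?_⟩⟩
  · have := congrArg (fun t : splitG (Miss ι) ≃g splitG (Miss ι) => t (.inl (.inr 1))) e
    simpa [F, actIso, act] using this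
  have m0 : 0 < m := (ι 1).pos
  let z : G := ι.symm ⟨0, m0⟩
  have hz : ∀ s, ι z ≤ ι s := fun s => by simp [z, Fin.le_def]
  obtain ⟨f, k, hf, hk, ks, fs, hM⟩ := split_aut (Miss := Miss ι) (by
    rintro (_ | c)
    · obtain ⟨a, b, hab⟩ := exists_pair_ne G
      exact ⟨.inr a, .inr b, by simpa using hab, id, id⟩
    · obtain ⟨a, ha⟩ := exists_ne c.1
      obtain ⟨b, hb⟩ := exists_ne (c.1 * c.2)
      exact ⟨.inl (a, 1), .inr b, by simp, fun e => ha e.1, hb⟩) φ
  have kinj : Function.Injective k := fun a b e =>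
    Sum.inr_injective (φ.injective (by rw [hk, hk, e]))
  have k0 : k none = none := by
    rcases e : k none with _ | c
    · rfl
    exfalso
    obtain ⟨a, ha⟩ := exists_ne c.1
    obtain ⟨b, hb⟩ := exists_ne (a⁻¹ * (c.1 * c.2))
    obtain ⟨c', hc'⟩ := ks (some (a, b))
    rcases c' with _ | c'
    · rw [e] at hc'
      exact ha (by rw [Option.some.inj hc'])
    have h1 := (hM none (.inl (c'.1, z))).mpr trivial
    have h2 := (hM (some c') (.inl (c'.1, z))).mpr ⟨rfl, hz _⟩
    rw [e] at h1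
    rw [hc'] at h2
    generalize f (.inl (c'.1, z)) = p at h1 h2
    rcases p with p | p
    · exact ha (h2.1.symm.trans h1.1)
    · apply hb
      have e1 : p = c.1 * c.2 := h1
      have e2 : p = a * b := h2
      rw [← e1, e2, inv_mul_cancel_left]
  have h1 : ∀ p, ∃ p', f (.inl p) = .inl p' := fun p => by
    have := (hM none (.inl p)).mpr trivial
    rw [k0] at this
    rcases e : f (.inl p) with x | x
    · exact ⟨x, rfl⟩
    · rw [e] at this; exact this.elim
  have h2 : ∀ p, ∃ p', f (.inr p) = .inr p' := fun p => by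
    have := hM none (.inr p)
    rw [k0] at this
    rcases e : f (.inr p) with x | x
    · rw [e] at this; exact (this.mp trivial).elim
    · exact ⟨x, rfl⟩
  have h3 : ∀ c, ∃ c', k (some c) = some c' := fun c => by
    rcases e : k (some c) with _ | x
    · exact absurd (kinj (e.trans k0.symm)) (by simp)
    · exact ⟨x, rfl⟩
  choose fa hfa using h1
  choose fb hfb using h2
  choose kk hkk using h3
  have ma : ∀ c p, ((fa p).1 = (kk c).1 ∧ ι (fa p).2 ≤ ι (kk c).2) ↔ (p.1 = c.1 ∧ ι p.2 ≤ ι c.2) :=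
    fun c p => by
      have := hM (some c) (.inl p)
      rwa [hfa, hkk] at this
  have mb : ∀ c : G × G, fb (c.1 * c.2) = (kk c).1 * (kk c).2 := fun c => by
    have := hM (some c) (.inr (c.1 * c.2))
    rw [hfb, hkk] at this
    exact this.mpr rfl
  have fas : Function.Surjective fa := fun p => by
    obtain ⟨p' | p', e⟩ := fs (.inl p)
    · exact ⟨p', Sum.inl_injective (by rw [← hfa, e])⟩
    · rw [hfb] at e; simp at e
  have k1 : ∀ g s, (kk (g, s)).1 = (fa (g, z)).1 := fun g s =>
    ((ma (g, s) (g, z)).mpr ⟨rfl, hz _⟩).1.symm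
  have mono : ∀ g, StrictMono fun i => ι (kk (g, ι.symm i)).2 := by
    intro g i j hij
    by_contra hc
    have a1 := (ma (g, ι.symm j) (g, ι.symm j)).mpr ⟨rfl, le_rfl⟩
    have a2 := (ma (g, ι.symm i) (g, ι.symm j)).mp
      ⟨by rw [a1.1, k1, k1], a1.2.trans (not_lt.mp hc)⟩
    simp only [Equiv.apply_symm_apply] at a2
    exact absurd hij (not_lt.mpr a2.2)
  have k2 : ∀ g s, (kk (g, s)).2 = s := fun g s => by
    have e : (fun i => ι (kk (g, ι.symm i)).2) = id :=
      le_antisymm (mono g).le_id (mono g).id_le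
    have := congrFun e (ι s)
    simpa using this
  let x : G := (fa (1, z)).1
  have b1 : ∀ h, fb h = x * h := fun h => by
    have := mb (1, h)
    rwa [one_mul, k1, k2] at this
  have k3 : ∀ g s, (kk (g, s)).1 = x * g := fun g s => by
    have := mb (g, s)
    rw [b1, k2, ← mul_assoc] at this
    exact (mul_right_cancel this).symm
  have a1 : ∀ g j, fa (g, j) = (x * g, j) := fun g j => by
    have e1 := (ma (g, j) (g, j)).mpr ⟨rfl, le_rfl⟩
    have e2 := (ma (g, (fa (g, j)).2) (g, j)).mp ⟨by rw [e1.1, k3, k3], by rw [k2]⟩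
    rw [k3, k2] at e1
    exact Prod.ext e1.1 (ι.injective (le_antisymm e1.2 e2.2))
  refine ⟨x, ?_⟩
  ext v
  show act x v = φ v
  rcases v with (⟨g, j⟩ | h) | (_ | ⟨g, s⟩)
  · rw [hf, hfa, a1]; rfl
  · rw [hf, hfb, b1]; rfl
  · rw [hk, k0]; rfl
  · rw [hk, hkk, show kk (g, s) = (x * g, s) from Prod.ext (k3 g s) (k2 g s)]; rfl

theorem inClass_split {W : Type} {Y : SimpleGraph W} (h : Nonempty (Two Y 0 0)) :
    InClass Y (splitG (Miss ι)) := by
  obtain ⟨V, H, hH, ⟨t⟩⟩ := two_all h (m * m) m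
  let ia : G × G → ℕ := fun p => 1 + (ι p.1 * m + ι p.2)
  let ib : G → ℕ := fun g => 1 + ι g
  have ia1 : ∀ p, 1 ≤ ia p := fun p => Nat.le_add_right _ _
  have ib1 : ∀ p, 1 ≤ ib p := fun p => Nat.le_add_right _ _
  have ia2 : ∀ p, ia p ≤ m * m := fun p => by
    have h1 := Nat.mul_le_mul_right m (Nat.succ_le_of_lt (ι p.1).2)
    have h2 := (ι p.2).2
    simp only [ia]
    rw [Nat.succ_mul] at h1
    omega
  have ib2 : ∀ p, ib p ≤ m := fun p => by
    have h2 := (ι p).2
    simp only [ib]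
    omega
  have key : ∀ p c : G × G, ¬ (p.1 = c.1 ∧ ι p.2 ≤ ι c.2) ↔
      ia p < 1 + ι c.1 * m ∨ ia c < ia p := by
    rintro ⟨g, j⟩ ⟨g', s⟩
    have h2 := (ι j).2
    have h3 := (ι s).2
    simp only [ia, Fin.le_def, ← ι.injective.eq_iff, Fin.ext_iff]
    rcases lt_trichotomy (ι g : ℕ) (ι g') with e | e | e
    · have h1 := Nat.mul_le_mul_right m (Nat.succ_le_of_lt e)
      rw [Nat.succ_mul] at h1
      omega
    · rw [e]; omega
    · have h1 := Nat.mul_le_mul_right m (Nat.succ_le_of_lt e)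
      rw [Nat.succ_mul] at h1
      omega
  let pt : (G × G) ⊕ G → V := Sum.elim (fun p => t.A (ia p)) fun g => t.B (ib g)
  have pinj : Function.Injective pt := by
    rintro (p | p) (p' | p') e
    · have := t.injA _ _ (ia1 _) (ia2 _) (ia1 _) (ia2 _) e
      have a1 := not_iff_not.mp ((key p p').trans not_not.symm)
      have a2 := not_iff_not.mp ((key p' p).trans not_not.symm)
      have e1 : 1 + ι p.1 * m ≤ ia p := by simp only [ia]; omega
      have e2 : 1 + ι p'.1 * m ≤ ia p' := by simp only [ia]; omega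
      have b1 := a1.mpr (by omega)
      have b2 := a2.mpr (by omega)
      exact congrArg _ (Prod.ext b1.1 (ι.injective (le_antisymm b1.2 b2.2)))
    · exact absurd e (t.disj _ _ (ia1 _) (ia2 _) (ib1 _) (ib2 _))
    · exact absurd e.symm (t.disj _ _ (ia1 _) (ia2 _) (ib1 _) (ib2 _))
    · have := t.injB _ _ (ib1 _) (ib2 _) (ib1 _) (ib2 _) e
      exact congrArg _ (ι.injective (Fin.ext (by simp only [ib] at this; omega)))
  let st : Option (G × G) → Set V := fun c => match c with
    | none => t.set 1 (m * m) 1 0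
    | some c => t.set (1 + ι c.1 * m) (ia c) (ib (c.1 * c.2)) (ib (c.1 * c.2))
  have mem : ∀ c p, pt p ∈ st c ↔ ¬ Miss ι c p := by
    rintro (_ | c) (p | p)
    · refine (t.A_mem _ _ _ _ (ia1 p) (ia2 p)).trans ?_
      have := ia1 p
      have := ia2 p
      simp only [Miss, not_true_eq_false, iff_false]
      omega
    · refine (t.B_mem _ _ _ _ (ib1 p) (ib2 p)).trans ?_
      have := ib1 p
      simp only [Miss, not_false_eq_true, iff_true]
      omega
    · exact (t.A_mem _ _ _ _ (ia1 p) (ia2 p)).trans (key p c).symm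
    · refine (t.B_mem _ _ _ _ (ib1 p) (ib2 p)).trans ?_
      simp only [Miss, ib, ← ι.injective.eq_iff, Fin.ext_iff]
      omega
  have x0 : ∀ c, t.x0 ∈ st c := by
    rintro (_ | c) <;> exact Or.inl (Or.inl t.x0T)
  refine ⟨V, H, hH, Sum.elim (fun p => H.singletonSubgraph (pt p))
    fun c => (⊤ : H.Subgraph).induce (st c), ?_, ?_⟩
  · rintro (p | (_ | c))
    · exact Subgraph.singletonSubgraph_connected
    · exact t.set_conn _ _ _ _
    · exact t.set_conn _ _ _ _
  · rintro (p | c) (p' | c') hne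
    · refine iff_of_false id ?_
      rintro ⟨v, h1, h2⟩
      exact hne (congrArg _ (pinj (h1.symm.trans h2)))
    · refine (mem c' p).symm.trans ⟨fun h => ⟨_, rfl, h⟩, ?_⟩
      rintro ⟨v, rfl, h2⟩
      exact h2
    · refine (mem c p').symm.trans ⟨fun h => ⟨_, h, rfl⟩, ?_⟩
      rintro ⟨v, h2, rfl⟩
      exact h2
    · exact iff_of_true (fun e => hne (congrArg _ e)) ⟨_, x0 c, x0 c'⟩

end

theorem universal_of_two {W : Type} {Y : SimpleGraph W} (h : Nonempty (Two Y 0 0)) :
    Universal Y := by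
  intro G _ _
  rcases subsingleton_or_nontrivial G with hG | hG
  · obtain ⟨t⟩ := h
    refine ⟨Unit, inferInstance, ⊥, ⟨W, Y, .refl, fun _ => Y.singletonSubgraph t.x0,
      fun _ => Subgraph.singletonSubgraph_connected, fun i j e => absurd rfl e⟩, ?_⟩
    have : Unique G := uniqueOfSubsingleton 1
    have : Subsingleton ((⊥ : SimpleGraph Unit) ≃g (⊥ : SimpleGraph Unit)) :=
      ⟨fun a b => by ext v⟩
    have : Unique ((⊥ : SimpleGraph Unit) ≃g (⊥ : SimpleGraph Unit)) := uniqueOfSubsingleton 1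
    exact ⟨MulEquiv.ofUnique⟩
  · exact ⟨_, inferInstance, _, inClass_split (Finite.equivFin G) h, aut_iso _⟩

end Pool.Agent.P.MP_f0827e_co
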